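import Pool.Agent.Lib_MP_27c196_co.S.Defs

/-! H24 S, piece A1: the six directions, neighbours of a good point -/

set_option linter.unusedSimpArgs false
set_option linter.unusedVariables false

noncomputable section

namespace H24

open Finset

variable {L E0 g1 R0 : ℝ} {X : Finset ℂ} {err : ℂ → ℝ}

private theorem A1_sq : w6 ^ 2 = ⟨-1 / 2, √3 / 2⟩ := by
  have h3 := sqrt3_sq
  rw [pow_two]
  apply Complex.ext
  · simp only [w6, Complex.mul_re]
    nlinarith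
  · simp only [w6, Complex.mul_im]
    ring

theorem w6_norm : ‖w6‖ = 1 := by
  have h3 := sqrt3_sq
  have h : ‖w6‖ ^ 2 = 1 ^ 2 := by
    rw [← Complex.normSq_eq_norm_sq, Complex.normSq_apply]
    simp only [w6]
    nlinarith
  have h0 := norm_nonneg w6
  nlinarith

theorem w6_cube : w6 ^ 3 = -1 := by
  have h3 := sqrt3_sq
  have e : w6 ^ 3 = w6 ^ 2 * w6 := by ring
  rw [e, A1_sq]
  apply Complex.ext
  · simp only [w6, Complex.mul_re, Complex.neg_re, Complex.one_re]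
    nlinarith
  · simp only [w6, Complex.mul_im, Complex.neg_im, Complex.one_im]
    ring

theorem w6_six : w6 ^ 6 = 1 := by
  have e : w6 ^ 6 = (w6 ^ 3) ^ 2 := by ring
  rw [e, w6_cube]
  ring

theorem dirv_zero : dirv 0 = 1 := by
  simp [dirv]

theorem dirv_two : dirv 2 = w6 ^ 2 := by
  rw [A1_sq]
  simp [dirv]

theorem dirv_one : dirv 1 = w6 ^ 4 := by
  have e : w6 ^ 4 = w6 ^ 3 * w6 := by ring
  rw [e, w6_cube]
  apply Complex.ext
  · simp [dirv, w6]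
    norm_num
  · simp [dirv, w6]

theorem dirv_sum : dirv 0 + dirv 1 + dirv 2 = 0 := by
  apply Complex.ext
  · simp [dirv]
    norm_num
  · simp [dirv]

theorem dirv_norm (i : Fin 3) : ‖dirv i‖ = 1 := by
  fin_cases i
  · simp [dirv]
  · show ‖dirv 1‖ = 1
    rw [dirv_one, norm_pow, w6_norm, one_pow]
  · show ‖dirv 2‖ = 1
    rw [dirv_two, norm_pow, w6_norm, one_pow]

private theorem A1_near (u : ℂ) (h1 : 9 / 10 ≤ ‖u‖) (h2 : ‖u‖ ≤ 11 / 10) :
    ∃ j : ℕ, j < 6 ∧ ‖u - w6 ^ j‖ ≤ 6 / 10 := by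
  have h3 := sqrt3_sq
  have h0 := sqrt3_pos
  have hgt := sqrt3_gt
  set ρ := ‖u‖ with hρ
  have hu : u.re ^ 2 + u.im ^ 2 = ρ ^ 2 := by
    rw [hρ, ← Complex.normSq_eq_norm_sq, Complex.normSq_apply]
    ring
  set x := u.re with hx
  set y := u.im with hy
  -- it is enough to have a large scalar product
  have key : ∀ a b : ℝ, a ^ 2 + b ^ 2 = 1 → √3 / 2 * ρ ≤ a * x + b * y →
      ∀ w : ℂ, w = ⟨a, b⟩ → ‖u - w‖ ≤ 6 / 10 := by
    intro a b hab hd w hw
    have h4 : ‖u - w‖ ^ 2 ≤ (6 / 10) ^ 2 := by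
      rw [← Complex.normSq_eq_norm_sq, Complex.normSq_apply, hw]
      simp only [Complex.sub_re, Complex.sub_im, ← hx, ← hy]
      have h5 : (x - a) * (x - a) + (y - b) * (y - b) = ρ ^ 2 + 1 - 2 * (a * x + b * y) := by
        linear_combination hu + hab
      rw [h5]
      nlinarith
    have h6 := norm_nonneg (u - w)
    nlinarith
  have p2 : w6 ^ 2 = ⟨-1 / 2, √3 / 2⟩ := A1_sq
  have p3 : w6 ^ 3 = ⟨-1, 0⟩ := by rw [w6_cube]; apply Complex.ext <;> simp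
  have p4 : w6 ^ 4 = ⟨-1 / 2, -(√3 / 2)⟩ := by
    rw [← dirv_one]
    simp [dirv]
  have p5 : w6 ^ 5 = ⟨1 / 2, -(√3 / 2)⟩ := by
    have e : w6 ^ 5 = w6 ^ 3 * w6 ^ 2 := by ring
    rw [e, w6_cube, p2]
    apply Complex.ext
    · simp
      norm_num
    · simp
  have p0 : w6 ^ 0 = ⟨1, 0⟩ := by rw [pow_zero]; apply Complex.ext <;> simp
  have p1 : w6 ^ 1 = ⟨1 / 2, √3 / 2⟩ := by rw [pow_one, w6]
  have hρ0 : 0 < ρ := by linarith
  have hm : 0 < √3 / 2 * ρ := by positivity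
  -- squares
  have hsq : ∀ d : ℝ, 3 / 4 * ρ ^ 2 ≤ d ^ 2 → √3 / 2 * ρ ≤ d ∨ √3 / 2 * ρ ≤ -d := by
    intro d hd
    by_contra hc
    push Not at hc
    have h4 : d ^ 2 < (√3 / 2 * ρ) ^ 2 := sq_lt_sq' (by linarith [hc.2]) hc.1
    have h5 : (√3 / 2 * ρ) ^ 2 = 3 / 4 * ρ ^ 2 := by
      linear_combination (ρ ^ 2 / 4) * h3
    linarith
  have hone : 3 / 4 * ρ ^ 2 ≤ x ^ 2 ∨ 3 / 4 * ρ ^ 2 ≤ (-1 / 2 * x + √3 / 2 * y) ^ 2 ∨
      3 / 4 * ρ ^ 2 ≤ (-1 / 2 * x + -(√3 / 2) * y) ^ 2 := by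
    by_contra hc
    push Not at hc
    obtain ⟨c1, c2, c3⟩ := hc
    have hs : x ^ 2 + (-1 / 2 * x + √3 / 2 * y) ^ 2 + (-1 / 2 * x + -(√3 / 2) * y) ^ 2 =
        3 / 2 * ρ ^ 2 := by
      linear_combination (3 / 2) * hu + (y ^ 2 / 2) * h3
    have hz : x + (-1 / 2 * x + √3 / 2 * y) + (-1 / 2 * x + -(√3 / 2) * y) = 0 := by ring
    generalize (-1 / 2 * x + √3 / 2 * y) = d2 at hs hz c2
    generalize (-1 / 2 * x + -(√3 / 2) * y) = d4 at hs hz c3
    have hd4 : d4 = -x - d2 := by linarith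
    rw [hd4] at hs c3
    rcases le_total 0 x with s1 | s1 <;> rcases le_total 0 d2 with s2 | s2
    · nlinarith [mul_nonneg s1 s2]
    · rcases le_total 0 (x + d2) with s3 | s3
      · nlinarith [mul_nonneg s3 (neg_nonneg.2 s2)]
      · nlinarith [mul_nonneg (neg_nonneg.2 s3) s1]
    · rcases le_total 0 (x + d2) with s3 | s3
      · nlinarith [mul_nonneg s3 (neg_nonneg.2 s1)]
      · nlinarith [mul_nonneg (neg_nonneg.2 s3) s2]
    · nlinarith [mul_nonneg (neg_nonneg.2 s1) (neg_nonneg.2 s2)]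
  rcases hone with h4 | h4 | h4
  · rcases hsq _ h4 with h5 | h5
    · exact ⟨0, by norm_num, key 1 0 (by norm_num) (by linarith) _ p0⟩
    · exact ⟨3, by norm_num, key (-1) 0 (by norm_num) (by linarith) _ p3⟩
  · rcases hsq _ h4 with h5 | h5
    · exact ⟨2, by norm_num, key (-1 / 2) (√3 / 2) (by nlinarith) (by linarith) _ p2⟩
    · exact ⟨5, by norm_num, key (1 / 2) (-(√3 / 2)) (by nlinarith) (by linarith) _ p5⟩
  · rcases hsq _ h4 with h5 | h5
    · exact ⟨4, by norm_num, key (-1 / 2) (-(√3 / 2)) (by nlinarith) (by linarith) _ p4⟩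
    · exact ⟨1, by norm_num, key (1 / 2) (√3 / 2) (by nlinarith) (by linarith) _ p1⟩

/-- every `v` with norm in `[0.9, 1.1]` is within `0.6` of one of the six `F w^j` (angle at most 30 degrees) -/
theorem near_dir {v F : ℂ} (hF : ‖F‖ = 1) (h1 : 9 / 10 ≤ ‖v‖) (h2 : ‖v‖ ≤ 11 / 10) :
    ∃ j : ℕ, j < 6 ∧ ‖v - F * w6 ^ j‖ ≤ 6 / 10 := by
  have hF0 : F ≠ 0 := by
    rintro rfl
    simp at hF
  have hn : ‖v / F‖ = ‖v‖ := by rw [norm_div, hF, div_one]
  obtain ⟨j, hj, h⟩ := A1_near (v / F) (by rw [hn]; exact h1) (by rw [hn]; exact h2)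
  refine ⟨j, hj, ?_⟩
  have e : v - F * w6 ^ j = F * (v / F - w6 ^ j) := by field_simp
  rw [e, norm_mul, hF, one_mul]
  exact h

/-- two points of `X` at distance less than 1 are equal -/
private theorem A1_eq (hS : SData L E0 g1 R0 X err) {p r : ℂ} (hp : p ∈ X) (hr : r ∈ X)
    (h : ‖p - r‖ < 1) : p = r := by
  by_contra hne
  have := hS.sep p hp r hr hne
  linarith

private theorem A1_tri (a b : ℂ) : ‖a - b‖ ≤ ‖a‖ + ‖b‖ := norm_sub_le a b

/-- a point of `X` near a good interior point `p` is one of its six neighbours -/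
theorem near_int (hS : SData L E0 g1 R0 X err) {p r : ℂ} (hp : GInt L g1 X err p) (hr : r ∈ X) (hne : r ≠ p)
    (h : ‖r - p‖ ≤ 11 / 10) {F : ℂ} (hF : ‖F‖ = 1) (hn : ∀ j : ℕ, ∃ q ∈ X, ‖q - p - F * w6 ^ j‖ ≤ err p) :
    ∃ j : ℕ, j < 6 ∧ ‖r - p - F * w6 ^ j‖ ≤ err p := by
  obtain ⟨hpX, hpe, -, -⟩ := hp
  have h1 := hS.sep r hr p hpX hne
  obtain ⟨j, hj, hj2⟩ := near_dir (v := r - p) hF (by linarith) h
  obtain ⟨q, hq, hqe⟩ := hn j
  have hg := hS.g1le
  have h3 : ‖r - q‖ < 1 := by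
    have e : r - q = (r - p - F * w6 ^ j) - (q - p - F * w6 ^ j) := by ring
    have h4 := A1_tri (r - p - F * w6 ^ j) (q - p - F * w6 ^ j)
    rw [← e] at h4
    linarith
  have h5 := A1_eq hS hr hq h3
  refine ⟨j, hj, ?_⟩
  rw [h5]
  exact hqe

/-- the opposite neighbour exists ... -/
theorem opposite (hS : SData L E0 g1 R0 X err) {p r : ℂ} (hp : GInt L g1 X err p) (hr : r ∈ X) (hne : r ≠ p)
    (h : ‖r - p‖ ≤ 11 / 10) : ∃ r' ∈ X, ‖r' - 2 * p + r‖ ≤ 2 * err p := by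
  obtain ⟨F, hF, hn⟩ := hp.2.2.2.2
  obtain ⟨j, hj, hj2⟩ := near_int hS hp hr hne h hF hn
  obtain ⟨r', hr', hr2⟩ := hn (j + 3)
  refine ⟨r', hr', ?_⟩
  have e : r' - 2 * p + r = (r' - p - F * w6 ^ (j + 3)) + (r - p - F * w6 ^ j) := by
    rw [pow_add, w6_cube]
    ring
  rw [e]
  have := norm_add_le (r' - p - F * w6 ^ (j + 3)) (r - p - F * w6 ^ j)
  linarith

/-- if one neighbour is `p + v + O(e)`, then there are neighbours `p + v w^j + O(e + 2 err p)` for all `j` -/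
theorem rotate (hS : SData L E0 g1 R0 X err) {p r v : ℂ} {e : ℝ} (hp : GInt L g1 X err p) (hr : r ∈ X)
    (hv : ‖v‖ = 1) (he : e ≤ 1 / 15) (h : ‖r - p - v‖ ≤ e) (j : ℕ) :
    ∃ r' ∈ X, ‖r' - p - v * w6 ^ j‖ ≤ e + 2 * err p := by
  obtain ⟨F, hF, hn⟩ := hp.2.2.2.2
  have h1 : ‖r - p‖ ≤ 11 / 10 := by
    have e1 : r - p = (r - p - v) + v := by ring
    have := norm_add_le (r - p - v) v
    rw [← e1, hv] at this
    linarith
  have hne : r ≠ p := by
    rintro rfl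
    rw [sub_self, zero_sub, norm_neg, hv] at h
    linarith
  obtain ⟨i, hi, hi2⟩ := near_int hS hp hr hne h1 hF hn
  obtain ⟨r', hr', hr2⟩ := hn (i + j)
  refine ⟨r', hr', ?_⟩
  have e1 : r' - p - v * w6 ^ j =
      (r' - p - F * w6 ^ (i + j)) + ((r - p - v) - (r - p - F * w6 ^ i)) * w6 ^ j := by
    rw [pow_add]
    ring
  have h2 : ‖((r - p - v) - (r - p - F * w6 ^ i)) * w6 ^ j‖ ≤ e + err p := by
    rw [norm_mul, norm_pow, w6_norm, one_pow, mul_one]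
    have := A1_tri (r - p - v) (r - p - F * w6 ^ i)
    linarith
  rw [e1]
  have := norm_add_le (r' - p - F * w6 ^ (i + j))
    (((r - p - v) - (r - p - F * w6 ^ i)) * w6 ^ j)
  linarith

private theorem A1_dirs (j : ℕ) (hj : j < 6) (i : Fin 3) : w6 ^ j = dirv i ∨ w6 ^ j = -dirv i ∨
    w6 ^ j = -dirv (i + 1) ∨ w6 ^ j = dirv (i + 2) ∨ w6 ^ j = dirv (i + 1) ∨
      w6 ^ j = -dirv (i + 2) := by
  have e0 : w6 ^ 0 = dirv 0 := by rw [pow_zero, dirv_zero]
  have e2 : w6 ^ 2 = dirv 2 := dirv_two.symm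
  have e4 : w6 ^ 4 = dirv 1 := dirv_one.symm
  have e1 : w6 ^ 1 = -dirv 1 := by
    rw [dirv_one]
    have : w6 ^ 4 = w6 ^ 3 * w6 ^ 1 := by ring
    rw [this, w6_cube]
    ring
  have e3 : w6 ^ 3 = -dirv 0 := by rw [w6_cube, dirv_zero]
  have e5 : w6 ^ 5 = -dirv 2 := by
    rw [dirv_two]
    have : w6 ^ 5 = w6 ^ 3 * w6 ^ 2 := by ring
    rw [this, w6_cube]
    ring
  have hh : w6 ^ j = dirv 0 ∨ w6 ^ j = -dirv 0 ∨ w6 ^ j = dirv 1 ∨ w6 ^ j = -dirv 1 ∨
      w6 ^ j = dirv 2 ∨ w6 ^ j = -dirv 2 := by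
    interval_cases j
    · exact Or.inl e0
    · exact Or.inr (Or.inr (Or.inr (Or.inl e1)))
    · exact Or.inr (Or.inr (Or.inr (Or.inr (Or.inl e2))))
    · exact Or.inr (Or.inl e3)
    · exact Or.inr (Or.inr (Or.inl e4))
    · exact Or.inr (Or.inr (Or.inr (Or.inr (Or.inr e5))))
  fin_cases i
  · simp only [Fin.zero_eta, zero_add]
    tauto
  · simp only [Fin.mk_one, fin3_11, fin3_12]
    tauto
  · simp only [Fin.reduceFinMk, fin3_21, fin3_22]
    tauto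

/-- a point of `X` near a good wall point `p` is one of its four neighbours (it has `H i ≥ 0`) -/
theorem near_wall (hS : SData L E0 g1 R0 X err) {p r : ℂ} {i : Fin 3} (hp : GWall L g1 X err i p) (hr : r ∈ X)
    (hne : r ≠ p) (h : ‖r - p‖ ≤ 11 / 10) :
    ‖r - p - dirv i‖ ≤ err p ∨ ‖r - p + dirv i‖ ≤ err p ∨ ‖r - p + dirv (i + 1)‖ ≤ err p ∨
      ‖r - p - dirv (i + 2)‖ ≤ err p := by
  obtain ⟨hpX, hpe, -, hH, ⟨q1, hq1, n1⟩, ⟨q2, hq2, n2⟩, ⟨q3, hq3, n3⟩, ⟨q4, hq4, n4⟩⟩ := hp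
  have h1 := hS.sep r hr p hpX hne
  have hg := hS.g1le
  obtain ⟨j, hj, hj2⟩ := near_dir (v := r - p) (F := 1) (by simp) (by linarith) h
  rw [one_mul] at hj2
  have hr0 := hS.inT r hr i
  -- a neighbour in the same direction is `r`
  have same : ∀ q ∈ X, ∀ d : ℂ, ‖q - p - d‖ ≤ err p → ‖r - p - d‖ ≤ 6 / 10 → ‖r - p - d‖ ≤ err p := by
    intro q hq d hd hrd
    have e : r - q = (r - p - d) - (q - p - d) := by ring
    have h4 := A1_tri (r - p - d) (q - p - d)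
    rw [← e] at h4
    have h5 := A1_eq hS hr hq (by linarith)
    rw [h5]
    exact hd
  -- directions which decrease `H i`
  have low : ∀ d : ℂ, H L i d - H L i 0 = -1 → ‖r - p - d‖ ≤ 6 / 10 → False := by
    intro d hd hrd
    have h4 := H_lip L i r (p + d)
    have h5 := H_add L i p d
    rw [hd] at h5
    have e : r - (p + d) = r - p - d := by ring
    rw [e, h5] at h4
    have h6 := (abs_le.1 h4).2
    linarith
  rcases A1_dirs j hj i with e | e | e | e | e | e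
  · rw [e] at hj2
    exact Or.inl (same q1 hq1 _ n1 hj2)
  · rw [e] at hj2
    right; left
    have := same q2 hq2 (-dirv i) (by rwa [sub_neg_eq_add]) hj2
    rwa [sub_neg_eq_add] at this
  · rw [e] at hj2
    right; right; left
    have := same q3 hq3 (-dirv (i + 1)) (by rwa [sub_neg_eq_add]) hj2
    rwa [sub_neg_eq_add] at this
  · rw [e] at hj2
    right; right; right
    exact same q4 hq4 _ n4 hj2
  · exfalso
    rw [e] at hj2
    refine low _ ?_ hj2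
    have := H_dir_add2 L (i + 1)
    have e3 : i + 1 + 2 = i := by
      fin_cases i <;> rfl
    rwa [e3] at this
  · exfalso
    rw [e] at hj2
    refine low _ ?_ hj2
    have h4 := H_dir_add1 L (i + 2)
    have e3 : i + 2 + 1 = i := by
      fin_cases i <;> rfl
    rw [e3] at h4
    have h5 := H_smul L i (-1) (dirv (i + 2))
    have e4 : ((-1 : ℝ) : ℂ) * dirv (i + 2) = -dirv (i + 2) := by
      push_cast
      ring
    rw [e4, h4] at h5
    linarith

theorem int_or_wall (hS : SData L E0 g1 R0 X err) {p : ℂ} (hp : p ∈ X) (hb : p ∉ Bad L g1 X err) :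
    GInt L g1 X err p ∨ ∃ i, GWall L g1 X err i p := by
  have h1 : err p ≤ g1 ∧ ∀ i, H L i p ≤ L - 5 := by
    constructor
    · by_contra hc
      push Not at hc
      exact hb (Finset.mem_filter.2 ⟨hp, Or.inl hc⟩)
    · intro i
      by_contra hc
      push Not at hc
      exact hb (Finset.mem_filter.2 ⟨hp, Or.inr ⟨i, hc⟩⟩)
  rcases hS.good p hp h1.1 h1.2 with h2 | ⟨i, h2⟩
  · exact Or.inl ⟨hp, h1.1, h1.2, h2⟩
  · exact Or.inr ⟨i, hp, h1.1, h1.2, h2⟩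

/-- two points of `X` at distance less than 1 are equal -/
theorem eq_of_close (hS : SData L E0 g1 R0 X err) {p r : ℂ} (hp : p ∈ X) (hr : r ∈ X) (h : ‖p - r‖ < 1) :
    p = r :=
  A1_eq hS hp hr h

end H24
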