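import Pool.Agent.Lib_MP_27c196_co.S.Defs

/-! H24 S, piece A2: packing bounds -/

set_option linter.unusedVariables false

noncomputable section

namespace H24

open Finset

variable {L E0 g1 R0 : ℝ} {X : Finset ℂ} {err : ℂ → ℝ}

open Classical in
/-- half-open cells of side `1/√2` contain at most one point: at most `(2 √2 R + 2)^2 ≤ 24 R^2` points -/
theorem pack (hsep : ∀ p ∈ X, ∀ p' ∈ X, p ≠ p' → 1 ≤ ‖p - p'‖) (c : ℂ) {R : ℝ} (hR : 1 ≤ R) :
    ((X.filter (fun z => ‖z - c‖ ≤ R)).card : ℝ) ≤ 24 * R ^ 2 := by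
  have hs : (√2 : ℝ) * √2 = 2 := Real.mul_self_sqrt (by norm_num)
  have hs0 : 0 < (√2 : ℝ) := Real.sqrt_pos.2 (by norm_num)
  have hs1 : (√2 : ℝ) ≤ 1.42 := by
    rw [Real.sqrt_le_left (by norm_num)]
    norm_num
  let f : ℂ → ℤ × ℤ := fun z => (⌊√2 * (z - c).re⌋, ⌊√2 * (z - c).im⌋)
  let a : ℤ := ⌊-(√2 * R)⌋
  let b : ℤ := ⌊√2 * R⌋
  have hab : a ≤ b := Int.floor_le_floor (by nlinarith)
  have hcell : ∀ x : ℝ, |x| ≤ R → ⌊√2 * x⌋ ∈ Finset.Icc a b := by
    intro x hx
    rw [Finset.mem_Icc]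
    obtain ⟨h1, h2⟩ := abs_le.1 hx
    exact ⟨Int.floor_le_floor (by nlinarith), Int.floor_le_floor (by nlinarith)⟩
  have hclose : ∀ x y : ℝ, ⌊√2 * x⌋ = ⌊√2 * y⌋ → (x - y) ^ 2 < 1 / 2 := by
    intro x y hxy
    have h1 := Int.abs_sub_lt_one_of_floor_eq_floor hxy
    rw [← mul_sub, abs_mul, abs_of_pos hs0] at h1
    have h2 : √2 * |x - y| * (√2 * |x - y|) < 1 := by
      have : 0 ≤ √2 * |x - y| := by positivity
      nlinarith
    have h3 : √2 * |x - y| * (√2 * |x - y|) = 2 * (x - y) ^ 2 := by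
      rw [show √2 * |x - y| * (√2 * |x - y|) = (√2 * √2) * (|x - y| * |x - y|) by ring, hs,
        abs_mul_abs_self]
      ring
    rw [h3] at h2
    linarith
  have hcard : (X.filter (fun z => ‖z - c‖ ≤ R)).card ≤
      (Finset.Icc a b ×ˢ Finset.Icc a b).card := by
    refine Finset.card_le_card_of_injOn f ?_ ?_
    · intro z hz
      have hz' := (Finset.mem_filter.1 hz).2
      refine Finset.mem_product.2 ⟨hcell _ ?_, hcell _ ?_⟩
      · exact (Complex.abs_re_le_norm _).trans hz'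
      · exact (Complex.abs_im_le_norm _).trans hz'
    · intro z hz z' hz' h
      by_contra hne
      have h1 := hsep z (Finset.mem_filter.1 hz).1 z' (Finset.mem_filter.1 hz').1 hne
      have h2 := hclose _ _ (Prod.ext_iff.1 h).1
      have h3 := hclose _ _ (Prod.ext_iff.1 h).2
      have h4 : ‖z - z'‖ ^ 2 = (z - z').re ^ 2 + (z - z').im ^ 2 := by
        rw [← Complex.normSq_eq_norm_sq, Complex.normSq_apply]
        ring
      simp only [Complex.sub_re, Complex.sub_im] at h2 h3 h4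
      have h5 : (z.re - c.re - (z'.re - c.re)) = z.re - z'.re := by ring
      have h6 : (z.im - c.im - (z'.im - c.im)) = z.im - z'.im := by ring
      rw [h5] at h2
      rw [h6] at h3
      nlinarith
  have hIcc : ((Finset.Icc a b).card : ℝ) ≤ 2 * (√2 * R) + 2 := by
    rw [Int.card_Icc]
    have h0 : (((b + 1 - a).toNat : ℤ) : ℝ) = ((b + 1 - a : ℤ) : ℝ) := by
      rw [Int.toNat_of_nonneg (by omega)]
    have h1 : ((b + 1 - a).toNat : ℝ) = (b : ℝ) + 1 - a := by
      have : (((b + 1 - a).toNat : ℤ) : ℝ) = ((b + 1 - a).toNat : ℝ) := by norm_cast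
      rw [← this, h0]
      push_cast
      ring
    rw [h1]
    have h2 : (b : ℝ) ≤ √2 * R := Int.floor_le _
    have h3 : -(√2 * R) < (a : ℝ) + 1 := Int.lt_floor_add_one _
    linarith
  have h1 : ((X.filter (fun z => ‖z - c‖ ≤ R)).card : ℝ) ≤
      ((Finset.Icc a b).card : ℝ) * ((Finset.Icc a b).card : ℝ) := by
    rw [Finset.card_product] at hcard
    exact_mod_cast hcard
  have h2 : ((Finset.Icc a b).card : ℝ) * ((Finset.Icc a b).card : ℝ) ≤
      (2 * (√2 * R) + 2) * (2 * (√2 * R) + 2) :=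
    mul_le_mul hIcc hIcc (by positivity) (by positivity)
  refine (h1.trans h2).trans ?_
  have h3 : 2 * (√2 * R) + 2 ≤ 4.84 * R := by nlinarith
  have h4 : (2 * (√2 * R) + 2) * (2 * (√2 * R) + 2) ≤ (4.84 * R) * (4.84 * R) :=
    mul_le_mul h3 h3 (by positivity) (by positivity)
  nlinarith

/-- a corner of the triangle -/
private def A2_corner (L : ℝ) (i : Fin 3) : ℂ :=
  if i = 0 then ⟨L / 2, √3 / 2 * L⟩ else if i = 1 then ⟨L, 0⟩ else 0

private theorem A2_corner_ball (L a : ℝ) (z : ℂ) (hz : ∀ i, 0 ≤ H L i z) (i : Fin 3)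
    (h : L - a < H L i z) : ‖z - A2_corner L i‖ ≤ a := by
  have hsum := H_sum L z
  have h0 := hz 0
  have h1 := hz 1
  have h2 := hz 2
  have h3 := sqrt3_sq
  have hp := sqrt3_pos
  have hdiv : √3 / 2 * L / √3 = L / 2 := by field_simp
  have hdiv2 : 2 * (√3 / 2 * L) / √3 = L := by field_simp
  have key : ∀ S x y : ℝ, 0 ≤ x → 0 ≤ y → x + y = S → S < a →
      (S ^ 2 + x ^ 2 + y ^ 2) / 2 ≤ a ^ 2 := by
    intro S x y hx hy hS hSa
    nlinarith [mul_nonneg hx hy]
  have ha : 0 < a := by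
    have : H L i z ≤ L := by
      fin_cases i <;> simp only [Fin.zero_eta, Fin.mk_one, Fin.reduceFinMk] <;> linarith
    linarith
  apply le_of_sq_le_sq _ ha.le
  rw [normSq_eq_q L, q]
  fin_cases i
  · have e0 : H L 0 (A2_corner L 0) = L := by
      simp only [H, A2_corner, if_true]
      exact hdiv2
    have e1 : H L 1 (A2_corner L 0) = 0 := by
      simp [H, A2_corner, hdiv]
    have e2 : H L 2 (A2_corner L 0) = 0 := by
      simp [H, A2_corner, hdiv]
      ring
    simp only [Fin.zero_eta] at h ⊢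
    rw [e0, e1, e2]
    have := key (L - H L 0 z) (H L 1 z) (H L 2 z) h1 h2 (by linarith) (by linarith)
    nlinarith
  · have e0 : H L 0 (A2_corner L 1) = 0 := by simp [H, A2_corner]
    have e1 : H L 1 (A2_corner L 1) = L := by simp [H, A2_corner]
    have e2 : H L 2 (A2_corner L 1) = 0 := by simp [H, A2_corner]
    simp only [Fin.mk_one] at h ⊢
    rw [e0, e1, e2]
    have := key (L - H L 1 z) (H L 0 z) (H L 2 z) h0 h2 (by linarith) (by linarith)
    nlinarith
  · have e0 : H L 0 (A2_corner L 2) = 0 := by simp [H, A2_corner]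
    have e1 : H L 1 (A2_corner L 2) = 0 := by simp [H, A2_corner]
    have e2 : H L 2 (A2_corner L 2) = L := by simp [H, A2_corner]
    simp only [Fin.reduceFinMk] at h ⊢
    rw [e0, e1, e2]
    have := key (L - H L 2 z) (H L 0 z) (H L 1 z) h0 h1 (by linarith) (by linarith)
    nlinarith

open Classical in
/-- the three corner zones `H i > L - a`: each is contained in a ball of radius `a` (around the corner) -/
theorem pack_corners (hS : SData L E0 g1 R0 X err) {a : ℝ} (ha : 1 ≤ a) :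
    ((X.filter (fun z => ∃ i, L - a < H L i z)).card : ℝ) ≤ 72 * a ^ 2 := by
  have hsub : X.filter (fun z => ∃ i, L - a < H L i z) ⊆
      Finset.univ.biUnion fun i : Fin 3 => X.filter (fun z => ‖z - A2_corner L i‖ ≤ a) := by
    intro z hz
    obtain ⟨hzX, i, hi⟩ := Finset.mem_filter.1 hz
    exact Finset.mem_biUnion.2 ⟨i, Finset.mem_univ i, Finset.mem_filter.2
      ⟨hzX, A2_corner_ball L a z (hS.inT z hzX) i hi⟩⟩
  have h1 := (Finset.card_le_card hsub).trans Finset.card_biUnion_le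
  have h2 : ((X.filter (fun z => ∃ i, L - a < H L i z)).card : ℝ) ≤
      ∑ i : Fin 3, ((X.filter (fun z => ‖z - A2_corner L i‖ ≤ a)).card : ℝ) := by
    exact_mod_cast h1
  refine h2.trans ?_
  have h3 : ∑ i : Fin 3, ((X.filter (fun z => ‖z - A2_corner L i‖ ≤ a)).card : ℝ) ≤
      ∑ i : Fin 3, 24 * a ^ 2 :=
    Finset.sum_le_sum fun i _ => pack hS.sep (A2_corner L i) ha
  refine h3.trans (le_of_eq ?_)
  rw [Finset.sum_const, Finset.card_univ, Fintype.card_fin, nsmul_eq_mul]
  push_cast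
  ring

/-- Markov for `err > g1` and `pack_corners` with `a = 5` -/
theorem bad_card (hS : SData L E0 g1 R0 X err) : ((Bad L g1 X err).card : ℝ) ≤ E0 / g1 + 2000 := by
  classical
  have hsub : Bad L g1 X err ⊆ X.filter (fun p => g1 < err p) ∪
      X.filter (fun z => ∃ i, L - 5 < H L i z) := by
    intro p hp
    obtain ⟨hpX, h⟩ := Finset.mem_filter.1 hp
    rcases h with h | h
    · exact Finset.mem_union_left _ (Finset.mem_filter.2 ⟨hpX, h⟩)
    · exact Finset.mem_union_right _ (Finset.mem_filter.2 ⟨hpX, h⟩)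
  have h1 := (Finset.card_le_card hsub).trans (Finset.card_union_le _ _)
  have h2 : ((Bad L g1 X err).card : ℝ) ≤ ((X.filter (fun p => g1 < err p)).card : ℝ) +
      ((X.filter (fun z => ∃ i, L - 5 < H L i z)).card : ℝ) := by
    exact_mod_cast h1
  have h3 : ((X.filter (fun z => ∃ i, L - 5 < H L i z)).card : ℝ) ≤ 1800 := by
    have := pack_corners hS (a := 5) (by norm_num)
    norm_num at this ⊢
    exact_mod_cast this
  have h4 : ((X.filter (fun p => g1 < err p)).card : ℝ) ≤ E0 / g1 := by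
    rw [le_div_iff₀ hS.g1pos]
    have h5 : ((X.filter (fun p => g1 < err p)).card : ℝ) * g1 ≤
        ∑ p ∈ X.filter (fun p => g1 < err p), err p := by
      rw [← nsmul_eq_mul]
      exact Finset.card_nsmul_le_sum _ _ _ fun p hp => (Finset.mem_filter.1 hp).2.le
    refine h5.trans (le_trans ?_ hS.errsum)
    exact Finset.sum_le_sum_of_subset_of_nonneg (Finset.filter_subset _ _)
      fun p _ _ => hS.errpos p
  linarith

end H24
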