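import Pool.Agent.Lib_MP_27c196_co.R.P1

/-! H24, part S (structure), definitions.  See `Pool/Agent/Lib_MP_27c196_co/Blueprint.md`. -/

set_option linter.unusedSimpArgs false
set_option linter.unusedVariables false

noncomputable section

namespace H24

open Finset

/-- scaled heights of the triangle `0, L, L w` -/
def H (L : ℝ) (i : Fin 3) (z : ℂ) : ℝ :=
  if i = 0 then 2 * z.im / √3 else if i = 1 then z.re - z.im / √3 else L - z.re - z.im / √3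

/-- `exp (i pi/3)` -/
def w6 : ℂ := ⟨1 / 2, √3 / 2⟩

/-- the lattice directions: `dirv i` raises `H (i+1)` by 1 and lowers `H (i+2)` by 1 -/
def dirv (i : Fin 3) : ℂ := if i = 0 then 1 else if i = 1 then ⟨-1 / 2, -(√3 / 2)⟩ else ⟨-1 / 2, √3 / 2⟩

/-- `p` is an interior point with six neighbours, error `e` -/
def IsInt (L : ℝ) (X : Finset ℂ) (e : ℝ) (p : ℂ) : Prop :=
  (∀ i, 9 / 10 ≤ H L i p) ∧ ∃ F : ℂ, ‖F‖ = 1 ∧ ∀ j : ℕ, ∃ q ∈ X, ‖q - p - F * w6 ^ j‖ ≤ e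

/-- `p` is a point at the wall `i` with four neighbours, error `e` -/
def IsWall (L : ℝ) (X : Finset ℂ) (e : ℝ) (i : Fin 3) (p : ℂ) : Prop :=
  H L i p ≤ e ∧ (∃ q ∈ X, ‖q - p - dirv i‖ ≤ e) ∧ (∃ q ∈ X, ‖q - p + dirv i‖ ≤ e) ∧
    (∃ q ∈ X, ‖q - p + dirv (i + 1)‖ ≤ e) ∧ (∃ q ∈ X, ‖q - p - dirv (i + 2)‖ ≤ e)

/-- data of part S: `err` is a multiple of the excess -/
structure SData (L E0 g1 R0 : ℝ) (X : Finset ℂ) (err : ℂ → ℝ) : Prop where
  L20 : 20 ≤ L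
  g1pos : 0 < g1
  g1le : g1 ≤ 1 / 1000
  R0pos : 1 ≤ R0
  inT : ∀ p ∈ X, ∀ i, 0 ≤ H L i p
  sep : ∀ p ∈ X, ∀ p' ∈ X, p ≠ p' → 1 ≤ ‖p - p'‖
  errpos : ∀ p, 0 ≤ err p
  errsum : ∑ p ∈ X, err p ≤ E0
  good : ∀ p ∈ X, err p ≤ g1 → (∀ i, H L i p ≤ L - 5) → IsInt L X (err p) p ∨ ∃ i, IsWall L X (err p) i p
  dense : ∀ z, (∀ i, 0 ≤ H L i z) → ∃ p ∈ X, ‖z - p‖ ≤ R0

open Classical in
/-- the bad points -/
def Bad (L g1 : ℝ) (X : Finset ℂ) (err : ℂ → ℝ) : Finset ℂ :=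
  X.filter (fun p => g1 < err p ∨ ∃ i, L - 5 < H L i p)

/-- good interior point -/
def GInt (L g1 : ℝ) (X : Finset ℂ) (err : ℂ → ℝ) (p : ℂ) : Prop :=
  p ∈ X ∧ err p ≤ g1 ∧ (∀ i, H L i p ≤ L - 5) ∧ IsInt L X (err p) p

/-- good wall point -/
def GWall (L g1 : ℝ) (X : Finset ℂ) (err : ℂ → ℝ) (i : Fin 3) (p : ℂ) : Prop :=
  p ∈ X ∧ err p ≤ g1 ∧ (∀ i, H L i p ≤ L - 5) ∧ IsWall L X (err p) i p

/-! ### basic facts -/

lemma sqrt3_pos : 0 < √3 := Real.sqrt_pos.mpr (by norm_num)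

lemma sqrt3_sq : √3 * √3 = 3 := Real.mul_self_sqrt (by norm_num)

lemma sqrt3_gt : 1.73 < √3 := by
  rw [show (1.73 : ℝ) = √(1.73 ^ 2) from (Real.sqrt_sq (by norm_num)).symm]
  exact Real.sqrt_lt_sqrt (by norm_num) (by norm_num)

lemma sqrt3_lt : √3 < 1.733 := by
  rw [show (1.733 : ℝ) = √(1.733 ^ 2) from (Real.sqrt_sq (by norm_num)).symm]
  exact Real.sqrt_lt_sqrt (by norm_num) (by norm_num)

lemma H_sum (L : ℝ) (z : ℂ) : H L 0 z + H L 1 z + H L 2 z = L := by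
  simp [H]
  ring

/-- `H` is affine -/
lemma H_add (L : ℝ) (i : Fin 3) (z v : ℂ) : H L i (z + v) = H L i z + (H L i v - H L i 0) := by
  fin_cases i <;> simp [H] <;> ring

lemma H_sub (L : ℝ) (i : Fin 3) (z z' : ℂ) : H L i z - H L i z' = H L i (z - z') - H L i 0 := by
  fin_cases i <;> simp [H] <;> ring

lemma H_smul (L : ℝ) (i : Fin 3) (t : ℝ) (v : ℂ) :
    H L i (t * v) - H L i 0 = t * (H L i v - H L i 0) := by
  fin_cases i <;> simp [H] <;> ring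

/-- squared distance in terms of the heights -/
lemma normSq_eq_q (L : ℝ) (z z' : ℂ) : ‖z - z'‖ ^ 2 = q (fun i => H L i z - H L i z') := by
  rw [← Complex.normSq_eq_norm_sq, Complex.normSq_apply]
  have h3 := sqrt3_sq
  have h0 := sqrt3_pos
  simp [q, H, Complex.sub_re, Complex.sub_im]
  have e : ∀ x : ℝ, x / √3 = x * √3 / 3 := by
    intro x
    rw [div_eq_div_iff h0.ne' (by norm_num), mul_assoc, h3]
  simp only [e]
  linear_combination (-(z.im - z'.im) ^ 2 / 3) * h3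

lemma H_lip (L : ℝ) (i : Fin 3) (z z' : ℂ) : |H L i z - H L i z'| ≤ 1.2 * ‖z - z'‖ := by
  have h := comp_le i (fun i => H L i z - H L i z') (by
    have h1 := H_sum L z
    have h2 := H_sum L z'
    show H L 0 z - H L 0 z' + (H L 1 z - H L 1 z') + (H L 2 z - H L 2 z') = 0
    linarith)
  rwa [← normSq_eq_q, Real.sqrt_sq (norm_nonneg _)] at h

/-- if all the height differences are at most `e`, the distance is at most `1.3 e` -/
lemma norm_le_of_H (L : ℝ) (z z' : ℂ) (e : ℝ) (h : ∀ i, |H L i z - H L i z'| ≤ e) :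
    ‖z - z'‖ ≤ 1.3 * e := by
  have h0 := h 0
  have h1 := h 1
  have h2 := h 2
  have he : 0 ≤ e := le_trans (abs_nonneg _) h0
  apply le_of_sq_le_sq _ (by positivity)
  rw [normSq_eq_q L, q]
  have a0 := sq_le_sq' (abs_le.mp h0).1 (abs_le.mp h0).2
  have a1 := sq_le_sq' (abs_le.mp h1).1 (abs_le.mp h1).2
  have a2 := sq_le_sq' (abs_le.mp h2).1 (abs_le.mp h2).2
  nlinarith

lemma H_dir_self (L : ℝ) (i : Fin 3) : H L i (dirv i) - H L i 0 = 0 := by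
  have h3 := sqrt3_sq
  have h0 := sqrt3_pos
  fin_cases i <;> simp [H, dirv]
  all_goals field_simp
  all_goals nlinarith

lemma H_dir_add1 (L : ℝ) (i : Fin 3) : H L (i + 1) (dirv i) - H L (i + 1) 0 = 1 := by
  have h3 := sqrt3_sq
  have h0 := sqrt3_pos
  fin_cases i <;> simp [H, dirv, fin3_11, fin3_12, fin3_21, fin3_22]
  all_goals field_simp
  all_goals nlinarith

lemma H_dir_add2 (L : ℝ) (i : Fin 3) : H L (i + 2) (dirv i) - H L (i + 2) 0 = -1 := by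
  have h3 := sqrt3_sq
  have h0 := sqrt3_pos
  fin_cases i <;> simp [H, dirv, fin3_11, fin3_12, fin3_21, fin3_22]
  all_goals field_simp
  all_goals nlinarith

end H24
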