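import Pool.Agent.Lib_MP_27c196_co.S.A1

/-! H24 S, piece B1: rays -/

set_option linter.unusedVariables false

noncomputable section

namespace H24

open Finset

variable {L E0 g1 R0 : ℝ} {X : Finset ℂ} {err : ℂ → ℝ}

/-- `P 0, ..., P N` is a ray in direction `v` (all vertices but the last are good interior points) -/
structure Ray (L g1 : ℝ) (X : Finset ℂ) (err : ℂ → ℝ) (v : ℂ) (N : ℕ) (P : ℕ → ℂ) : Prop where
  pos : 1 ≤ N
  mem : ∀ i ≤ N, P i ∈ X
  int : ∀ i < N, GInt L g1 X err (P i)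
  bend : ∀ i, i + 1 < N → ‖P (i + 2) - 2 * P (i + 1) + P i‖ ≤ 2 * err (P (i + 1))
  step : ∀ i < N, ‖P (i + 1) - P i - v‖ ≤ 1 / 16
  total : ∑ i ∈ range N, err (P i) ≤ 1 / 1000

/-- the steps of a chain differ from the first one by the sum of the bends -/
private theorem B1_step (P : ℕ → ℂ) (e : ℂ → ℝ) (n : ℕ)
    (hb : ∀ i < n, ‖P (i + 2) - 2 * P (i + 1) + P i‖ ≤ 2 * e (P (i + 1))) :
    ‖P (n + 1) - P n - (P 1 - P 0)‖ ≤ 2 * ∑ i ∈ range n, e (P (i + 1)) := by
  induction n with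
  | zero => simp
  | succ n ih =>
    have h1 := ih (fun i hi => hb i (by omega))
    have h2 := hb n (by omega)
    have e1 : P (n + 1 + 1) - P (n + 1) - (P 1 - P 0) =
        (P (n + 2) - 2 * P (n + 1) + P n) + (P (n + 1) - P n - (P 1 - P 0)) := by ring
    rw [e1, sum_range_succ]
    have h3 := norm_add_le (P (n + 2) - 2 * P (n + 1) + P n) (P (n + 1) - P n - (P 1 - P 0))
    linarith

private theorem B1_dist {v : ℂ} {N : ℕ} {P : ℕ → ℂ} (hs : ∀ i < N, ‖P (i + 1) - P i - v‖ ≤ 1 / 16)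
    (i k : ℕ) (hk : i + k ≤ N) : ‖P (i + k) - P i - k * v‖ ≤ k / 16 := by
  induction k with
  | zero => simp
  | succ k ih =>
    have h1 := ih (by omega)
    have h2 := hs (i + k) (by omega)
    have e1 : P (i + (k + 1)) - P i - ((k + 1 : ℕ) : ℂ) * v =
        (P (i + k + 1) - P (i + k) - v) + (P (i + k) - P i - k * v) := by
      push_cast
      rw [← add_assoc]
      ring
    rw [e1]
    have h3 := norm_add_le (P (i + k + 1) - P (i + k) - v) (P (i + k) - P i - k * v)
    push_cast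
    linarith

private theorem B1_ne {v : ℂ} (hv : ‖v‖ = 1) {N : ℕ} {P : ℕ → ℂ}
    (hs : ∀ i < N, ‖P (i + 1) - P i - v‖ ≤ 1 / 16)
    {i j : ℕ} (hij : i < j) (hj : j ≤ N) : P i ≠ P j := by
  intro h
  obtain ⟨k, rfl⟩ := Nat.exists_eq_add_of_lt hij
  have h1 := B1_dist hs i (k + 1) (by omega)
  rw [show i + (k + 1) = i + k + 1 by ring, ← h, sub_self, zero_sub, norm_neg, norm_mul, hv, mul_one] at h1
  have h2 : ‖((k + 1 : ℕ) : ℂ)‖ = (k : ℝ) + 1 := by
    rw [Complex.norm_natCast]
    push_cast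
    ring
  rw [h2] at h1
  push_cast at h1
  have : (0 : ℝ) ≤ k := Nat.cast_nonneg k
  linarith

private theorem B1_card {v : ℂ} (hv : ‖v‖ = 1) {N : ℕ} {P : ℕ → ℂ} (hP : Ray L g1 X err v N P) :
    N + 1 ≤ X.card := by
  have h := Finset.card_le_card_of_injOn (s := range (N + 1)) (t := X) P
    (fun i hi => hP.mem i (by have := Finset.mem_range.1 (Finset.mem_coe.1 hi); omega))
    (fun i hi j hj hij => by
      have hi' := Finset.mem_range.1 (Finset.mem_coe.1 hi)
      have hj' := Finset.mem_range.1 (Finset.mem_coe.1 hj)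
      rcases lt_trichotomy i j with h1 | h1 | h1
      · exact absurd hij (B1_ne hv hP.step h1 (by omega))
      · exact h1
      · exact absurd hij.symm (B1_ne hv hP.step h1 (by omega)))
  rwa [Finset.card_range] at h

/-- one more vertex -/
private theorem B1_ext (hS : SData L E0 g1 R0 X err) {p p1 v : ℂ}
    (hv : ‖v‖ = 1) (h : ‖p1 - p - v‖ ≤ 1 / 20) {N : ℕ} {P : ℕ → ℂ} (hP : Ray L g1 X err v N P)
    (h0 : P 0 = p) (h1 : P 1 = p1) (hg : GInt L g1 X err (P N))
    (ht : ∑ i ∈ range (N + 1), err (P i) ≤ 1 / 1000) :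
    ∃ P' : ℕ → ℂ, Ray L g1 X err v (N + 1) P' ∧ P' 0 = p ∧ P' 1 = p1 := by
  obtain ⟨M, rfl⟩ : ∃ M, N = M + 1 := ⟨N - 1, by have := hP.pos; omega⟩
  have hst := hP.step M (by omega)
  have hne : P M ≠ P (M + 1) := B1_ne hv hP.step (Nat.lt_succ_self M) le_rfl
  have hd : ‖P M - P (M + 1)‖ ≤ 11 / 10 := by
    have e1 : P M - P (M + 1) = -((P (M + 1) - P M - v) + v) := by ring
    rw [e1, norm_neg]
    have := norm_add_le (P (M + 1) - P M - v) v
    rw [hv] at this
    linarith
  obtain ⟨r, hr, hrb⟩ := opposite hS hg (hP.mem M (by omega)) hne hd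
  let P' : ℕ → ℂ := fun n => if n ≤ M + 1 then P n else r
  have hle : ∀ n, n ≤ M + 1 → P' n = P n := fun n hn => if_pos hn
  have hlast : P' (M + 2) = r := if_neg (by omega)
  have hbend : ∀ i, i + 1 < M + 1 + 1 →
      ‖P' (i + 2) - 2 * P' (i + 1) + P' i‖ ≤ 2 * err (P' (i + 1)) := by
    intro i hi
    by_cases hi2 : i + 1 < M + 1
    · rw [hle (i + 2) (by omega), hle (i + 1) (by omega), hle i (by omega)]
      exact hP.bend i hi2
    · have : i = M := by omega
      subst this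
      rw [hlast, hle (i + 1) le_rfl, hle i (by omega)]
      exact hrb
  have hsum : ∀ n, n ≤ M + 1 → ∑ i ∈ range (n + 1), err (P' i) = ∑ i ∈ range (n + 1), err (P i) := by
    intro n hn
    apply Finset.sum_congr rfl
    intro i hi
    rw [hle i (by have := Finset.mem_range.1 hi; omega)]
  refine ⟨P', ⟨by omega, ?_, ?_, hbend, ?_, ?_⟩, ?_, ?_⟩
  · intro i hi
    by_cases hi2 : i ≤ M + 1
    · rw [hle i hi2]; exact hP.mem i hi2
    · have : i = M + 2 := by omega
      rw [this, hlast]; exact hr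
  · intro i hi
    rw [hle i (by omega)]
    by_cases hi2 : i < M + 1
    · exact hP.int i hi2
    · have : i = M + 1 := by omega
      rw [this]; exact hg
  · intro i hi
    by_cases hi2 : i < M + 1
    · rw [hle i (by omega), hle (i + 1) (by omega)]
      exact hP.step i hi2
    · have : i = M + 1 := by omega
      subst this
      have h5 := B1_step P' err (M + 1) (fun i hi => hbend i (by omega))
      have h6 : ∑ i ∈ range (M + 1), err (P' (i + 1)) ≤ 1 / 1000 := by
        have h7 := hsum (M + 1) le_rfl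
        rw [Finset.sum_range_succ' (fun i => err (P' i))] at h7
        have h8 := hS.errpos (P' 0)
        linarith
      have e0 : P' 0 = p := by rw [hle 0 (by omega), h0]
      have e1 : P' 1 = p1 := by rw [hle 1 (by omega), h1]
      rw [e0, e1] at h5
      have e2 : P' (M + 1 + 1) - P' (M + 1) - v =
          (P' (M + 1 + 1) - P' (M + 1) - (p1 - p)) + (p1 - p - v) := by ring
      rw [e2]
      have h9 := norm_add_le (P' (M + 1 + 1) - P' (M + 1) - (p1 - p)) (p1 - p - v)
      linarith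
  · rw [hsum (M + 1) le_rfl]; exact ht
  · rw [hle 0 (by omega), h0]
  · rw [hle 1 (by omega), h1]

private theorem B1_main (hS : SData L E0 g1 R0 X err) {p p1 v : ℂ}
    (hv : ‖v‖ = 1) (h : ‖p1 - p - v‖ ≤ 1 / 20) (m : ℕ) :
    ∀ (N : ℕ) (P : ℕ → ℂ), Ray L g1 X err v N P → P 0 = p → P 1 = p1 → X.card ≤ N + m →
    ∃ (N : ℕ) (P : ℕ → ℂ), Ray L g1 X err v N P ∧ P 0 = p ∧ P 1 = p1 ∧
      (P N ∈ Bad L g1 X err ∨ 1 / 1000 < ∑ i ∈ range (N + 1), err (P i) ∨
        (∃ i, GWall L g1 X err i (P N)) ∧ ∑ i ∈ range (N + 1), err (P i) ≤ 1 / 1000) := by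
  induction m with
  | zero =>
    intro N P hP h0 h1 hc
    have := B1_card hv hP
    omega
  | succ m ih =>
    intro N P hP h0 h1 hc
    by_cases hb : P N ∈ Bad L g1 X err
    · exact ⟨N, P, hP, h0, h1, Or.inl hb⟩
    by_cases ht : 1 / 1000 < ∑ i ∈ range (N + 1), err (P i)
    · exact ⟨N, P, hP, h0, h1, Or.inr (Or.inl ht)⟩
    push Not at ht
    rcases int_or_wall hS (hP.mem N le_rfl) hb with h2 | h2
    · obtain ⟨P', hP', h0', h1'⟩ := B1_ext hS hv h hP h0 h1 h2 ht
      exact ih (N + 1) P' hP' h0' h1' (by omega)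
    · exact ⟨N, P, hP, h0, h1, Or.inr (Or.inr ⟨h2, ht⟩)⟩

/-- Take `P 0 = p`, `P 1 = p1` and continue with `opposite` as long as the last vertex is a good interior point and the sum of
`err` is at most `1/1000`; `P (i+1) - P i = (P 1 - P 0) + sum of bends`, so it is within `1/20 + 2/1000 ≤ 1/16` of `v`; the ray ends
because `‖P n - P 0‖ ≥ n (1 - 1/16)` and `X` is finite. At the end use `int_or_wall`. -/
theorem exists_ray (hS : SData L E0 g1 R0 X err) {p p1 v : ℂ} (hp : GInt L g1 X err p) (he : err p ≤ 1 / 1000)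
    (hp1 : p1 ∈ X) (hv : ‖v‖ = 1) (h : ‖p1 - p - v‖ ≤ 1 / 20) :
    ∃ (N : ℕ) (P : ℕ → ℂ), Ray L g1 X err v N P ∧ P 0 = p ∧ P 1 = p1 ∧
      (P N ∈ Bad L g1 X err ∨ 1 / 1000 < ∑ i ∈ range (N + 1), err (P i) ∨
        (∃ i, GWall L g1 X err i (P N)) ∧ ∑ i ∈ range (N + 1), err (P i) ≤ 1 / 1000) := by
  let P : ℕ → ℂ := fun n => if n = 0 then p else p1
  have e0 : P 0 = p := if_pos rfl
  have e1 : P 1 = p1 := if_neg (by omega)
  have hR : Ray L g1 X err v 1 P := by
    refine ⟨le_rfl, ?_, ?_, ?_, ?_, ?_⟩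
    · intro i hi
      interval_cases i
      · rw [e0]; exact hp.1
      · rw [e1]; exact hp1
    · intro i hi
      have : i = 0 := by omega
      rw [this, e0]; exact hp
    · intro i hi
      omega
    · intro i hi
      have : i = 0 := by omega
      subst this
      rw [e0]
      show ‖P 1 - p - v‖ ≤ 1 / 16
      rw [e1]
      linarith
    · rw [Finset.sum_range_one, e0]; exact he
  exact B1_main hS hv h X.card 1 P hR e0 e1 (by omega)

/-- go back along the two rays -/
private theorem B1_back (hS : SData L E0 g1 R0 X err) {v : ℂ} {N N' : ℕ} {P P' : ℕ → ℂ}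
    (hP : Ray L g1 X err v N P) (hP' : Ray L g1 X err v N' P') (a : ℕ) :
    ∀ b : ℕ, a ≤ N → b ≤ N' → P a = P' b →
      (∃ c ≤ N', P 0 = P' c) ∨ ∃ c ≤ N, P c = P' 0 := by
  induction a with
  | zero => exact fun b _ hb h => Or.inl ⟨b, hb, h⟩
  | succ a ih =>
    intro b ha hb h
    rcases Nat.eq_zero_or_pos b with rfl | hb0
    · exact Or.inr ⟨a + 1, ha, h⟩
    obtain ⟨b', rfl⟩ : ∃ b', b = b' + 1 := ⟨b - 1, by omega⟩
    refine ih b' (by omega) (by omega) ?_
    have h1 := hP.step a (by omega)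
    have h2 := hP'.step b' (by omega)
    apply eq_of_close hS (hP.mem a (by omega)) (hP'.mem b' (by omega))
    have e : P a - P' b' = (P' (b' + 1) - P' b' - v) - (P (a + 1) - P a - v) := by
      rw [h]; ring
    rw [e]
    have h3 := norm_sub_le (P' (b' + 1) - P' b' - v) (P (a + 1) - P a - v)
    linarith

private theorem B1_contra {v d : ℂ} (hv : ‖v‖ = 1) {c : ℕ} (hc : 0 < c) (h : ‖d - c * v‖ ≤ c / 16)
    (htr : ‖d‖ / 2 ≤ |(d * (starRingEnd ℂ) v).im|) : False := by
  have hc1 : (1 : ℝ) ≤ c := by exact_mod_cast hc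
  have h1 : (d * (starRingEnd ℂ) v).im = ((d - c * v) * (starRingEnd ℂ) v).im := by
    have e : d * (starRingEnd ℂ) v = (d - c * v) * (starRingEnd ℂ) v + c * (v * (starRingEnd ℂ) v) := by
      ring
    rw [e, Complex.mul_conj, Complex.add_im, Complex.mul_im]
    simp
  have h2 : |(d * (starRingEnd ℂ) v).im| ≤ c / 16 := by
    rw [h1]
    refine (Complex.abs_im_le_norm _).trans ?_
    rw [norm_mul, RCLike.norm_conj, hv, mul_one]
    exact h
  have h3 : (c : ℝ) ≤ ‖d‖ + c / 16 := by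
    have e : (c : ℂ) * v = d - (d - c * v) := by ring
    have h4 : ‖(c : ℂ) * v‖ = c := by
      rw [norm_mul, hv, mul_one, Complex.norm_natCast]
    have h5 := norm_sub_le d (d - c * v)
    rw [← e, h4] at h5
    linarith
  linarith

/-- rays in the same direction from transversal starts are disjoint: if `P a = P' b`, go back: `P (a-1)`, `P' (b-1)` are both within `1/16`
of `P a - v`, so they are equal; hence one start is a vertex `P c` of the other ray, `P c - P 0 = c v + O(c/16)`, against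
transversality unless `c = 0`. -/
theorem ray_disjoint (hS : SData L E0 g1 R0 X err) {v : ℂ} (hv : ‖v‖ = 1) {N N' : ℕ} {P P' : ℕ → ℂ}
    (hP : Ray L g1 X err v N P) (hP' : Ray L g1 X err v N' P')
    (htr : ‖P' 0 - P 0‖ / 2 ≤ |((P' 0 - P 0) * (starRingEnd ℂ) v).im|) (hne : P 0 ≠ P' 0)
    {a b : ℕ} (ha : a ≤ N) (hb : b ≤ N') : P a ≠ P' b := by
  intro h
  rcases B1_back hS hP hP' a b ha hb h with ⟨c, hc, h1⟩ | ⟨c, hc, h1⟩
  · rcases Nat.eq_zero_or_pos c with rfl | hc0
    · exact hne h1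
    have h2 := B1_dist hP'.step 0 c (by omega)
    rw [zero_add, ← h1] at h2
    refine B1_contra (d := P 0 - P' 0) hv hc0 h2 ?_
    have e : P 0 - P' 0 = -(P' 0 - P 0) := by ring
    rw [e, norm_neg, neg_mul, Complex.neg_im, abs_neg]
    exact htr
  · rcases Nat.eq_zero_or_pos c with rfl | hc0
    · exact hne h1
    have h2 := B1_dist hP.step 0 c (by omega)
    rw [zero_add, h1] at h2
    exact B1_contra (d := P' 0 - P 0) hv hc0 h2 htr

end H24
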