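import Pool.Agent.Lib_MP_27c196_co.S.B1

/-! H24 S, piece B2: half of TRANS -/

set_option linter.unusedVariables false

noncomputable section

namespace H24

open Finset

variable {L E0 g1 R0 : ℝ} {X : Finset ℂ} {err : ℂ → ℝ}

/-- transversal set of good interior points with a neighbour in direction `v` -/
def Transv (v : ℂ) (A : Finset ℂ) : Prop :=
  ∀ p ∈ A, ∀ p' ∈ A, p ≠ p' → ‖p' - p‖ / 2 ≤ |((p' - p) * (starRingEnd ℂ) v).im|

/-- a ray from `p` in direction `v` which ends at a wall with total at most `1/1000` -/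
def GoodRay (L g1 : ℝ) (X : Finset ℂ) (err : ℂ → ℝ) (v p : ℂ) : Prop :=
  ∃ (N : ℕ) (P : ℕ → ℂ), Ray L g1 X err v N P ∧ P 0 = p ∧ (∃ i, GWall L g1 X err i (P N)) ∧
    ∑ i ∈ range (N + 1), err (P i) ≤ 1 / 1000

private theorem B2_drift {v : ℂ} {N : ℕ} {P : ℕ → ℂ} (hP : Ray L g1 X err v N P) (a : ℕ) :
    ∀ k : ℕ, a + k ≤ N → ‖P (a + k) - P a - (k : ℂ) * v‖ ≤ (k : ℝ) * (1 / 16) := by
  intro k
  induction k with
  | zero => intro _; simp
  | succ k ih =>
    intro hk
    have h1 := ih (by omega)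
    have h2 := hP.step (a + k) (by omega)
    have h3 : P (a + (k + 1)) - P a - ((k + 1 : ℕ) : ℂ) * v =
        (P (a + k) - P a - (k : ℂ) * v) + (P (a + k + 1) - P (a + k) - v) := by
      rw [← add_assoc]; push_cast; ring
    rw [h3]
    refine (norm_add_le _ _).trans ?_
    push_cast
    linarith

private theorem B2_inj {v : ℂ} (hv : ‖v‖ = 1) {N : ℕ} {P : ℕ → ℂ} (hP : Ray L g1 X err v N P)
    {a b : ℕ} (ha : a ≤ N) (hb : b ≤ N) (h : P a = P b) : a = b := by
  have key : ∀ {a b : ℕ}, a ≤ N → b ≤ N → P a = P b → a < b → False := by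
    intro a b ha hb h hab
    obtain ⟨k, rfl⟩ : ∃ k, b = a + k := ⟨b - a, by omega⟩
    have h1 := B2_drift hP a k hb
    rw [← h, sub_self, zero_sub, norm_neg, norm_mul, hv, mul_one, Complex.norm_natCast] at h1
    have hk : (0 : ℝ) < k := by exact_mod_cast (by omega : 0 < k)
    linarith
  rcases lt_trichotomy a b with h' | h' | h'
  · exact (key ha hb h h').elim
  · exact h'
  · exact (key hb ha h.symm h').elim

open Classical in
/-- at most `1000 E0` starts have `err > 1/1000`; for the others take the rays of `exists_ray`; they are disjoint (`ray_disjoint`), so at most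
`|Bad|` end in `Bad` and at most `1000 E0` have total `> 1/1000` (the sums of `err` over disjoint rays add up to at most `E0`). -/
theorem half_trans (hS : SData L E0 g1 R0 X err) {v : ℂ} (hv : ‖v‖ = 1) (A : Finset ℂ)
    (hA : ∀ p ∈ A, GInt L g1 X err p) (hn : ∀ p ∈ A, ∃ q ∈ X, ‖q - p - v‖ ≤ 1 / 20) (htr : Transv v A) :
    ((A.filter (fun p => ¬ GoodRay L g1 X err v p)).card : ℝ) ≤ (Bad L g1 X err).card + 2000 * E0 := by
  have hray : ∀ p : ℂ, ∃ (N : ℕ) (P : ℕ → ℂ), (p ∈ A ∧ err p ≤ 1 / 1000 ∧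
      ¬ GoodRay L g1 X err v p) → Ray L g1 X err v N P ∧ P 0 = p ∧
      (P N ∈ Bad L g1 X err ∨ 1 / 1000 < ∑ i ∈ range (N + 1), err (P i)) := by
    intro p
    by_cases hp : p ∈ A ∧ err p ≤ 1 / 1000 ∧ ¬ GoodRay L g1 X err v p
    · obtain ⟨hpA, he, hng⟩ := hp
      obtain ⟨q, hq, hqv⟩ := hn p hpA
      obtain ⟨N, P, hR, h0, h1, hend⟩ := exists_ray hS (hA p hpA) he hq hv hqv
      refine ⟨N, P, fun _ => ⟨hR, h0, ?_⟩⟩
      rcases hend with h2 | h2 | h2
      · exact Or.inl h2
      · exact Or.inr h2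
      · exact (hng ⟨N, P, hR, h0, h2.1, h2.2⟩).elim
    · exact ⟨0, fun _ => 0, fun h => (hp h).elim⟩
  choose N P hNP using hray
  set B0 : Finset ℂ := A.filter (fun p => 1 / 1000 < err p) with hB0
  set B : Finset ℂ := A.filter (fun p => err p ≤ 1 / 1000 ∧ ¬ GoodRay L g1 X err v p) with hB
  set B1 : Finset ℂ := B.filter (fun p => P p (N p) ∈ Bad L g1 X err) with hB1
  set B2 : Finset ℂ := B.filter (fun p => 1 / 1000 < ∑ i ∈ range (N p + 1), err (P p i)) with hB2
  have hBp : ∀ p ∈ B, p ∈ A ∧ Ray L g1 X err v (N p) (P p) ∧ P p 0 = p ∧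
      (P p (N p) ∈ Bad L g1 X err ∨ 1 / 1000 < ∑ i ∈ range (N p + 1), err (P p i)) := by
    intro p hp
    rw [hB, mem_filter] at hp
    exact ⟨hp.1, hNP p ⟨hp.1, hp.2.1, hp.2.2⟩⟩
  have hcov : A.filter (fun p => ¬ GoodRay L g1 X err v p) ⊆ B0 ∪ (B1 ∪ B2) := by
    intro p hp
    rw [mem_filter] at hp
    rw [mem_union, mem_union]
    by_cases he : 1 / 1000 < err p
    · left
      rw [hB0, mem_filter]
      exact ⟨hp.1, he⟩
    · right
      have hpB : p ∈ B := by
        rw [hB, mem_filter]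
        exact ⟨hp.1, not_lt.mp he, hp.2⟩
      rcases (hBp p hpB).2.2.2 with h | h
      · left
        rw [hB1, mem_filter]
        exact ⟨hpB, h⟩
      · right
        rw [hB2, mem_filter]
        exact ⟨hpB, h⟩
  have hdisj : ∀ p ∈ B, ∀ p' ∈ B, ∀ a ≤ N p, ∀ b ≤ N p', P p a = P p' b → p = p' := by
    intro p hp p' hp' a ha b hb hab
    by_contra hne
    obtain ⟨hpA, hR, h0, -⟩ := hBp p hp
    obtain ⟨hpA', hR', h0', -⟩ := hBp p' hp'
    have htr' : ‖P p' 0 - P p 0‖ / 2 ≤ |((P p' 0 - P p 0) * (starRingEnd ℂ) v).im| := by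
      rw [h0, h0']
      exact htr p hpA p' hpA' hne
    exact ray_disjoint hS hv hR hR' htr' (by rw [h0, h0']; exact hne) ha hb hab
  -- first part
  have c0 : (B0.card : ℝ) ≤ 1000 * E0 := by
    have h1 : ∑ p ∈ B0, (1 / 1000 : ℝ) ≤ ∑ p ∈ B0, err p := by
      refine Finset.sum_le_sum fun p hp => ?_
      rw [hB0, mem_filter] at hp
      exact hp.2.le
    have h2 : ∑ p ∈ B0, err p ≤ ∑ p ∈ X, err p := by
      refine Finset.sum_le_sum_of_subset_of_nonneg (fun p hp => ?_) fun p _ _ => hS.errpos p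
      rw [hB0, mem_filter] at hp
      exact (hA p hp.1).1
    rw [Finset.sum_const, nsmul_eq_mul] at h1
    have h3 := hS.errsum
    linarith
  -- rays ending in `Bad`
  have c1 : (B1.card : ℝ) ≤ (Bad L g1 X err).card := by
    have h1 : B1.card ≤ (Bad L g1 X err).card := by
      refine Finset.card_le_card_of_injOn (fun p => P p (N p)) (fun p hp => ?_) ?_
      · have hp' : p ∈ B1 := hp
        rw [hB1, mem_filter] at hp'
        exact hp'.2
      · intro p hp p' hp' hpp
        have hp1 : p ∈ B1 := hp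
        have hp1' : p' ∈ B1 := hp'
        rw [hB1, mem_filter] at hp1 hp1'
        exact hdisj p hp1.1 p' hp1'.1 (N p) le_rfl (N p') le_rfl hpp
    exact_mod_cast h1
  -- rays with large total
  have c2 : (B2.card : ℝ) ≤ 1000 * E0 := by
    have h1 : ∑ p ∈ B2, (1 / 1000 : ℝ) ≤ ∑ p ∈ B2, ∑ i ∈ range (N p + 1), err (P p i) := by
      refine Finset.sum_le_sum fun p hp => ?_
      rw [hB2, mem_filter] at hp
      exact hp.2.le
    have h2 : ∑ p ∈ B2, ∑ i ∈ range (N p + 1), err (P p i) =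
        ∑ x ∈ B2.sigma (fun p => range (N p + 1)), err (P x.1 x.2) := by
      rw [Finset.sum_sigma]
    have hinj : ∀ x ∈ B2.sigma (fun p => range (N p + 1)), ∀ y ∈ B2.sigma (fun p => range (N p + 1)),
        P x.1 x.2 = P y.1 y.2 → x = y := by
      rintro ⟨p, a⟩ hx ⟨p', b⟩ hy hxy
      rw [mem_sigma, mem_range] at hx hy
      have hpB : p ∈ B := (mem_filter.mp hx.1).1
      have hpB' : p' ∈ B := (mem_filter.mp hy.1).1
      have ha : a ≤ N p := Nat.lt_succ_iff.mp hx.2
      have hb : b ≤ N p' := Nat.lt_succ_iff.mp hy.2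
      have hpp : p = p' := hdisj p hpB p' hpB' a ha b hb hxy
      subst hpp
      have hab : a = b := B2_inj hv (hBp p hpB).2.1 ha hb hxy
      subst hab
      rfl
    have h3 : ∑ x ∈ B2.sigma (fun p => range (N p + 1)), err (P x.1 x.2) =
        ∑ z ∈ (B2.sigma (fun p => range (N p + 1))).image (fun x => P x.1 x.2), err z := by
      rw [Finset.sum_image]
      intro x hx y hy hxy
      exact hinj x hx y hy hxy
    have h4 : ∑ z ∈ (B2.sigma (fun p => range (N p + 1))).image (fun x => P x.1 x.2), err z ≤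
        ∑ z ∈ X, err z := by
      refine Finset.sum_le_sum_of_subset_of_nonneg (fun z hz => ?_) fun p _ _ => hS.errpos p
      rw [mem_image] at hz
      obtain ⟨⟨p, a⟩, hx, rfl⟩ := hz
      rw [mem_sigma, mem_range] at hx
      exact (hBp p (mem_filter.mp hx.1).1).2.1.mem a (Nat.lt_succ_iff.mp hx.2)
    rw [Finset.sum_const, nsmul_eq_mul] at h1
    have h5 := hS.errsum
    rw [h2, h3] at h1
    linarith
  have c3 : (A.filter (fun p => ¬ GoodRay L g1 X err v p)).card ≤ B0.card + (B1.card + B2.card) :=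
    (Finset.card_le_card hcov).trans ((Finset.card_union_le _ _).trans
      (Nat.add_le_add_left (Finset.card_union_le _ _) _))
  have c4 : ((A.filter (fun p => ¬ GoodRay L g1 X err v p)).card : ℝ) ≤
      B0.card + (B1.card + B2.card) := by exact_mod_cast c3
  linarith

end H24
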