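import Pool.Agent.Lib_MP_27c196_co.S.B2

/-! H24 S, piece B3: lines -/

set_option linter.unusedVariables false

noncomputable section

namespace H24

open Finset

variable {L E0 g1 R0 : ℝ} {X : Finset ℂ} {err : ℂ → ℝ}

/-- an aligned line of type `i` (steps close to `dirv i`, from the wall `i+1` to the wall `i+2`), total error at most `t` -/
structure CLine (L g1 : ℝ) (X : Finset ℂ) (err : ℂ → ℝ) (i : Fin 3) (t : ℝ) (N : ℕ) (Q : ℕ → ℂ) : Prop where
  start : GWall L g1 X err (i + 1) (Q 0)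
  fin : GWall L g1 X err (i + 2) (Q N)
  int : ∀ j, 0 < j → j < N → GInt L g1 X err (Q j)
  step : ∀ j < N, ‖Q (j + 1) - Q j - dirv i‖ ≤ 3 * t
  total : ∑ j ∈ range (N + 1), err (Q j) ≤ t

private theorem B3_f1 (i : Fin 3) : i + 2 + 1 = i := by fin_cases i <;> rfl

private theorem B3_f2 (i : Fin 3) : i + 1 + 2 = i := by fin_cases i <;> rfl

private theorem B3_norm_add {x y : Fin 3} (h : x ≠ y) : ‖dirv x + dirv y‖ = 1 := by
  have hs := dirv_sum
  have key : ∃ z : Fin 3, dirv x + dirv y = -dirv z := by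
    fin_cases x <;> fin_cases y
    · exact (h rfl).elim
    · exact ⟨2, by simp only [Fin.zero_eta, Fin.mk_one]; linear_combination hs⟩
    · exact ⟨1, by simp only [Fin.zero_eta, Fin.reduceFinMk]; linear_combination hs⟩
    · exact ⟨2, by simp only [Fin.zero_eta, Fin.mk_one]; linear_combination hs⟩
    · exact (h rfl).elim
    · exact ⟨0, by simp only [Fin.mk_one, Fin.reduceFinMk]; linear_combination hs⟩
    · exact ⟨1, by simp only [Fin.zero_eta, Fin.reduceFinMk]; linear_combination hs⟩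
    · exact ⟨0, by simp only [Fin.mk_one, Fin.reduceFinMk]; linear_combination hs⟩
    · exact (h rfl).elim
  obtain ⟨z, hz⟩ := key
  rw [hz, norm_neg, dirv_norm]

private theorem B3_add_ge (x y : Fin 3) : 1 ≤ ‖dirv x + dirv y‖ := by
  by_cases h : x = y
  · subst h
    have : dirv x + dirv x = 2 * dirv x := by ring
    rw [this, norm_mul, dirv_norm]
    norm_num
  · rw [B3_norm_add h]

private theorem B3_sub_ge {x y : Fin 3} (h : x ≠ y) : 1 ≤ ‖dirv x - dirv y‖ := by
  have e : 2 * dirv x = (dirv x - dirv y) + (dirv x + dirv y) := by ring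
  have h1 := norm_add_le (dirv x - dirv y) (dirv x + dirv y)
  rw [← e, norm_mul, dirv_norm, B3_norm_add h] at h1
  norm_num at h1
  linarith

/-- a chain of good interior points with small bends -/
private structure B3_Chain (L g1 : ℝ) (X : Finset ℂ) (err : ℂ → ℝ) (N : ℕ) (Q : ℕ → ℂ) : Prop where
  two : 2 ≤ N
  mem : ∀ j ≤ N, Q j ∈ X
  int : ∀ j, 0 < j → j < N → GInt L g1 X err (Q j)
  bend : ∀ j, j + 1 < N → ‖Q (j + 2) - 2 * Q (j + 1) + Q j‖ ≤ 2 * err (Q (j + 1))

private theorem B3_rev {N : ℕ} {Q : ℕ → ℂ} (h : B3_Chain L g1 X err N Q) :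
    B3_Chain L g1 X err N (fun j => Q (N - j)) := by
  refine ⟨h.two, fun j hj => h.mem _ (by omega), fun j h0 hj => h.int _ (by omega) (by omega), ?_⟩
  intro j hj
  show ‖Q (N - (j + 2)) - 2 * Q (N - (j + 1)) + Q (N - j)‖ ≤ 2 * err (Q (N - (j + 1)))
  obtain ⟨m, rfl⟩ : ∃ m, N = m + j + 2 := ⟨N - j - 2, by omega⟩
  have e1 : m + j + 2 - (j + 2) = m := by omega
  have e2 : m + j + 2 - (j + 1) = m + 1 := by omega
  have e3 : m + j + 2 - j = m + 2 := by omega
  rw [e1, e2, e3]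
  have h1 := h.bend m (by omega)
  have e : Q m - 2 * Q (m + 1) + Q (m + 2) = Q (m + 2) - 2 * Q (m + 1) + Q m := by ring
  rw [e]
  exact h1

private theorem B3_rev_sum (N : ℕ) (Q : ℕ → ℂ) (e : ℂ → ℝ) :
    ∑ j ∈ range (N + 1), e (Q (N - j)) = ∑ j ∈ range (N + 1), e (Q j) := by
  have h := Finset.sum_range_reflect (fun j => e (Q j)) (N + 1)
  simpa using h

/-- the steps of a chain differ from the first one by the sum of the bends -/
private theorem B3_step {N : ℕ} {Q : ℕ → ℂ} (h : B3_Chain L g1 X err N Q) (n : ℕ) (hn : n < N) :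
    ‖Q (n + 1) - Q n - (Q 1 - Q 0)‖ ≤ 2 * ∑ i ∈ range n, err (Q (i + 1)) := by
  induction n with
  | zero => simp
  | succ n ih =>
    have h1 := ih (by omega)
    have h2 := h.bend n hn
    have e1 : Q (n + 1 + 1) - Q (n + 1) - (Q 1 - Q 0) =
        (Q (n + 2) - 2 * Q (n + 1) + Q n) + (Q (n + 1) - Q n - (Q 1 - Q 0)) := by ring
    rw [e1, sum_range_succ]
    have h3 := norm_add_le (Q (n + 2) - 2 * Q (n + 1) + Q n) (Q (n + 1) - Q n - (Q 1 - Q 0))
    linarith

private theorem B3_core (hS : SData L E0 g1 R0 X err) {N : ℕ} {Q : ℕ → ℂ} {i : Fin 3}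
    (h : B3_Chain L g1 X err N Q)
    (h0 : GWall L g1 X err (i + 1) (Q 0)) (hN : GWall L g1 X err (i + 2) (Q N))
    (hd : ‖Q 1 - Q 0 - dirv i‖ ≤ err (Q 0)) :
    CLine L g1 X err i (∑ j ∈ range (N + 1), err (Q j)) N Q := by
  refine ⟨h0, hN, h.int, ?_, le_rfl⟩
  intro j hj
  have h1 := B3_step h j hj
  have e : Q (j + 1) - Q j - dirv i = (Q (j + 1) - Q j - (Q 1 - Q 0)) + (Q 1 - Q 0 - dirv i) := by
    ring
  rw [e]
  have h2 := norm_add_le (Q (j + 1) - Q j - (Q 1 - Q 0)) (Q 1 - Q 0 - dirv i)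
  have h3 : ∑ i ∈ range (j + 1), err (Q i) ≤ ∑ i ∈ range (N + 1), err (Q i) :=
    Finset.sum_le_sum_of_subset_of_nonneg
      (fun x hx => Finset.mem_range.2 (by have := Finset.mem_range.1 hx; omega))
      (fun x _ _ => hS.errpos _)
  rw [Finset.sum_range_succ' (fun i => err (Q i))] at h3
  have h4 : 0 ≤ ∑ i ∈ range (N + 1), err (Q i) := Finset.sum_nonneg (fun x _ => hS.errpos _)
  have h5 := hS.errpos (Q 0)
  linarith

/-- the first step at a wall -/
private theorem B3_dir (hS : SData L E0 g1 R0 X err) {q r : ℂ} {i : Fin 3} (hq : GWall L g1 X err i q)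
    (hr : GInt L g1 X err r) (h : ‖r - q‖ ≤ 11 / 10) :
    ‖r - q - dirv (i + 2)‖ ≤ err q ∨ ‖r - q + dirv (i + 1)‖ ≤ err q := by
  have hg := hS.g1le
  have he : err q ≤ 1 / 1000 := hq.2.1.trans hg
  have hH : H L i q ≤ err q := hq.2.2.2.1
  have hHr : 9 / 10 ≤ H L i r := hr.2.2.2.1 i
  have hne : r ≠ q := by
    rintro rfl
    linarith
  rcases near_wall hS hq hr.1 hne h with h1 | h1 | h1 | h1
  · exfalso
    have h2 := H_lip L i r (q + dirv i)
    have h3 := H_add L i q (dirv i)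
    rw [H_dir_self] at h3
    have e : r - (q + dirv i) = r - q - dirv i := by ring
    rw [e, h3] at h2
    have h4 := (abs_le.1 h2).2
    linarith
  · exfalso
    have h2 := H_lip L i r (q + ((-1 : ℝ) : ℂ) * dirv i)
    have h3 := H_add L i q (((-1 : ℝ) : ℂ) * dirv i)
    rw [H_smul, H_dir_self] at h3
    have e : r - (q + ((-1 : ℝ) : ℂ) * dirv i) = r - q + dirv i := by
      push_cast
      ring
    rw [e, h3] at h2
    have h4 := (abs_le.1 h2).2
    linarith
  · exact Or.inr h1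
  · exact Or.inl h1

/-- Join the two rays at `p` (`P⁻ 1` and `P⁺ 1` are opposite neighbours of `p`: both `opposite` and the closeness to `p ± v`), vertices
`q_0, ..., q_N`, `q_0` and `q_N` good wall points, `q_1, ..., q_(N-1)` good interior points, all the bends at interior vertices `≤ 2 err`, total `≤ 2/1000`.
`q_0` is `GWall a`, `q_1` is one of its four neighbours (`near_wall`) and has `H a ≥ 0.9`, so `q_1 - q_0` is within `err q_0` of `dirv (a+2)` or of
`- dirv (a+1)`; all the steps are within `2 * total` of it. In the first case the type is `i = a+2`; the last point has `H (i+1) ≥ 0.8` and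
`H i ≥ 0.8`, so it is `GWall (i+2)`. In the second case reverse the line, type `i = a+1`. -/
theorem line_of_rays (hS : SData L E0 g1 R0 X err) {v p : ℂ} (hv : ‖v‖ = 1)
    (h1 : GoodRay L g1 X err v p) (h2 : GoodRay L g1 X err (-v) p) :
    ∃ (i : Fin 3) (N : ℕ) (Q : ℕ → ℂ) (a : ℕ), CLine L g1 X err i (∑ j ∈ range (N + 1), err (Q j)) N Q ∧
      ∑ j ∈ range (N + 1), err (Q j) ≤ 1 / 500 ∧ 0 < a ∧ a < N ∧ Q a = p ∧
      (‖v - dirv i‖ ≤ 1 / 10 ∨ ‖v + dirv i‖ ≤ 1 / 10) := by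
  obtain ⟨N1, P1, hP1, h10, ⟨b0, hw1⟩, ht1⟩ := h1
  obtain ⟨N2, P2, hP2, h20, ⟨a0, hw2⟩, ht2⟩ := h2
  have hN1 := hP1.pos
  have hN2 := hP2.pos
  have hg := hS.g1le
  let Q : ℕ → ℂ := fun j => if j ≤ N2 then P2 (N2 - j) else P1 (j - N2)
  have hQ1 : ∀ j, j ≤ N2 → Q j = P2 (N2 - j) := fun j hj => if_pos hj
  have hQ2 : ∀ k, Q (N2 + k) = P1 k := by
    intro k
    rcases Nat.eq_zero_or_pos k with rfl | hk
    · rw [hQ1 _ (by omega), Nat.add_zero, Nat.sub_self, h20, h10]
    · show (if N2 + k ≤ N2 then P2 (N2 - (N2 + k)) else P1 (N2 + k - N2)) = P1 k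
      rw [if_neg (by omega), Nat.add_sub_cancel_left]
  have hQp : Q N2 = p := by rw [hQ1 _ le_rfl, Nat.sub_self, h20]
  -- the central bend
  have hpI : GInt L g1 X err p := by
    have := hP1.int 0 (by omega)
    rwa [h10] at this
  have hpe : err p ≤ 1 / 1000 := hpI.2.1.trans hg
  have hs1 := hP1.step 0 (by omega)
  have hs2 := hP2.step 0 (by omega)
  rw [h10, zero_add] at hs1
  rw [h20, zero_add] at hs2
  have hcen : ‖P1 1 - 2 * p + P2 1‖ ≤ 2 * err p := by
    have hd : ‖P1 1 - p‖ ≤ 11 / 10 := by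
      have e1 : P1 1 - p = (P1 1 - p - v) + v := by ring
      rw [e1]
      have := norm_add_le (P1 1 - p - v) v
      rw [hv] at this
      linarith
    have hne : P1 1 ≠ p := by
      intro h
      rw [h, sub_self, zero_sub, norm_neg, hv] at hs1
      norm_num at hs1
    obtain ⟨r', hr', hr2⟩ := opposite hS hpI (hP1.mem 1 hN1) hne hd
    have heq : r' = P2 1 := by
      apply eq_of_close hS hr' (hP2.mem 1 hN2)
      have e : r' - P2 1 = (r' - 2 * p + P1 1) - (P1 1 - p - v) - (P2 1 - p - -v) := by ring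
      rw [e]
      have a1 := norm_sub_le ((r' - 2 * p + P1 1) - (P1 1 - p - v)) (P2 1 - p - -v)
      have a2 := norm_sub_le (r' - 2 * p + P1 1) (P1 1 - p - v)
      linarith
    rw [heq] at hr2
    have e : P1 1 - 2 * p + P2 1 = P2 1 - 2 * p + P1 1 := by ring
    rw [e]
    exact hr2
  have hC : B3_Chain L g1 X err (N2 + N1) Q := by
    refine ⟨by omega, ?_, ?_, ?_⟩
    · intro j hj
      by_cases h : j ≤ N2
      · rw [hQ1 j h]
        exact hP2.mem _ (by omega)
      · obtain ⟨k, rfl⟩ : ∃ k, j = N2 + k := ⟨j - N2, by omega⟩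
        rw [hQ2]
        exact hP1.mem _ (by omega)
    · intro j h0 hj
      by_cases h : j ≤ N2
      · rw [hQ1 j h]
        exact hP2.int _ (by omega)
      · obtain ⟨k, rfl⟩ : ∃ k, j = N2 + k := ⟨j - N2, by omega⟩
        rw [hQ2]
        exact hP1.int _ (by omega)
    · intro j hj
      by_cases h : j + 2 ≤ N2
      · rw [hQ1 (j + 2) h, hQ1 (j + 1) (by omega), hQ1 j (by omega)]
        obtain ⟨m, rfl⟩ : ∃ m, N2 = m + j + 2 := ⟨N2 - j - 2, by omega⟩
        have e1 : m + j + 2 - (j + 2) = m := by omega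
        have e2 : m + j + 2 - (j + 1) = m + 1 := by omega
        have e3 : m + j + 2 - j = m + 2 := by omega
        rw [e1, e2, e3]
        have h1 := hP2.bend m (by omega)
        have e : P2 m - 2 * P2 (m + 1) + P2 (m + 2) = P2 (m + 2) - 2 * P2 (m + 1) + P2 m := by ring
        rw [e]
        exact h1
      · by_cases h' : j + 1 = N2
        · have e1 : Q (j + 2) = P1 1 := by
            rw [← hQ2 1]
            congr 1
            omega
          have e2 : Q (j + 1) = p := by rw [h', hQp]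
          have e3 : Q j = P2 1 := by
            rw [hQ1 j (by omega)]
            congr 1
            omega
          rw [e1, e2, e3]
          exact hcen
        · obtain ⟨k, rfl⟩ : ∃ k, j = N2 + k := ⟨j - N2, by omega⟩
          rw [show N2 + k + 2 = N2 + (k + 2) by ring, show N2 + k + 1 = N2 + (k + 1) by ring, hQ2, hQ2,
            hQ2]
          exact hP1.bend k (by omega)
  have hT : ∑ j ∈ range (N2 + N1 + 1), err (Q j) ≤ 1 / 500 := by
    rw [show N2 + N1 + 1 = N2 + (N1 + 1) by ring, Finset.sum_range_add]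
    have a1 : ∑ x ∈ range (N1 + 1), err (Q (N2 + x)) = ∑ x ∈ range (N1 + 1), err (P1 x) :=
      Finset.sum_congr rfl (fun x _ => by rw [hQ2])
    have a2 : ∑ x ∈ range N2, err (Q x) = ∑ x ∈ range N2, err (P2 (x + 1)) := by
      rw [← Finset.sum_range_reflect (fun x => err (P2 (x + 1))) N2]
      refine Finset.sum_congr rfl (fun x hx => ?_)
      have hx' := Finset.mem_range.1 hx
      rw [hQ1 x (by omega)]
      congr 2
      omega
    rw [a1, a2]
    rw [Finset.sum_range_succ' (fun i => err (P2 i))] at ht2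
    have := hS.errpos (P2 0)
    linarith
  have hQ0 : Q 0 = P2 N2 := by rw [hQ1 0 (by omega), Nat.sub_zero]
  have hQN : Q (N2 + N1) = P1 N1 := hQ2 N1
  have hst0 : ‖Q 1 - Q 0 - v‖ ≤ 1 / 16 := by
    rw [hQ0, hQ1 1 hN2]
    have h1 := hP2.step (N2 - 1) (by omega)
    rw [show N2 - 1 + 1 = N2 by omega] at h1
    have e : P2 (N2 - 1) - P2 N2 - v = -(P2 N2 - P2 (N2 - 1) - -v) := by ring
    rw [e, norm_neg]
    exact h1
  have hstN : ‖Q (N2 + N1) - Q (N2 + N1 - 1) - v‖ ≤ 1 / 16 := by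
    rw [hQN, show N2 + N1 - 1 = N2 + (N1 - 1) by omega, hQ2]
    have h1 := hP1.step (N1 - 1) (by omega)
    rw [show N1 - 1 + 1 = N1 by omega] at h1
    exact h1
  rw [← hQ0] at hw2
  rw [← hQN] at hw1
  have hI1 : GInt L g1 X err (Q 1) := hC.int 1 (by omega) (by omega)
  have hIN : GInt L g1 X err (Q (N2 + N1 - 1)) := hC.int _ (by omega) (by omega)
  have hd0 : ‖Q 1 - Q 0‖ ≤ 11 / 10 := by
    have e1 : Q 1 - Q 0 = (Q 1 - Q 0 - v) + v := by ring
    rw [e1]
    have := norm_add_le (Q 1 - Q 0 - v) v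
    rw [hv] at this
    linarith
  have hdN : ‖Q (N2 + N1 - 1) - Q (N2 + N1)‖ ≤ 11 / 10 := by
    have e1 : Q (N2 + N1 - 1) - Q (N2 + N1) = -((Q (N2 + N1) - Q (N2 + N1 - 1) - v) + v) := by ring
    rw [e1, norm_neg]
    have := norm_add_le (Q (N2 + N1) - Q (N2 + N1 - 1) - v) v
    rw [hv] at this
    linarith
  have e0 : err (Q 0) ≤ 1 / 1000 := hw2.2.1.trans hg
  have eN : err (Q (N2 + N1)) ≤ 1 / 1000 := hw1.2.1.trans hg
  -- the two end steps
  have hsum : ‖(Q (N2 + N1) - Q (N2 + N1 - 1)) - (Q 1 - Q 0)‖ ≤ 1 / 250 := by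
    have h1 := B3_step hC (N2 + N1 - 1) (by omega)
    rw [show N2 + N1 - 1 + 1 = N2 + N1 by omega] at h1
    have h3 : ∑ i ∈ range (N2 + N1 - 1 + 1), err (Q i) ≤ ∑ i ∈ range (N2 + N1 + 1), err (Q i) :=
      Finset.sum_le_sum_of_subset_of_nonneg
        (fun x hx => Finset.mem_range.2 (by have := Finset.mem_range.1 hx; omega))
        (fun x _ _ => hS.errpos _)
    rw [Finset.sum_range_succ' (fun i => err (Q i))] at h3
    have h5 := hS.errpos (Q 0)
    linarith
  have far : ∀ x y : ℂ, ‖Q 1 - Q 0 - x‖ ≤ 1 / 1000 → ‖Q (N2 + N1 - 1) - Q (N2 + N1) - y‖ ≤ 1 / 1000 →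
      ‖x + y‖ < 1 := by
    intro x y hx hy
    have e : x + y = -(Q 1 - Q 0 - x) - (Q (N2 + N1 - 1) - Q (N2 + N1) - y) -
        ((Q (N2 + N1) - Q (N2 + N1 - 1)) - (Q 1 - Q 0)) := by ring
    rw [e]
    have a1 := norm_sub_le (-(Q 1 - Q 0 - x) - (Q (N2 + N1 - 1) - Q (N2 + N1) - y))
      ((Q (N2 + N1) - Q (N2 + N1 - 1)) - (Q 1 - Q 0))
    have a2 := norm_sub_le (-(Q 1 - Q 0 - x)) (Q (N2 + N1 - 1) - Q (N2 + N1) - y)
    rw [norm_neg] at a2
    linarith
  rcases B3_dir hS hw2 hI1 hd0 with c1 | c1 <;> rcases B3_dir hS hw1 hIN hdN with c2 | c2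
  · exfalso
    have h1 := far _ _ (c1.trans e0) (c2.trans eN)
    have h2 := B3_add_ge (a0 + 2) (b0 + 2)
    linarith
  · -- type a0 + 2
    have c2' : ‖Q (N2 + N1 - 1) - Q (N2 + N1) - -dirv (b0 + 1)‖ ≤ 1 / 1000 := by
      rw [sub_neg_eq_add]
      exact c2.trans eN
    have h1 := far _ _ (c1.trans e0) c2'
    have hab : a0 + 2 = b0 + 1 := by
      by_contra hne
      have h2 := B3_sub_ge hne
      rw [← sub_eq_add_neg] at h1
      linarith
    have hb0 : b0 = a0 + 2 + 2 := by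
      rw [hab, add_assoc]
      fin_cases b0 <;> rfl
    refine ⟨a0 + 2, N2 + N1, Q, N2, ?_, hT, by omega, by omega, hQp, Or.inl ?_⟩
    · apply B3_core hS hC
      · rw [B3_f1]
        exact hw2
      · rw [← hb0]
        exact hw1
      · exact c1
    · have e : v - dirv (a0 + 2) = (Q 1 - Q 0 - dirv (a0 + 2)) - (Q 1 - Q 0 - v) := by ring
      rw [e]
      have := norm_sub_le (Q 1 - Q 0 - dirv (a0 + 2)) (Q 1 - Q 0 - v)
      linarith
  · -- type b0 + 2, reversed
    have c1' : ‖Q 1 - Q 0 - -dirv (a0 + 1)‖ ≤ 1 / 1000 := by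
      rw [sub_neg_eq_add]
      exact c1.trans e0
    have h1 := far _ _ c1' (c2.trans eN)
    have hab : b0 + 2 = a0 + 1 := by
      by_contra hne
      have h2 := B3_sub_ge hne
      rw [add_comm, ← sub_eq_add_neg] at h1
      linarith
    have ha0 : a0 = b0 + 2 + 2 := by
      rw [hab, add_assoc]
      fin_cases a0 <;> rfl
    refine ⟨b0 + 2, N2 + N1, fun j => Q (N2 + N1 - j), N1, ?_, ?_, by omega, by omega, ?_, Or.inr ?_⟩
    · apply B3_core hS (B3_rev hC)
      · rw [B3_f1]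
        exact hw1
      · rw [← ha0]
        show GWall L g1 X err a0 (Q (N2 + N1 - (N2 + N1)))
        rw [Nat.sub_self]
        exact hw2
      · exact c2
    · rw [B3_rev_sum]
      exact hT
    · show Q (N2 + N1 - N1) = p
      rw [Nat.add_sub_cancel]
      exact hQp
    · have e : v + dirv (b0 + 2) = -((Q (N2 + N1) - Q (N2 + N1 - 1) - v) +
          (Q (N2 + N1 - 1) - Q (N2 + N1) - dirv (b0 + 2))) := by ring
      rw [e, norm_neg]
      have := norm_add_le (Q (N2 + N1) - Q (N2 + N1 - 1) - v)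
        (Q (N2 + N1 - 1) - Q (N2 + N1) - dirv (b0 + 2))
      linarith
  · exfalso
    have c1' : ‖Q 1 - Q 0 - -dirv (a0 + 1)‖ ≤ 1 / 1000 := by
      rw [sub_neg_eq_add]
      exact c1.trans e0
    have c2' : ‖Q (N2 + N1 - 1) - Q (N2 + N1) - -dirv (b0 + 1)‖ ≤ 1 / 1000 := by
      rw [sub_neg_eq_add]
      exact c2.trans eN
    have h1 := far _ _ c1' c2'
    have h2 := B3_add_ge (a0 + 1) (b0 + 1)
    rw [← neg_add, norm_neg] at h1
    linarith

/-- heights along a line -/
theorem line_heights (hS : SData L E0 g1 R0 X err) {i : Fin 3} {t : ℝ} {N : ℕ} {Q : ℕ → ℂ} (ht : t ≤ 1 / 500)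
    (hQ : CLine L g1 X err i t N Q) {a b : ℕ} (hab : a ≤ b) (hb : b ≤ N) :
    |H L i (Q b) - H L i (Q a)| ≤ 4 * t * (b - a) ∧
      |H L (i + 1) (Q b) - H L (i + 1) (Q a) - (b - a)| ≤ 4 * t * (b - a) ∧
      |H L (i + 2) (Q b) - H L (i + 2) (Q a) + (b - a)| ≤ 4 * t * (b - a) ∧
      ‖Q b - Q a - (b - a) * dirv i‖ ≤ 3 * t * (b - a) := by
  obtain ⟨k, rfl⟩ : ∃ k, b = a + k := ⟨b - a, by omega⟩
  have ht0 : 0 ≤ t := by
    have h1 : 0 ≤ ∑ j ∈ range (N + 1), err (Q j) := Finset.sum_nonneg (fun x _ => hS.errpos _)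
    exact h1.trans hQ.total
  have key : ∀ k, a + k ≤ N → ‖Q (a + k) - Q a - (k : ℂ) * dirv i‖ ≤ 3 * t * k := by
    intro k
    induction k with
    | zero => intro _; simp
    | succ k ih =>
      intro hk
      have h1 := ih (by omega)
      have h2 := hQ.step (a + k) (by omega)
      have e : Q (a + (k + 1)) - Q a - ((k + 1 : ℕ) : ℂ) * dirv i =
          (Q (a + k) - Q a - (k : ℂ) * dirv i) + (Q (a + k + 1) - Q (a + k) - dirv i) := by
        rw [← add_assoc]
        push_cast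
        ring
      rw [e]
      have h3 := norm_add_le (Q (a + k) - Q a - (k : ℂ) * dirv i) (Q (a + k + 1) - Q (a + k) - dirv i)
      push_cast
      linarith
  have hk := key k hb
  have hcast : ((a + k : ℕ) : ℝ) - a = k := by push_cast; ring
  have hcastc : ((a + k : ℕ) : ℂ) - a = k := by push_cast; ring
  have hh : ∀ m : Fin 3, |H L m (Q (a + k)) - H L m (Q a) - k * (H L m (dirv i) - H L m 0)| ≤
      4 * t * k := by
    intro m
    have h1 := H_lip L m (Q (a + k)) (Q a + ((k : ℝ) : ℂ) * dirv i)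
    have h2 := H_add L m (Q a) (((k : ℝ) : ℂ) * dirv i)
    rw [H_smul] at h2
    rw [h2] at h1
    have e : Q (a + k) - (Q a + ((k : ℝ) : ℂ) * dirv i) = Q (a + k) - Q a - (k : ℂ) * dirv i := by
      push_cast
      ring
    rw [e] at h1
    have e2 : H L m (Q (a + k)) - (H L m (Q a) + k * (H L m (dirv i) - H L m 0)) =
        H L m (Q (a + k)) - H L m (Q a) - k * (H L m (dirv i) - H L m 0) := by ring
    rw [e2] at h1
    have hk0 : (0 : ℝ) ≤ k := Nat.cast_nonneg k
    nlinarith [mul_nonneg ht0 hk0]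
  rw [hcast, hcastc]
  refine ⟨?_, ?_, ?_, hk⟩
  · have := hh i
    rw [H_dir_self, mul_zero, sub_zero] at this
    exact this
  · have := hh (i + 1)
    rw [H_dir_add1, mul_one] at this
    exact this
  · have := hh (i + 2)
    rw [H_dir_add2, mul_neg_one, sub_neg_eq_add] at this
    exact this

theorem line_mem {i : Fin 3} {t : ℝ} {N : ℕ} {Q : ℕ → ℂ} (hQ : CLine L g1 X err i t N Q) {a : ℕ} (ha : a ≤ N) :
    Q a ∈ X := by
  rcases Nat.eq_zero_or_pos a with rfl | h0
  · exact hQ.start.1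
  · rcases ha.lt_or_eq with h1 | h1
    · exact (hQ.int a h0 h1).1
    · rw [h1]
      exact hQ.fin.1

private theorem B3_bwd (hS : SData L E0 g1 R0 X err) {i : Fin 3} {t t' : ℝ} {N N' : ℕ} {Q Q' : ℕ → ℂ}
    (ht : t ≤ 1 / 500) (ht' : t' ≤ 1 / 500) (hQ : CLine L g1 X err i t N Q) (hQ' : CLine L g1 X err i t' N' Q')
    {a b : ℕ} (ha : a ≤ N) (hb : b ≤ N') (h : Q a = Q' b) (k : ℕ) (hka : k ≤ a) (hkb : k ≤ b) :
    Q (a - k) = Q' (b - k) := by
  induction k with
  | zero => exact h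
  | succ k ih =>
    have h1 := ih (by omega) (by omega)
    have s1 := hQ.step (a - (k + 1)) (by omega)
    have s2 := hQ'.step (b - (k + 1)) (by omega)
    rw [show a - (k + 1) + 1 = a - k by omega] at s1
    rw [show b - (k + 1) + 1 = b - k by omega] at s2
    apply eq_of_close hS (line_mem hQ (by omega)) (line_mem hQ' (by omega))
    have e : Q (a - (k + 1)) - Q' (b - (k + 1)) =
        (Q' (b - k) - Q' (b - (k + 1)) - dirv i) - (Q (a - k) - Q (a - (k + 1)) - dirv i) := by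
      rw [h1]; ring
    rw [e]
    have := norm_sub_le (Q' (b - k) - Q' (b - (k + 1)) - dirv i)
      (Q (a - k) - Q (a - (k + 1)) - dirv i)
    linarith

private theorem B3_fwd (hS : SData L E0 g1 R0 X err) {i : Fin 3} {t t' : ℝ} {N N' : ℕ} {Q Q' : ℕ → ℂ}
    (ht : t ≤ 1 / 500) (ht' : t' ≤ 1 / 500) (hQ : CLine L g1 X err i t N Q) (hQ' : CLine L g1 X err i t' N' Q')
    {a b : ℕ} (ha : a ≤ N) (hb : b ≤ N') (h : Q a = Q' b) (k : ℕ) (hka : a + k ≤ N) (hkb : b + k ≤ N') :
    Q (a + k) = Q' (b + k) := by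
  induction k with
  | zero => exact h
  | succ k ih =>
    have h1 := ih (by omega) (by omega)
    have s1 := hQ.step (a + k) (by omega)
    have s2 := hQ'.step (b + k) (by omega)
    apply eq_of_close hS (line_mem hQ (by omega)) (line_mem hQ' (by omega))
    have e : Q (a + (k + 1)) - Q' (b + (k + 1)) =
        (Q (a + k + 1) - Q (a + k) - dirv i) - (Q' (b + k + 1) - Q' (b + k) - dirv i) := by
      rw [h1, ← add_assoc, ← add_assoc]; ring
    rw [e]
    have := norm_sub_le (Q (a + k + 1) - Q (a + k) - dirv i)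
      (Q' (b + k + 1) - Q' (b + k) - dirv i)
    linarith

private theorem B3_not_lt (hS : SData L E0 g1 R0 X err) {i : Fin 3} {t t' : ℝ} {N N' : ℕ} {Q Q' : ℕ → ℂ}
    (ht : t ≤ 1 / 500) (ht' : t' ≤ 1 / 500) (hQ : CLine L g1 X err i t N Q) (hQ' : CLine L g1 X err i t' N' Q')
    {a b : ℕ} (ha : a ≤ N) (hb : b ≤ N') (h : Q a = Q' b) (hlt : a < b) : False := by
  have h1 := B3_bwd hS ht ht' hQ hQ' ha hb h a le_rfl hlt.le
  rw [Nat.sub_self] at h1
  have h2 := (line_heights hS ht' hQ' (a := 0) (b := b - a) (Nat.zero_le _) (by omega)).2.1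
  have h3 : H L (i + 1) (Q 0) ≤ err (Q 0) := hQ.start.2.2.2.1
  have h4 : err (Q 0) ≤ 1 / 1000 := hQ.start.2.1.trans hS.g1le
  have h5 := hS.inT _ (line_mem hQ' (Nat.zero_le _)) (i + 1)
  rw [h1] at h3 h4
  have h6 := (abs_le.1 h2).1
  have h7 : (1 : ℝ) ≤ ((b - a : ℕ) : ℝ) := by exact_mod_cast (by omega : 1 ≤ b - a)
  rw [Nat.cast_zero, sub_zero] at h6
  nlinarith

private theorem B3_not_lt' (hS : SData L E0 g1 R0 X err) {i : Fin 3} {t t' : ℝ} {N N' : ℕ} {Q Q' : ℕ → ℂ}
    (ht : t ≤ 1 / 500) (ht' : t' ≤ 1 / 500) (hQ : CLine L g1 X err i t N Q) (hQ' : CLine L g1 X err i t' N' Q')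
    {a : ℕ} (ha : a ≤ N) (hb : a ≤ N') (h : Q a = Q' a) (hlt : N < N') : False := by
  have h1 := B3_fwd hS ht ht' hQ hQ' ha hb h (N - a) (by omega) (by omega)
  rw [show a + (N - a) = N by omega] at h1
  have h2 := (line_heights hS ht' hQ' (a := N) (b := N') hlt.le le_rfl).2.2.1
  have h3 : H L (i + 2) (Q N) ≤ err (Q N) := hQ.fin.2.2.2.1
  have h4 : err (Q N) ≤ 1 / 1000 := hQ.fin.2.1.trans hS.g1le
  have h5 := hS.inT _ (line_mem hQ' le_rfl) (i + 2)
  rw [h1] at h3 h4
  have h6 := (abs_le.1 h2).2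
  have h7 : (1 : ℝ) ≤ (N' : ℝ) - N := by
    have : ((N + 1 : ℕ) : ℝ) ≤ N' := by exact_mod_cast hlt
    push_cast at this
    linarith
  nlinarith

/-- two lines of the same type with a common vertex coincide (go back to the start, `H (i+1)` is `≤ 1/1000` at the start and `≥ 0.9` at
all other vertices; then go forward, `H (i+2)` is `≤ 1/1000` at the end and `≥ 0.9` before) -/
theorem line_unique (hS : SData L E0 g1 R0 X err) {i : Fin 3} {t t' : ℝ} {N N' : ℕ} {Q Q' : ℕ → ℂ}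
    (ht : t ≤ 1 / 500) (ht' : t' ≤ 1 / 500) (hQ : CLine L g1 X err i t N Q) (hQ' : CLine L g1 X err i t' N' Q')
    {a b : ℕ} (ha : a ≤ N) (hb : b ≤ N') (h : Q a = Q' b) : a = b ∧ N = N' ∧ ∀ j ≤ N, Q j = Q' j := by
  have hab : a = b := by
    rcases lt_trichotomy a b with h1 | h1 | h1
    · exact (B3_not_lt hS ht ht' hQ hQ' ha hb h h1).elim
    · exact h1
    · exact (B3_not_lt hS ht' ht hQ' hQ hb ha h.symm h1).elim
  subst hab
  have hNN : N = N' := by
    rcases lt_trichotomy N N' with h1 | h1 | h1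
    · exact (B3_not_lt' hS ht ht' hQ hQ' ha hb h h1).elim
    · exact h1
    · exact (B3_not_lt' hS ht' ht hQ' hQ hb ha h.symm h1).elim
  subst hNN
  refine ⟨rfl, rfl, fun j hj => ?_⟩
  rcases le_total j a with h1 | h1
  · have := B3_bwd hS ht ht' hQ hQ' ha hb h (a - j) (by omega) (by omega)
    rwa [show a - (a - j) = j by omega] at this
  · have := B3_fwd hS ht ht' hQ hQ' ha hb h (j - a) (by omega) (by omega)
    rwa [show a + (j - a) = j by omega] at this

end H24
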