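import Pool.Agent.Lib_MP_27c196_co.S.B3
import Pool.Agent.Lib_MP_27c196_co.S.A2

/-! H24 S, piece B4: TRANS -/

set_option linter.unusedVariables false

noncomputable section

namespace H24

open Finset

variable {L E0 g1 R0 : ℝ} {X : Finset ℂ} {err : ℂ → ℝ}

open Classical in
/-- starting points of the aligned lines of type `i` with total in `(t, 1/500]` -/
def lineStarts (L g1 : ℝ) (X : Finset ℂ) (err : ℂ → ℝ) (i : Fin 3) (t : ℝ) : Finset ℂ :=
  X.filter (fun p => ∃ (N : ℕ) (Q : ℕ → ℂ), Q 0 = p ∧ CLine L g1 X err i (∑ j ∈ range (N + 1), err (Q j)) N Q ∧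
    t < ∑ j ∈ range (N + 1), err (Q j) ∧ ∑ j ∈ range (N + 1), err (Q j) ≤ 1 / 500)

/-- number of aligned lines with total in `(t, 1/500]` -/
def nw (L g1 : ℝ) (X : Finset ℂ) (err : ℂ → ℝ) (t : ℝ) : ℕ := ∑ i, (lineStarts L g1 X err i t).card

/-- the exception count -/
def UU (L E0 g1 : ℝ) (X : Finset ℂ) (err : ℂ → ℝ) (t : ℝ) : ℝ :=
  2 * (Bad L g1 X err).card + 4000 * E0 + nw L g1 X err t

/-- on a clean line -/
def OnLine (L g1 : ℝ) (X : Finset ℂ) (err : ℂ → ℝ) (t : ℝ) (i : Fin 3) (p : ℂ) : Prop :=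
  ∃ (N : ℕ) (Q : ℕ → ℂ) (a : ℕ), CLine L g1 X err i t N Q ∧ a ≤ N ∧ Q a = p

private theorem B4_mono {i : Fin 3} {t t' : ℝ} {N : ℕ} {Q : ℕ → ℂ}
    (h : CLine L g1 X err i t N Q) (htt : t ≤ t') : CLine L g1 X err i t' N Q :=
  ⟨h.start, h.fin, h.int, fun j hj => (h.step j hj).trans (by linarith), h.total.trans htt⟩

/-- two points on a line in the direction of `v` are not transversal to `v` -/
private theorem B4_nontrans {v p p' e0 : ℂ} {d : ℝ} (hd : 0 < d) (hv : ‖v‖ = 1)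
    (he0 : ‖e0‖ = 1) (h1 : ‖p' - p - d * e0‖ ≤ 3 / 500 * d)
    (h2 : ‖v - e0‖ ≤ 1 / 10 ∨ ‖v + e0‖ ≤ 1 / 10) :
    |((p' - p) * (starRingEnd ℂ) v).im| < ‖p' - p‖ / 2 := by
  have hcv : ‖(starRingEnd ℂ) v‖ = 1 := by rw [RCLike.norm_conj, hv]
  have hvv : (v * (starRingEnd ℂ) v).im = 0 := by
    rw [Complex.mul_conj]
    exact Complex.ofReal_im _
  have him : |(e0 * (starRingEnd ℂ) v).im| ≤ 1 / 10 := by
    rcases h2 with h2 | h2
    · have e : (e0 * (starRingEnd ℂ) v).im = -((v - e0) * (starRingEnd ℂ) v).im := by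
        rw [sub_mul, Complex.sub_im, hvv]
        ring
      rw [e, abs_neg]
      refine (Complex.abs_im_le_norm _).trans ?_
      rw [norm_mul, hcv, mul_one]
      exact h2
    · have e : (e0 * (starRingEnd ℂ) v).im = ((v + e0) * (starRingEnd ℂ) v).im := by
        rw [add_mul, Complex.add_im, hvv]
        ring
      rw [e]
      refine (Complex.abs_im_le_norm _).trans ?_
      rw [norm_mul, hcv, mul_one]
      exact h2
  have hsplit : ((p' - p) * (starRingEnd ℂ) v).im =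
      ((p' - p - d * e0) * (starRingEnd ℂ) v).im + d * (e0 * (starRingEnd ℂ) v).im := by
    rw [sub_mul (p' - p) (d * e0), Complex.sub_im, mul_assoc, Complex.im_ofReal_mul]
    ring
  have hle : |((p' - p) * (starRingEnd ℂ) v).im| ≤ 3 / 500 * d + d * (1 / 10) := by
    rw [hsplit]
    refine (abs_add_le _ _).trans (add_le_add ?_ ?_)
    · refine (Complex.abs_im_le_norm _).trans ?_
      rw [norm_mul, hcv, mul_one]
      exact h1
    · rw [abs_mul, abs_of_pos hd]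
      exact mul_le_mul_of_nonneg_left him hd.le
  have hge : d - 3 / 500 * d ≤ ‖p' - p‖ := by
    have h3 : ‖(d : ℂ) * e0‖ = d := by
      rw [norm_mul, he0, mul_one, Complex.norm_real, Real.norm_of_nonneg hd.le]
    have h4 := norm_sub_norm_le ((d : ℂ) * e0) ((d : ℂ) * e0 - (p' - p))
    rw [sub_sub_cancel, h3, norm_sub_rev] at h4
    linarith
  linarith

/-- two points of a transversal set on one line are equal -/
private theorem B4_same (hS : SData L E0 g1 R0 X err) {v : ℂ} (hv : ‖v‖ = 1) {A : Finset ℂ}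
    (htr : Transv v A) {i : Fin 3} {t : ℝ} (ht : t ≤ 1 / 500) {N : ℕ} {Q : ℕ → ℂ}
    (hQ : CLine L g1 X err i t N Q) (h2 : ‖v - dirv i‖ ≤ 1 / 10 ∨ ‖v + dirv i‖ ≤ 1 / 10)
    {a b : ℕ} (hab : a ≤ b) (hb : b ≤ N) (ha' : Q a ∈ A) (hb' : Q b ∈ A) : Q a = Q b := by
  by_contra hne
  have hlt : a < b := lt_of_le_of_ne hab fun h => hne (by rw [h])
  have hd : (0 : ℝ) < (b : ℝ) - a := by
    have : (a : ℝ) < b := by exact_mod_cast hlt
    linarith
  have h1 := (line_heights hS ht hQ hab hb).2.2.2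
  have h3 : ‖Q b - Q a - ((((b : ℝ) - a : ℝ)) : ℂ) * dirv i‖ ≤ 3 / 500 * ((b : ℝ) - a) := by
    have e : ((((b : ℝ) - a : ℝ)) : ℂ) = (b : ℂ) - a := by push_cast; ring
    rw [e]
    refine h1.trans ?_
    have : 3 * t ≤ 3 / 500 := by linarith
    exact mul_le_mul_of_nonneg_right this hd.le
  have h4 := B4_nontrans hd hv (dirv_norm i) h3 h2
  have h5 := htr (Q a) ha' (Q b) hb' hne
  linarith

private def B4_Rel (L g1 : ℝ) (X : Finset ℂ) (err : ℂ → ℝ) (v : ℂ) (t : ℝ) (p : ℂ)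
    (x : Σ _ : Fin 3, ℂ) : Prop :=
  ∃ (N : ℕ) (Q : ℕ → ℂ) (a : ℕ), CLine L g1 X err x.1 (∑ j ∈ range (N + 1), err (Q j)) N Q ∧
    ∑ j ∈ range (N + 1), err (Q j) ≤ 1 / 500 ∧ t < ∑ j ∈ range (N + 1), err (Q j) ∧
    a ≤ N ∧ Q a = p ∧ Q 0 = x.2 ∧ (‖v - dirv x.1‖ ≤ 1 / 10 ∨ ‖v + dirv x.1‖ ≤ 1 / 10)

private theorem B4_inj (hS : SData L E0 g1 R0 X err) {v : ℂ} (hv : ‖v‖ = 1) {A : Finset ℂ}
    (htr : Transv v A) {t : ℝ} {p p' : ℂ} (hp : p ∈ A) (hp' : p' ∈ A) {x : Σ _ : Fin 3, ℂ}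
    (h : B4_Rel L g1 X err v t p x) (h' : B4_Rel L g1 X err v t p' x) : p = p' := by
  obtain ⟨N, Q, a, hQ, hle, _, ha, rfl, hQ0, hdir⟩ := h
  obtain ⟨N', Q', b, hQ', hle', _, hb, rfl, hQ0', _⟩ := h'
  obtain ⟨_, hN, hall⟩ := line_unique hS hle hle' hQ hQ' (Nat.zero_le _) (Nat.zero_le _)
    (hQ0.trans hQ0'.symm)
  have hb2 : b ≤ N := by omega
  rw [← hall b hb2] at hp' ⊢
  rcases le_total a b with hab | hab
  · exact B4_same hS hv htr hle hQ hdir hab hb2 hp hp'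
  · exact (B4_same hS hv htr hle hQ hdir hab ha hp' hp).symm

open Classical in
/-- TRANS. `half_trans` for `v` and `-v`, then `line_of_rays`; different points of `A` lie on different aligned lines (two points of the same line
of type `i`: difference `n dirv i + O(3 t n)`, direction within `1/10` of `± v`, against transversality), and at most `nw t` of these lines have
total `> t`. -/
theorem trans_lemma (hS : SData L E0 g1 R0 X err) {t : ℝ} (ht0 : 0 < t) (ht : t ≤ 1 / 500) {v : ℂ} (hv : ‖v‖ = 1)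
    (A : Finset ℂ) (hA : ∀ p ∈ A, GInt L g1 X err p) (hn : ∀ p ∈ A, ∃ q ∈ X, ‖q - p - v‖ ≤ 1 / 20)
    (hn' : ∀ p ∈ A, ∃ q ∈ X, ‖q - p + v‖ ≤ 1 / 20) (htr : Transv v A) :
    ((A.filter (fun p => ¬ ∃ i, OnLine L g1 X err t i p ∧ (‖v - dirv i‖ ≤ 1 / 10 ∨ ‖v + dirv i‖ ≤ 1 / 10))).card : ℝ) ≤
      UU L E0 g1 X err t := by
  classical
  set A1 := A.filter (fun p => ¬ GoodRay L g1 X err v p) with hA1
  set A2 := A.filter (fun p => ¬ GoodRay L g1 X err (-v) p) with hA2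
  set B := A.filter (fun p => ¬ ∃ i, OnLine L g1 X err t i p ∧
    (‖v - dirv i‖ ≤ 1 / 10 ∨ ‖v + dirv i‖ ≤ 1 / 10)) with hB
  have hv' : ‖-v‖ = 1 := by rw [norm_neg, hv]
  have htr' : Transv (-v) A := by
    intro p hp p' hp' hne
    have := htr p hp p' hp' hne
    rwa [map_neg, mul_neg, Complex.neg_im, abs_neg]
  have c1 : (A1.card : ℝ) ≤ (Bad L g1 X err).card + 2000 * E0 := by
    have := half_trans hS hv A hA hn htr
    convert this
  have c2 : (A2.card : ℝ) ≤ (Bad L g1 X err).card + 2000 * E0 := by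
    have := half_trans hS hv' A hA (fun p hp => by
      obtain ⟨r, hr, h⟩ := hn' p hp
      exact ⟨r, hr, by rwa [sub_neg_eq_add]⟩) htr'
    convert this
  have hrel : ∀ p ∈ B \ (A1 ∪ A2), ∃ x : Σ _ : Fin 3, ℂ, B4_Rel L g1 X err v t p x := by
    intro p hp
    rw [Finset.mem_sdiff, Finset.mem_union, hA1, hA2, hB, Finset.mem_filter, Finset.mem_filter,
      Finset.mem_filter] at hp
    obtain ⟨⟨hpA, hno⟩, hnot⟩ := hp
    have g1' : GoodRay L g1 X err v p := by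
      by_contra hcon
      exact hnot (Or.inl ⟨hpA, hcon⟩)
    have g2' : GoodRay L g1 X err (-v) p := by
      by_contra hcon
      exact hnot (Or.inr ⟨hpA, hcon⟩)
    obtain ⟨i, N, Q, a, hQ, hle, _, haN, hQa, hdir⟩ := line_of_rays hS hv g1' g2'
    refine ⟨⟨i, Q 0⟩, N, Q, a, hQ, hle, ?_, haN.le, hQa, rfl, hdir⟩
    by_contra hcon
    rw [not_lt] at hcon
    exact hno ⟨i, ⟨N, Q, a, B4_mono hQ hcon, haN.le, hQa⟩, hdir⟩
  choose! f hf using hrel
  have c3 : (B \ (A1 ∪ A2)).card ≤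
      ((Finset.univ : Finset (Fin 3)).sigma (fun i => lineStarts L g1 X err i t)).card := by
    refine Finset.card_le_card_of_injOn f ?_ ?_
    · intro p hp
      obtain ⟨N, Q, a, hQ, hle, hlt, _, _, hQ0, _⟩ := hf p hp
      rw [Finset.mem_coe, Finset.mem_sigma]
      refine ⟨Finset.mem_univ _, ?_⟩
      rw [lineStarts, Finset.mem_filter]
      refine ⟨?_, N, Q, hQ0, hQ, hlt, hle⟩
      rw [← hQ0]
      exact hQ.start.1
    · intro p hp p' hp' hpp
      have h1 := hf p hp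
      have h2 := hf p' hp'
      rw [← hpp] at h2
      have m1 : p ∈ A := by
        have := (Finset.mem_sdiff.1 (Finset.mem_coe.1 hp)).1
        rw [hB, Finset.mem_filter] at this
        exact this.1
      have m2 : p' ∈ A := by
        have := (Finset.mem_sdiff.1 (Finset.mem_coe.1 hp')).1
        rw [hB, Finset.mem_filter] at this
        exact this.1
      exact B4_inj hS hv htr m1 m2 h1 h2
  rw [Finset.card_sigma] at c3
  have c4 : B.card ≤ (A1.card + A2.card) + (B \ (A1 ∪ A2)).card := by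
    have h1 : B ⊆ (A1 ∪ A2) ∪ (B \ (A1 ∪ A2)) := by
      intro p hp
      rw [Finset.mem_union, Finset.mem_sdiff]
      by_cases h : p ∈ A1 ∪ A2
      · exact Or.inl h
      · exact Or.inr ⟨hp, h⟩
    have h2 := Finset.card_le_card h1
    have h3 := Finset.card_union_le (A1 ∪ A2) (B \ (A1 ∪ A2))
    have h4 := Finset.card_union_le A1 A2
    omega
  have c5 : (B.card : ℝ) ≤ (A1.card + A2.card) + (nw L g1 X err t : ℝ) := by
    have : B.card ≤ (A1.card + A2.card) + nw L g1 X err t := by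
      unfold nw
      omega
    exact_mod_cast this
  unfold UU
  linarith

/-- the total of the line of type `i` starting at `p` -/
private theorem B4_total (hS : SData L E0 g1 R0 X err) (i : Fin 3) :
    ∃ T : ℂ → ℝ, (∀ p, 0 ≤ T p) ∧ ∑ p ∈ X, T p ≤ E0 ∧
      ∀ t, ∀ p ∈ lineStarts L g1 X err i t, t < T p := by
  classical
  set good : ℂ → Prop := fun p => ∃ (N : ℕ) (Q : ℕ → ℂ), Q 0 = p ∧
    CLine L g1 X err i (∑ j ∈ range (N + 1), err (Q j)) N Q ∧
    ∑ j ∈ range (N + 1), err (Q j) ≤ 1 / 500 with hgood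
  have hex : ∀ p, ∃ (N : ℕ) (Q : ℕ → ℂ), good p → Q 0 = p ∧
    CLine L g1 X err i (∑ j ∈ range (N + 1), err (Q j)) N Q ∧
    ∑ j ∈ range (N + 1), err (Q j) ≤ 1 / 500 := by
    intro p
    by_cases h : good p
    · obtain ⟨N, Q, h1⟩ := h
      exact ⟨N, Q, fun _ => h1⟩
    · exact ⟨0, fun _ => 0, fun h' => absurd h' h⟩
  choose N Q hNQ using hex
  refine ⟨fun p => if good p then ∑ j ∈ range (N p + 1), err (Q p j) else 0, ?_, ?_, ?_⟩
  · intro p
    show 0 ≤ if good p then ∑ j ∈ range (N p + 1), err (Q p j) else 0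
    split_ifs
    · exact Finset.sum_nonneg fun j _ => hS.errpos _
    · exact le_rfl
  · rw [← Finset.sum_filter]
    set S : ℂ → Finset ℂ := fun p => (range (N p + 1)).image (Q p) with hSdef
    have h1 : ∀ p ∈ X.filter good, ∑ j ∈ range (N p + 1), err (Q p j) = ∑ x ∈ S p, err x := by
      intro p hp
      rw [Finset.mem_filter] at hp
      obtain ⟨_, hl, hle⟩ := hNQ p hp.2
      rw [hSdef]
      refine (Finset.sum_image ?_).symm
      intro a ha b hb hab
      have ha' := Finset.mem_range.1 (Finset.mem_coe.1 ha)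
      have hb' := Finset.mem_range.1 (Finset.mem_coe.1 hb)
      exact (line_unique hS hle hle hl hl (by omega) (by omega) hab).1
    rw [Finset.sum_congr rfl h1]
    have hdisj : ((X.filter good : Finset ℂ) : Set ℂ).PairwiseDisjoint S := by
      intro p hp p' hp' hne
      rw [Function.onFun, Finset.disjoint_left]
      intro x hx hx'
      rw [hSdef, Finset.mem_image] at hx hx'
      obtain ⟨a, ha, hax⟩ := hx
      obtain ⟨b, hb, hbx⟩ := hx'
      have ha' := Finset.mem_range.1 ha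
      have hb' := Finset.mem_range.1 hb
      rw [Finset.mem_coe, Finset.mem_filter] at hp hp'
      obtain ⟨h0, hl, hle⟩ := hNQ p hp.2
      obtain ⟨h0', hl', hle'⟩ := hNQ p' hp'.2
      have := (line_unique hS hle hle' hl hl' (by omega) (by omega) (hax.trans hbx.symm)).2.2 0
        (Nat.zero_le _)
      exact hne (by rw [← h0, ← h0', this])
    rw [← Finset.sum_biUnion hdisj]
    refine le_trans (Finset.sum_le_sum_of_subset_of_nonneg ?_ fun x _ _ => hS.errpos x) hS.errsum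
    intro x hx
    rw [Finset.mem_biUnion] at hx
    obtain ⟨p, hp, hxp⟩ := hx
    rw [hSdef, Finset.mem_image] at hxp
    obtain ⟨a, ha, rfl⟩ := hxp
    rw [Finset.mem_filter] at hp
    have ha' := Finset.mem_range.1 ha
    exact line_mem (hNQ p hp.2).2.1 (by omega)
  · intro t p hp
    rw [lineStarts, Finset.mem_filter] at hp
    obtain ⟨_, N', Q', h0, hl, hlt, hle⟩ := hp
    have hg : good p := ⟨N', Q', h0, hl, hle⟩
    obtain ⟨h0'', hl'', hle''⟩ := hNQ p hg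
    obtain ⟨_, hN, hall⟩ := line_unique hS hle hle'' hl hl'' (Nat.zero_le _) (Nat.zero_le _)
      (h0.trans h0''.symm)
    show t < if good p then ∑ j ∈ range (N p + 1), err (Q p j) else 0
    rw [if_pos hg, ← hN]
    refine lt_of_lt_of_eq hlt (Finset.sum_congr rfl fun j hj => ?_)
    rw [hall j (by have := Finset.mem_range.1 hj; omega)]

/-- a dyadic sum below `T` -/
private theorem B4_geom (T : ℝ) (hT : 0 ≤ T) (n : ℕ) :
    ∑ j ∈ range n, (if (1 / 2 : ℝ) ^ j < T then (1 / 2 : ℝ) ^ j else 0) +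
      2 * (if (1 / 2 : ℝ) ^ n < T then (1 / 2 : ℝ) ^ n else 0) ≤ 2 * T := by
  induction n with
  | zero =>
    rw [Finset.sum_range_zero, zero_add]
    split_ifs with h
    · linarith
    · linarith
  | succ n ih =>
    rw [Finset.sum_range_succ]
    have hp : (1 / 2 : ℝ) ^ (n + 1) = (1 / 2 : ℝ) ^ n / 2 := by rw [pow_succ]; ring
    by_cases h : (1 / 2 : ℝ) ^ n < T
    · rw [if_pos h] at ih ⊢
      have hpos : (0 : ℝ) < (1 / 2 : ℝ) ^ n := by positivity
      have h2 : (1 / 2 : ℝ) ^ (n + 1) < T := by rw [hp]; linarith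
      rw [if_pos h2, hp]
      linarith
    · have hz : ∑ j ∈ range n, (if (1 / 2 : ℝ) ^ j < T then (1 / 2 : ℝ) ^ j else 0) = 0 := by
        refine Finset.sum_eq_zero fun j hj => ?_
        rw [if_neg]
        intro hcon
        apply h
        refine lt_of_le_of_lt ?_ hcon
        exact pow_le_pow_of_le_one (by norm_num) (by norm_num) (Finset.mem_range.1 hj).le
      rw [hz, if_neg h]
      split_ifs with h2
      · linarith
      · linarith

private theorem B4_geom' (T : ℝ) (hT : 0 ≤ T) (n : ℕ) :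
    ∑ j ∈ range n, (if (1 / 2 : ℝ) ^ j < T then (1 / 2 : ℝ) ^ j else 0) ≤ 2 * T := by
  refine le_trans ?_ (B4_geom T hT n)
  have : 0 ≤ 2 * (if (1 / 2 : ℝ) ^ n < T then (1 / 2 : ℝ) ^ n else 0) := by
    split_ifs <;> positivity
  linarith

private theorem B4_sum (hS : SData L E0 g1 R0 X err) (i : Fin 3) (n : ℕ) :
    ∑ j ∈ range n, (1 / 2 : ℝ) ^ j * ((lineStarts L g1 X err i ((1 / 2 : ℝ) ^ j)).card : ℝ) ≤
      2 * E0 := by
  classical
  obtain ⟨T, hT0, hTsum, hTl⟩ := B4_total hS i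
  have h1 : ∀ j ∈ range n,
      (1 / 2 : ℝ) ^ j * ((lineStarts L g1 X err i ((1 / 2 : ℝ) ^ j)).card : ℝ) ≤
        ∑ p ∈ X, (if (1 / 2 : ℝ) ^ j < T p then (1 / 2 : ℝ) ^ j else 0) := by
    intro j _
    have hpos : (0 : ℝ) ≤ (1 / 2 : ℝ) ^ j := by positivity
    rw [← Finset.sum_filter, Finset.sum_const, nsmul_eq_mul, mul_comm]
    refine mul_le_mul_of_nonneg_right ?_ hpos
    have : (lineStarts L g1 X err i ((1 / 2 : ℝ) ^ j)).card ≤
        (X.filter (fun p => (1 / 2 : ℝ) ^ j < T p)).card := by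
      refine Finset.card_le_card fun p hp => ?_
      rw [Finset.mem_filter]
      refine ⟨?_, hTl _ p hp⟩
      rw [lineStarts, Finset.mem_filter] at hp
      exact hp.1
    exact_mod_cast this
  refine (Finset.sum_le_sum h1).trans ?_
  rw [Finset.sum_comm]
  refine (Finset.sum_le_sum fun p _ => B4_geom' (T p) (hT0 p) n).trans ?_
  rw [← Finset.mul_sum]
  linarith

/-- lines of the same type are disjoint (`line_unique`), so the sum of all the totals is at most `3 E0`. Then: for every `κ > 0` there is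
`tmin > 0` depending only on `E0, g1, κ` with some `t ∈ [tmin, κ]` such that `t * (UU t + 10) ≤ κ`. Proof: `sum_j 2^(-j) nw(2^(-j)) ≤ 2 * 3 E0` (sum over the lines of
`sum_{2^(-j) < total} 2^(-j) ≤ 2 total`), so among `J` consecutive `j ≥ j0` one has `2^(-j) nw ≤ 6 E0 / J`; `bad_card` bounds the rest. -/
theorem choose_t (E0 g1 κ : ℝ) (hE : 0 ≤ E0) (hg : 0 < g1) (hκ : 0 < κ) :
    ∃ tmin : ℝ, 0 < tmin ∧ ∀ (L R0 : ℝ) (X : Finset ℂ) (err : ℂ → ℝ), SData L E0 g1 R0 X err →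
      ∃ t, tmin ≤ t ∧ t ≤ κ ∧ t ≤ 1 / 500 ∧ t * (UU L E0 g1 X err t + 10) ≤ κ := by
  set c : ℝ := 2 * (E0 / g1 + 2000) + 4000 * E0 + 10 with hc
  have hc0 : 0 < c := by
    have : 0 ≤ E0 / g1 := by positivity
    rw [hc]; linarith
  obtain ⟨j0, hj0⟩ := exists_pow_lt_of_lt_one
    (show (0 : ℝ) < min κ (min (1 / 500) (κ / (2 * c))) by positivity)
    (by norm_num : (1 / 2 : ℝ) < 1)
  obtain ⟨J, hJ⟩ := exists_nat_gt (12 * E0 / κ)
  refine ⟨(1 / 2 : ℝ) ^ (j0 + J), by positivity, fun L R0 X err hS => ?_⟩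
  have hex : ∃ j, j0 ≤ j ∧ j < j0 + J ∧ (1 / 2 : ℝ) ^ j * (nw L g1 X err ((1 / 2 : ℝ) ^ j) : ℝ) ≤
      κ / 2 := by
    by_contra hcon
    push Not at hcon
    have h1 : ∑ j ∈ range (j0 + J), (1 / 2 : ℝ) ^ j * (nw L g1 X err ((1 / 2 : ℝ) ^ j) : ℝ) ≤
        6 * E0 := by
      have h2 : ∀ j ∈ range (j0 + J),
          (1 / 2 : ℝ) ^ j * (nw L g1 X err ((1 / 2 : ℝ) ^ j) : ℝ) =
          ∑ i, (1 / 2 : ℝ) ^ j * ((lineStarts L g1 X err i ((1 / 2 : ℝ) ^ j)).card : ℝ) := by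
        intro j _
        unfold nw
        push_cast
        rw [Finset.mul_sum]
      rw [Finset.sum_congr rfl h2, Finset.sum_comm]
      refine (Finset.sum_le_sum fun i _ => B4_sum hS i (j0 + J)).trans ?_
      simp
      linarith
    have h3 : ∑ j ∈ Finset.Ico j0 (j0 + J),
        (1 / 2 : ℝ) ^ j * (nw L g1 X err ((1 / 2 : ℝ) ^ j) : ℝ) ≤
        ∑ j ∈ range (j0 + J), (1 / 2 : ℝ) ^ j * (nw L g1 X err ((1 / 2 : ℝ) ^ j) : ℝ) := by
      refine Finset.sum_le_sum_of_subset_of_nonneg ?_ fun j _ _ => by positivity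
      intro j hj
      rw [Finset.mem_Ico] at hj
      exact Finset.mem_range.2 hj.2
    have h4 : ((Finset.Ico j0 (j0 + J)).card : ℝ) * (κ / 2) ≤ ∑ j ∈ Finset.Ico j0 (j0 + J),
        (1 / 2 : ℝ) ^ j * (nw L g1 X err ((1 / 2 : ℝ) ^ j) : ℝ) := by
      rw [← nsmul_eq_mul]
      refine Finset.card_nsmul_le_sum _ _ _ fun j hj => ?_
      rw [Finset.mem_Ico] at hj
      exact (hcon j hj.1 hj.2).le
    rw [Nat.card_Ico, Nat.add_sub_cancel_left] at h4
    have h5 : 6 * E0 < J * (κ / 2) := by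
      rw [div_lt_iff₀ hκ] at hJ
      linarith
    linarith
  obtain ⟨j, hj1, hj2, hj3⟩ := hex
  have hjj : (1 / 2 : ℝ) ^ j ≤ (1 / 2 : ℝ) ^ j0 :=
    pow_le_pow_of_le_one (by norm_num) (by norm_num) hj1
  have hm := hjj.trans hj0.le
  have hm1 : (1 / 2 : ℝ) ^ j ≤ κ := hm.trans (min_le_left _ _)
  have hm2 : (1 / 2 : ℝ) ^ j ≤ 1 / 500 := hm.trans ((min_le_right _ _).trans (min_le_left _ _))
  have hm3 : (1 / 2 : ℝ) ^ j ≤ κ / (2 * c) :=
    hm.trans ((min_le_right _ _).trans (min_le_right _ _))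
  refine ⟨(1 / 2 : ℝ) ^ j, pow_le_pow_of_le_one (by norm_num) (by norm_num) hj2.le, hm1, hm2, ?_⟩
  have hbad := bad_card hS
  have hpos : (0 : ℝ) ≤ (1 / 2 : ℝ) ^ j := by positivity
  have hcc : (1 / 2 : ℝ) ^ j * c ≤ κ / 2 := by
    rw [le_div_iff₀ (by positivity)] at hm3
    linarith
  have hle : UU L E0 g1 X err ((1 / 2 : ℝ) ^ j) + 10 ≤ c + nw L g1 X err ((1 / 2 : ℝ) ^ j) := by
    unfold UU
    rw [hc]
    linarith
  calc (1 / 2 : ℝ) ^ j * (UU L E0 g1 X err ((1 / 2 : ℝ) ^ j) + 10)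
      ≤ (1 / 2 : ℝ) ^ j * (c + nw L g1 X err ((1 / 2 : ℝ) ^ j)) :=
        mul_le_mul_of_nonneg_left hle hpos
    _ = (1 / 2 : ℝ) ^ j * c + (1 / 2 : ℝ) ^ j * nw L g1 X err ((1 / 2 : ℝ) ^ j) := by ring
    _ ≤ κ := by linarith

end H24
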