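import Pool.Agent.Lib_MP_27c196_co.S.A1
import Pool.Agent.Lib_MP_27c196_co.S.A2

/-! H24 S, piece C1a: quiet balls -/

set_option linter.unusedVariables false

noncomputable section

namespace H24

open Finset

variable {L E0 g1 R0 : ℝ} {X : Finset ℂ} {err : ℂ → ℝ}

open Classical in
/-- a quiet ball: all its points of `X` are good interior points and their total error is at most `1/1000` -/
def Quiet (L g1 : ℝ) (X : Finset ℂ) (err : ℂ → ℝ) (c : ℂ) (ρ : ℝ) : Prop :=
  (∀ p ∈ X, ‖p - c‖ ≤ ρ → GInt L g1 X err p) ∧ ∑ p ∈ X.filter (fun p => ‖p - c‖ ≤ ρ), err p ≤ 1 / 1000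

private theorem C1a_drift {v : ℂ} {P : ℕ → ℂ} {K : ℕ}
    (hs : ∀ i < K, ‖P (i + 1) - P i - v‖ ≤ 1 / 40) (a : ℕ) :
    ∀ k : ℕ, a + k ≤ K → ‖P (a + k) - P a - (k : ℂ) * v‖ ≤ (k : ℝ) * (1 / 40) := by
  intro k
  induction k with
  | zero => intro _; simp
  | succ k ih =>
    intro hk
    have h1 := ih (by omega)
    have h2 := hs (a + k) (by omega)
    have h3 : P (a + (k + 1)) - P a - ((k + 1 : ℕ) : ℂ) * v =
        (P (a + k) - P a - (k : ℂ) * v) + (P (a + k + 1) - P (a + k) - v) := by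
      rw [← add_assoc]; push_cast; ring
    rw [h3]
    refine (norm_add_le _ _).trans ?_
    push_cast
    linarith

private theorem C1a_inj {v : ℂ} (hv : ‖v‖ = 1) {P : ℕ → ℂ} {K : ℕ}
    (hs : ∀ i < K, ‖P (i + 1) - P i - v‖ ≤ 1 / 40) {a b : ℕ} (ha : a ≤ K) (hb : b ≤ K)
    (h : P a = P b) : a = b := by
  have key : ∀ {a b : ℕ}, a ≤ K → b ≤ K → P a = P b → a < b → False := by
    intro a b ha hb h hab
    obtain ⟨k, rfl⟩ : ∃ k, b = a + k := ⟨b - a, by omega⟩
    have h1 := C1a_drift hs a k hb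
    rw [← h, sub_self, zero_sub, norm_neg, norm_mul, hv, mul_one, Complex.norm_natCast] at h1
    have hk : (0 : ℝ) < k := by exact_mod_cast (by omega : 0 < k)
    linarith
  rcases lt_trichotomy a b with h' | h' | h'
  · exact (key ha hb h h').elim
  · exact h'
  · exact (key hb ha h.symm h').elim

private theorem C1a_ball {v c : ℂ} (hv : ‖v‖ = 1) {P : ℕ → ℂ} {K : ℕ}
    (hs : ∀ i < K, ‖P (i + 1) - P i - v‖ ≤ 1 / 40) {i : ℕ} (hi : i ≤ K) :
    ‖P i - c‖ ≤ ‖P 0 - c‖ + 1.1 * i := by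
  have h1 := C1a_drift hs 0 i (by omega)
  rw [zero_add] at h1
  have h2 : P i - c = (P i - P 0 - (i : ℂ) * v) + (i : ℂ) * v + (P 0 - c) := by ring
  rw [h2]
  refine (norm_add_le _ _).trans ?_
  have h3 := norm_add_le (P i - P 0 - (i : ℂ) * v) ((i : ℂ) * v)
  have h4 : ‖(i : ℂ) * v‖ = i := by rw [norm_mul, hv, mul_one, Complex.norm_natCast]
  have h5 : (0 : ℝ) ≤ i := Nat.cast_nonneg i
  rw [h4] at h3
  linarith

open Classical in
/-- continue with `opposite` inside the ball; the directions change by at most `2 * (1/1000)` in total -/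
theorem quiet_row_C1a (hS : SData L E0 g1 R0 X err) {c : ℂ} {ρ : ℝ} (hq : Quiet L g1 X err c ρ) {p r v : ℂ}
    (hp : p ∈ X) (hr : r ∈ X) (hv : ‖v‖ = 1) (h : ‖r - p - v‖ ≤ 1 / 50) {n : ℕ} (hn : ‖p - c‖ + 1.1 * (n + 1) ≤ ρ) :
    ∃ P : ℕ → ℂ, P 0 = p ∧ (∀ i ≤ n, P i ∈ X ∧ ‖P i - c‖ ≤ ρ) ∧ ∀ i < n, ‖P (i + 1) - P i - v‖ ≤ 1 / 40 := by
  let nx : ℂ → ℂ → ℂ := fun a b => if h : ∃ r' ∈ X, ‖r' - 2 * b + a‖ ≤ 2 * err b then h.choose else b
  have hnx : ∀ a b : ℂ, (∃ r' ∈ X, ‖r' - 2 * b + a‖ ≤ 2 * err b) →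
      nx a b ∈ X ∧ ‖nx a b - 2 * b + a‖ ≤ 2 * err b := by
    intro a b hab
    have e : nx a b = hab.choose := dif_pos hab
    rw [e]
    exact hab.choose_spec
  let Q : ℕ → ℂ × ℂ := fun k => Nat.rec (p, r) (fun _ q => (q.2, nx q.1 q.2)) k
  let P : ℕ → ℂ := fun i => (Q i).1
  have hP0 : P 0 = p := rfl
  have hP1 : P 1 = r := rfl
  have hP2 : ∀ i, P (i + 2) = nx (P i) (P (i + 1)) := fun i => rfl
  have key : ∀ k : ℕ, k ≤ n → (∀ i ≤ k + 1, P i ∈ X) ∧
      (∀ i ≤ k, ‖P (i + 1) - P i - v‖ ≤ 1 / 50 + 2 * ∑ j ∈ range i, err (P (j + 1))) ∧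
      (∀ i ≤ k, ∑ j ∈ range i, err (P (j + 1)) ≤ 1 / 1000) := by
    intro k
    induction k with
    | zero =>
      intro _
      refine ⟨fun i hi => ?_, fun i hi => ?_, fun i hi => ?_⟩
      · rcases Nat.le_one_iff_eq_zero_or_eq_one.mp hi with rfl | rfl
        · exact hp
        · exact hr
      · obtain rfl : i = 0 := by omega
        rw [range_zero, sum_empty, mul_zero, add_zero]
        exact h
      · obtain rfl : i = 0 := by omega
        rw [range_zero, sum_empty]
        norm_num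
    | succ k ih =>
      intro hk
      obtain ⟨h1, h2, h3⟩ := ih (by omega)
      have hs : ∀ i < k + 1, ‖P (i + 1) - P i - v‖ ≤ 1 / 40 := by
        intro i hi
        have a1 := h2 i (by omega)
        have a2 := h3 i (by omega)
        linarith
      have hball : ∀ i ≤ k + 1, ‖P i - c‖ ≤ ρ := by
        intro i hi
        have a1 := C1a_ball (c := c) hv hs hi
        have a2 : (i : ℝ) ≤ (n : ℝ) := by exact_mod_cast (by omega : i ≤ n)
        rw [hP0] at a1
        linarith
      have hsum : ∑ j ∈ range (k + 1), err (P (j + 1)) ≤ 1 / 1000 := by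
        have e1 : ∑ j ∈ range (k + 1), err (P (j + 1)) =
            ∑ z ∈ (range (k + 1)).image (fun j => P (j + 1)), err z := by
          rw [Finset.sum_image]
          intro a ha b hb hab
          have ha' : a < k + 1 := mem_range.mp ha
          have hb' : b < k + 1 := mem_range.mp hb
          have := C1a_inj hv hs (a := a + 1) (b := b + 1) (by omega) (by omega) hab
          omega
        rw [e1]
        refine le_trans ?_ hq.2
        refine Finset.sum_le_sum_of_subset_of_nonneg (fun z hz => ?_) fun z _ _ => hS.errpos z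
        rw [mem_image] at hz
        obtain ⟨j, hj, rfl⟩ := hz
        rw [mem_range] at hj
        rw [mem_filter]
        exact ⟨h1 (j + 1) (by omega), hball (j + 1) (by omega)⟩
      have hg : GInt L g1 X err (P (k + 1)) := hq.1 _ (h1 (k + 1) le_rfl) (hball (k + 1) le_rfl)
      have hst := hs k (by omega)
      have hne : P k ≠ P (k + 1) := by
        intro he
        rw [he, sub_self, zero_sub, norm_neg, hv] at hst
        norm_num at hst
      have hle : ‖P k - P (k + 1)‖ ≤ 11 / 10 := by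
        rw [norm_sub_rev]
        have e : P (k + 1) - P k = (P (k + 1) - P k - v) + v := by ring
        rw [e]
        refine (norm_add_le _ _).trans ?_
        rw [hv]
        linarith
      obtain ⟨hX, hb⟩ := hnx _ _ (opposite hS hg (h1 k (by omega)) hne hle)
      rw [← hP2 k] at hX hb
      refine ⟨fun i hi => ?_, fun i hi => ?_, fun i hi => ?_⟩
      · rcases Nat.lt_or_ge i (k + 2) with h4 | h4
        · exact h1 i (by omega)
        · obtain rfl : i = k + 2 := by omega
          exact hX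
      · rcases Nat.lt_or_ge i (k + 1) with h4 | h4
        · exact h2 i (by omega)
        · obtain rfl : i = k + 1 := by omega
          have e : P (k + 1 + 1) - P (k + 1) - v =
              (P (k + 2) - 2 * P (k + 1) + P k) + (P (k + 1) - P k - v) := by ring
          rw [e, Finset.sum_range_succ]
          refine (norm_add_le _ _).trans ?_
          have a1 := h2 k le_rfl
          linarith
      · rcases Nat.lt_or_ge i (k + 1) with h4 | h4
        · exact h3 i (by omega)
        · obtain rfl : i = k + 1 := by omega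
          exact hsum
  obtain ⟨h1, h2, h3⟩ := key n le_rfl
  have hs : ∀ i < n + 1, ‖P (i + 1) - P i - v‖ ≤ 1 / 40 := by
    intro i hi
    have a1 := h2 i (by omega)
    have a2 := h3 i (by omega)
    linarith
  refine ⟨P, hP0, fun i hi => ⟨h1 i (by omega), ?_⟩, fun i hi => hs i (by omega)⟩
  have a1 := C1a_ball (c := c) hv hs (i := i) (by omega)
  have a2 : (i : ℝ) ≤ (n : ℝ) := by exact_mod_cast hi
  rw [hP0] at a1
  linarith

/-- a point of the triangle with all heights at least `L/10`, not close to `z` -/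
private theorem C1a_target {L : ℝ} (hL : 0 < L) {z : ℂ} (hz : ∀ i, 0 ≤ H L i z) :
    ∃ G : ℂ, (∀ i, L / 10 ≤ H L i G) ∧ L / 10 ≤ ‖G - z‖ ∧ ‖G - z‖ ≤ 13 / 10 * L := by
  have h3 := sqrt3_pos
  have hsum := H_sum L z
  have hup : ∀ i, H L i z ≤ L := by
    intro i
    have a0 := hz 0
    have a1 := hz 1
    have a2 := hz 2
    fin_cases i <;> simp only [Fin.zero_eta, Fin.mk_one, Fin.reduceFinMk] <;> linarith
  have build : ∀ G : ℂ, (∀ i, L / 10 ≤ H L i G) → 3 * L / 10 ≤ |H L 0 G - H L 0 z| →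
      L / 10 ≤ ‖G - z‖ ∧ ‖G - z‖ ≤ 13 / 10 * L := by
    intro G hG hd
    have hGs := H_sum L G
    have hGup : ∀ i, H L i G ≤ L := by
      intro i
      have a0 := hG 0
      have a1 := hG 1
      have a2 := hG 2
      fin_cases i <;> simp only [Fin.zero_eta, Fin.mk_one, Fin.reduceFinMk] <;> linarith
    constructor
    · have := H_lip L 0 G z
      linarith
    · have := norm_le_of_H L G z L (fun i => by
        rw [abs_le]
        constructor
        · have := hz i; have := hup i; have := hG i; have := hGup i; linarith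
        · have := hz i; have := hup i; have := hG i; have := hGup i; linarith)
      linarith
  rcases le_total (H L 0 z) (L / 2) with hc | hc
  · have e0 : H L 0 ⟨L / 2, √3 * (4 * L / 10)⟩ = 8 * L / 10 := by
      simp only [H, if_pos]; field_simp; ring
    have e1 : H L 1 ⟨L / 2, √3 * (4 * L / 10)⟩ = L / 10 := by
      simp [H]; field_simp; ring
    have e2 : H L 2 ⟨L / 2, √3 * (4 * L / 10)⟩ = L / 10 := by
      simp [H]; field_simp; ring
    have hG : ∀ i, L / 10 ≤ H L i ⟨L / 2, √3 * (4 * L / 10)⟩ := by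
      intro i
      fin_cases i
      · simp only [Fin.zero_eta]; rw [e0]; linarith
      · simp only [Fin.mk_one]; rw [e1]
      · simp only [Fin.reduceFinMk]; rw [e2]
    refine ⟨_, hG, build _ hG ?_⟩
    rw [e0]
    refine le_trans ?_ (le_abs_self _)
    linarith
  · have e0 : H L 0 ⟨85 * L / 100, √3 * (5 * L / 100)⟩ = L / 10 := by
      simp only [H, if_pos]; field_simp; ring
    have e1 : H L 1 ⟨85 * L / 100, √3 * (5 * L / 100)⟩ = 8 * L / 10 := by
      simp [H]; field_simp; ring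
    have e2 : H L 2 ⟨85 * L / 100, √3 * (5 * L / 100)⟩ = L / 10 := by
      simp [H]; field_simp; ring
    have hG : ∀ i, L / 10 ≤ H L i ⟨85 * L / 100, √3 * (5 * L / 100)⟩ := by
      intro i
      fin_cases i
      · simp only [Fin.zero_eta]; rw [e0]
      · simp only [Fin.mk_one]; rw [e1]; linarith
      · simp only [Fin.reduceFinMk]; rw [e2]
    refine ⟨_, hG, build _ hG ?_⟩
    rw [e0, abs_sub_comm]
    refine le_trans ?_ (le_abs_self _)
    linarith

private theorem C1a_H_line (L : ℝ) (i : Fin 3) (z G : ℂ) (s : ℝ) :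
    H L i (z + (s : ℂ) * (G - z)) = (1 - s) * H L i z + s * H L i G := by
  rw [H_add, H_smul, ← H_sub]
  ring

open Classical in
/-- a ball far from the walls is quiet or has total error at least `g1` -/
private theorem C1a_quiet_or (hS : SData L E0 g1 R0 X err) {c : ℂ} {ρ : ℝ} (hρ : 10 ≤ ρ)
    (hc : ∀ i, 2 * ρ ≤ H L i c) :
    Quiet L g1 X err c ρ ∨ g1 ≤ ∑ p ∈ X.filter (fun p => ‖p - c‖ ≤ ρ), err p := by
  by_cases hsum : ∑ p ∈ X.filter (fun p => ‖p - c‖ ≤ ρ), err p ≤ 1 / 1000
  · by_cases hbad : ∃ p ∈ X, ‖p - c‖ ≤ ρ ∧ g1 < err p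
    · right
      obtain ⟨p, hp, hpc, hpe⟩ := hbad
      refine hpe.le.trans ?_
      exact Finset.single_le_sum (f := err) (fun z _ => hS.errpos z)
        (by rw [mem_filter]; exact ⟨hp, hpc⟩)
    · left
      push Not at hbad
      refine ⟨fun p hp hpc => ?_, hsum⟩
      have he := hbad p hp hpc
      have hH : ∀ i, 8 ≤ H L i p := by
        intro i
        have a1 := H_lip L i p c
        have a2 := (abs_le.mp a1).1
        have a3 := hc i
        linarith
      have hHs := H_sum L p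
      have hup : ∀ i, H L i p ≤ L - 5 := by
        intro i
        have a0 := hH 0
        have a1 := hH 1
        have a2 := hH 2
        fin_cases i <;> simp only [Fin.zero_eta, Fin.mk_one, Fin.reduceFinMk] <;> linarith
      refine ⟨hp, he, hup, ?_⟩
      rcases hS.good p hp he hup with h | ⟨i, h⟩
      · exact h
      · exfalso
        have a1 := h.1
        have a2 := hH i
        have a3 := hS.g1le
        linarith
  · right
    have := hS.g1le
    linarith

open Classical in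
/-- Let `M` be a natural number with `M ≥ |Bad| + 1000 E0 + 1` (`bad_card`). Among `M` disjoint balls of radius `ρ`, far from the walls (all heights of their points
at least `1` and hence at most `L - 5` and not at a wall), one contains no bad point and has total error `≤ 1/1000`, since otherwise every ball would contain
a bad point or error `> 1/1000`. Centres: let `G'` be one of the three points with two heights `L/10` and the third `8L/10`, with `‖G' - z‖ ≥ L/10`;
`c_j = z + (3 j ρ / ‖G' - z‖) (G' - z)`, `7 ≤ j < 7 + M`: `H i (c_j) ≥ (3 j ρ / ‖G' - z‖) * L/10 ≥ 3 j ρ / 10 ≥ 2.1 ρ` (`‖G' - z‖ ≤ L`). -/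
theorem exists_quiet_C1a (hE : 0 ≤ E0) (hg : 0 < g1) (R0 : ℝ) : ∃ C : ℝ, 1 ≤ C ∧ ∀ (L : ℝ) (X : Finset ℂ) (err : ℂ → ℝ),
    SData L E0 g1 R0 X err → ∀ ρ : ℝ, 10 ≤ ρ → C * ρ ≤ L → ∀ z, (∀ i, 0 ≤ H L i z) →
      ∃ c, ‖c - z‖ ≤ C * ρ ∧ (∀ i, 2 * ρ ≤ H L i c) ∧ Quiet L g1 X err c ρ := by
  obtain ⟨M, hM⟩ := exists_nat_gt (E0 / g1)
  have hM0 : (0 : ℝ) ≤ M := Nat.cast_nonneg M
  refine ⟨30 * ((M : ℝ) + 10), by linarith, fun L X err hS ρ hρ hL z hz => ?_⟩
  have hLpos : 0 < L := by have := hS.L20; linarith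
  obtain ⟨G, hG, hG1, hG2⟩ := C1a_target hLpos hz
  have hD : 0 < ‖G - z‖ := by
    have : 0 < L / 10 := by positivity
    linarith
  let s : ℕ → ℝ := fun j => 3 * ((j : ℝ) + 10) * ρ / ‖G - z‖
  let c : ℕ → ℂ := fun j => z + (s j : ℂ) * (G - z)
  have hρ0 : 0 < ρ := by linarith
  have hs0 : ∀ j, 0 ≤ s j := by
    intro j
    have : (0 : ℝ) ≤ j := Nat.cast_nonneg j
    show 0 ≤ 3 * ((j : ℝ) + 10) * ρ / ‖G - z‖
    positivity
  have hsD : ∀ j, s j * ‖G - z‖ = 3 * ((j : ℝ) + 10) * ρ := by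
    intro j
    show 3 * ((j : ℝ) + 10) * ρ / ‖G - z‖ * ‖G - z‖ = _
    field_simp
  have hcz : ∀ j, ‖c j - z‖ = 3 * ((j : ℝ) + 10) * ρ := by
    intro j
    have e : c j - z = (s j : ℂ) * (G - z) := by
      show z + (s j : ℂ) * (G - z) - z = _
      ring
    rw [e, norm_mul, Complex.norm_real, Real.norm_of_nonneg (hs0 j), hsD]
  have hcz' : ∀ j < M, ‖c j - z‖ ≤ 30 * ((M : ℝ) + 10) * ρ := by
    intro j hj
    rw [hcz]
    have hj' : (j : ℝ) ≤ M := by exact_mod_cast hj.le
    have hj0 : (0 : ℝ) ≤ j := Nat.cast_nonneg j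
    nlinarith
  have hs1 : ∀ j < M, s j ≤ 1 := by
    intro j hj
    have hj' : (j : ℝ) ≤ M := by exact_mod_cast hj.le
    show 3 * ((j : ℝ) + 10) * ρ / ‖G - z‖ ≤ 1
    rw [div_le_one hD]
    nlinarith
  have hcH : ∀ j < M, ∀ i, 2 * ρ ≤ H L i (c j) := by
    intro j hj i
    have e : H L i (c j) = (1 - s j) * H L i z + s j * H L i G := C1a_H_line L i z G (s j)
    rw [e]
    have a1 : 0 ≤ (1 - s j) * H L i z := mul_nonneg (by linarith [hs1 j hj]) (hz i)
    have a2 : s j * (L / 10) ≤ s j * H L i G := mul_le_mul_of_nonneg_left (hG i) (hs0 j)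
    have a3 : 3 * ((j : ℝ) + 10) * ρ ≤ s j * (13 / 10 * L) := by
      rw [← hsD j]
      exact mul_le_mul_of_nonneg_left hG2 (hs0 j)
    have hj0 : (0 : ℝ) ≤ j * ρ := mul_nonneg (Nat.cast_nonneg j) hρ0.le
    nlinarith
  have hcc : ∀ j k, ‖c j - c k‖ = 3 * |(j : ℝ) - k| * ρ := by
    intro j k
    have e : c j - c k = ((s j - s k : ℝ) : ℂ) * (G - z) := by
      show z + (s j : ℂ) * (G - z) - (z + (s k : ℂ) * (G - z)) = _
      push_cast
      ring
    rw [e, norm_mul, Complex.norm_real, Real.norm_eq_abs]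
    have e2 : s j - s k = 3 * ((j : ℝ) - k) * ρ / ‖G - z‖ := by
      show 3 * ((j : ℝ) + 10) * ρ / ‖G - z‖ - 3 * ((k : ℝ) + 10) * ρ / ‖G - z‖ = _
      ring
    rw [e2, abs_div, abs_mul, abs_mul, abs_of_pos hρ0, abs_of_pos hD]
    have : |(3 : ℝ)| = 3 := abs_of_pos (by norm_num)
    rw [this]
    field_simp
  by_contra hno
  push Not at hno
  have hbig : ∀ j ∈ range M, g1 ≤ ∑ p ∈ X.filter (fun p => ‖p - c j‖ ≤ ρ), err p := by
    intro j hj
    rw [mem_range] at hj
    rcases C1a_quiet_or hS hρ (hcH j hj) with h | h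
    · exact (hno (c j) (hcz' j hj) (hcH j hj) h).elim
    · exact h
  have hdis : Set.PairwiseDisjoint (↑(range M) : Set ℕ)
      (fun j => X.filter (fun p => ‖p - c j‖ ≤ ρ)) := by
    intro j _ k _ hjk
    show Disjoint (X.filter (fun p => ‖p - c j‖ ≤ ρ)) (X.filter (fun p => ‖p - c k‖ ≤ ρ))
    rw [Finset.disjoint_left]
    intro p hp hp'
    rw [mem_filter] at hp hp'
    have h1 : ‖c j - c k‖ ≤ ρ + ρ := by
      have e : c j - c k = -(p - c j) + (p - c k) := by ring
      rw [e]
      refine (norm_add_le _ _).trans ?_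
      rw [norm_neg]
      linarith [hp.2, hp'.2]
    rw [hcc] at h1
    have h2 : (1 : ℝ) ≤ |(j : ℝ) - k| := by
      have : (1 : ℤ) ≤ |(j : ℤ) - k| := Int.one_le_abs (by omega)
      exact_mod_cast this
    nlinarith
  have hsum : ∑ j ∈ range M, ∑ p ∈ X.filter (fun p => ‖p - c j‖ ≤ ρ), err p ≤ E0 := by
    rw [← Finset.sum_biUnion hdis]
    refine le_trans ?_ hS.errsum
    refine Finset.sum_le_sum_of_subset_of_nonneg (fun p hp => ?_) fun p _ _ => hS.errpos p
    rw [mem_biUnion] at hp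
    obtain ⟨j, _, hj⟩ := hp
    exact (mem_filter.mp hj).1
  have h1 := Finset.sum_le_sum hbig
  rw [Finset.sum_const, card_range, nsmul_eq_mul] at h1
  rw [div_lt_iff₀ hg] at hM
  linarith

end H24
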