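import Pool.Agent.Lib_MP_27c196_co.S.B4
import Pool.Agent.Lib_MP_27c196_co.S.C1a

/-! H24 S, piece C1: quiet balls and density of the clean lines (blueprint S6) -/

set_option linter.unusedVariables false
set_option linter.unusedSimpArgs false

noncomputable section

namespace H24

open Finset

variable {L E0 g1 R0 : ℝ} {X : Finset ℂ} {err : ℂ → ℝ}

/-- continue with `opposite` inside the ball; the directions change by at most `2 * (1/1000)` in total -/
theorem quiet_row (hS : SData L E0 g1 R0 X err) {c : ℂ} {ρ : ℝ} (hq : Quiet L g1 X err c ρ) {p r v : ℂ}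
    (hp : p ∈ X) (hr : r ∈ X) (hv : ‖v‖ = 1) (h : ‖r - p - v‖ ≤ 1 / 50) {n : ℕ} (hn : ‖p - c‖ + 1.1 * (n + 1) ≤ ρ) :
    ∃ P : ℕ → ℂ, P 0 = p ∧ (∀ i ≤ n, P i ∈ X ∧ ‖P i - c‖ ≤ ρ) ∧ ∀ i < n, ‖P (i + 1) - P i - v‖ ≤ 1 / 40 :=
  quiet_row_C1a hS hq hp hr hv h hn

/-- Let `M` be a natural number with `M ≥ |Bad| + 1000 E0 + 1` (`bad_card`). Among `M` disjoint balls of radius `ρ`, far from the walls (all heights of their points
at least `1` and hence at most `L - 5` and not at a wall), one contains no bad point and has total error `≤ 1/1000`, since otherwise every ball would contain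
a bad point or error `> 1/1000`. Centres: let `G'` be one of the three points with two heights `L/10` and the third `8L/10`, with `‖G' - z‖ ≥ L/10`;
`c_j = z + (3 j ρ / ‖G' - z‖) (G' - z)`, `7 ≤ j < 7 + M`: `H i (c_j) ≥ (3 j ρ / ‖G' - z‖) * L/10 ≥ 3 j ρ / 10 ≥ 2.1 ρ` (`‖G' - z‖ ≤ L`). -/
theorem exists_quiet (hE : 0 ≤ E0) (hg : 0 < g1) (R0 : ℝ) : ∃ C : ℝ, 1 ≤ C ∧ ∀ (L : ℝ) (X : Finset ℂ) (err : ℂ → ℝ),
    SData L E0 g1 R0 X err → ∀ ρ : ℝ, 10 ≤ ρ → C * ρ ≤ L → ∀ z, (∀ i, 0 ≤ H L i z) →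
      ∃ c, ‖c - z‖ ≤ C * ρ ∧ (∀ i, 2 * ρ ≤ H L i c) ∧ Quiet L g1 X err c ρ :=
  exists_quiet_C1a hE hg R0

private theorem C1_w6_sq : w6 ^ 2 = w6 - 1 := by
  apply Complex.ext
  · have h3 := sqrt3_sq
    simp [w6, pow_two, Complex.mul_re]
    nlinarith
  · simp [w6, pow_two, Complex.mul_im]
    ring

private theorem C1_UU_nonneg (hE : 0 ≤ E0) (t : ℝ) : 0 ≤ UU L E0 g1 X err t := by
  unfold UU
  positivity

private theorem C1_E0 (hS : SData L E0 g1 R0 X err) : 0 ≤ E0 :=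
  le_trans (Finset.sum_nonneg fun p _ => hS.errpos p) hS.errsum

/-- the total displacement of a row -/
private theorem C1_drift {v : ℂ} {N : ℕ} {P : ℕ → ℂ} (hP : ∀ i < N, ‖P (i + 1) - P i - v‖ ≤ 1 / 40) (a : ℕ) :
    ∀ k : ℕ, a + k ≤ N → ‖P (a + k) - P a - (k : ℂ) * v‖ ≤ (k : ℝ) * (1 / 40) := by
  intro k
  induction k with
  | zero => intro _; simp
  | succ k ih =>
    intro hk
    have h1 := ih (by omega)
    have h2 := hP (a + k) (by omega)
    have h3 : P (a + (k + 1)) - P a - ((k + 1 : ℕ) : ℂ) * v =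
        (P (a + k) - P a - (k : ℂ) * v) + (P (a + k + 1) - P (a + k) - v) := by
      rw [← add_assoc]; push_cast; ring
    rw [h3]
    refine (norm_add_le _ _).trans ?_
    push_cast
    linarith

/-- `|Im (v * conj (v * w6))| = √3 / 2` -/
private theorem C1_im {v : ℂ} (hv : ‖v‖ = 1) : (v * (starRingEnd ℂ) (v * w6)).im = -(√3 / 2) := by
  have h1 : v * (starRingEnd ℂ) (v * w6) = (Complex.normSq v : ℂ) * (starRingEnd ℂ) w6 := by
    rw [map_mul, ← mul_assoc, Complex.mul_conj]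
  rw [h1, Complex.normSq_eq_norm_sq, hv]
  simp [w6]

private theorem C1_sep {v : ℂ} (hv : ‖v‖ = 1) {D : ℂ} {k : ℕ} (hk : 0 < k) (h : ‖D - (k : ℂ) * v‖ ≤ (k : ℝ) * (1 / 40)) :
    0 < ‖D‖ ∧ ‖D‖ / 2 ≤ |(D * (starRingEnd ℂ) (v * w6)).im| := by
  have hk' : (1 : ℝ) ≤ k := by exact_mod_cast hk
  have hkv : ‖(k : ℂ) * v‖ = k := by rw [norm_mul, hv, mul_one, Complex.norm_natCast]
  have h1 : ‖D‖ ≤ k * (41 / 40) := by
    have : D = (D - (k : ℂ) * v) + (k : ℂ) * v := by ring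
    rw [this]
    refine (norm_add_le _ _).trans ?_
    rw [hkv]
    linarith
  have h2 : k * (39 / 40) ≤ ‖D‖ := by
    have : (k : ℂ) * v = D - (D - (k : ℂ) * v) := by ring
    have h3 := norm_sub_le D (D - (k : ℂ) * v)
    rw [← this, hkv] at h3
    linarith
  refine ⟨by linarith, ?_⟩
  have hw : ‖v * w6‖ = 1 := by rw [norm_mul, hv, w6_norm, mul_one]
  have h4 : (D * (starRingEnd ℂ) (v * w6)).im =
      (k : ℝ) * (v * (starRingEnd ℂ) (v * w6)).im + ((D - (k : ℂ) * v) * (starRingEnd ℂ) (v * w6)).im := by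
    have h5 : D * (starRingEnd ℂ) (v * w6) = ((k : ℝ) : ℂ) * (v * (starRingEnd ℂ) (v * w6)) +
        (D - (k : ℂ) * v) * (starRingEnd ℂ) (v * w6) := by push_cast; ring
    rw [h5, Complex.add_im, Complex.im_ofReal_mul]
  have h6 : |((D - (k : ℂ) * v) * (starRingEnd ℂ) (v * w6)).im| ≤ k * (1 / 40) := by
    refine (Complex.abs_im_le_norm _).trans ?_
    rw [norm_mul, Complex.norm_conj, hw, mul_one]
    exact h
  rw [h4, C1_im hv]
  have h7 := abs_le.mp h6
  have h8 := sqrt3_gt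
  rw [le_abs]
  right
  have h9 : (1.73 : ℝ) * k ≤ √3 * k := by
    exact mul_le_mul_of_nonneg_right h8.le (by linarith)
  linarith [h7.1, h7.2]

/-- one direction of lines in a quiet ball -/
private theorem C1_dir (hS : SData L E0 g1 R0 X err) {t : ℝ} (ht0 : 0 < t) (ht : t ≤ 1 / 500) {c : ℂ} {ρ : ℝ}
    (hq : Quiet L g1 X err c ρ) {p r v : ℂ} (hp : p ∈ X) (hr : r ∈ X) (hv : ‖v‖ = 1) (h : ‖r - p - v‖ ≤ 1 / 50)
    (hρ : ‖p - c‖ + 1.1 * (UU L E0 g1 X err t + 2) ≤ ρ) :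
    ∃ i x, OnLine L g1 X err t i x ∧ ‖x - c‖ ≤ ρ ∧ (‖v * w6 - dirv i‖ ≤ 1 / 10 ∨ ‖v * w6 + dirv i‖ ≤ 1 / 10) := by
  classical
  have hE := C1_E0 hS
  have hU : 0 ≤ UU L E0 g1 X err t := C1_UU_nonneg hE t
  set n : ℕ := ⌊UU L E0 g1 X err t⌋₊ with hn
  have hn1 : (n : ℝ) ≤ UU L E0 g1 X err t := Nat.floor_le hU
  have hn2 : UU L E0 g1 X err t < n + 1 := Nat.lt_floor_add_one _
  obtain ⟨P, hP0, hPX, hPs⟩ := quiet_row hS hq hp hr hv h (n := n + 1) (by push_cast; linarith)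
  have hw : ‖v * w6‖ = 1 := by rw [norm_mul, hv, w6_norm, mul_one]
  -- injectivity and transversality
  have hsep : ∀ a b : ℕ, a < b → b ≤ n + 1 → 0 < ‖P b - P a‖ ∧
      ‖P b - P a‖ / 2 ≤ |((P b - P a) * (starRingEnd ℂ) (v * w6)).im| := by
    intro a b hab hb
    obtain ⟨k, rfl⟩ : ∃ k, b = a + k := ⟨b - a, by omega⟩
    exact C1_sep hv (by omega) (C1_drift hPs a k hb)
  set A : Finset ℂ := (range (n + 1)).image P with hA
  have hinj : Set.InjOn P (range (n + 1) : Set ℕ) := by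
    intro a ha b hb hab
    rw [Finset.mem_coe, mem_range] at ha hb
    rcases lt_trichotomy a b with h' | h' | h'
    · have := (hsep a b h' (by omega)).1
      rw [hab, sub_self, norm_zero] at this
      exact absurd this (lt_irrefl _)
    · exact h'
    · have := (hsep b a h' (by omega)).1
      rw [hab, sub_self, norm_zero] at this
      exact absurd this (lt_irrefl _)
  have hcard : A.card = n + 1 := by
    rw [hA, Finset.card_image_of_injOn hinj, card_range]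
  have herr : ∀ x ∈ X, ‖x - c‖ ≤ ρ → err x ≤ 1 / 1000 := by
    intro x hx hxc
    refine le_trans ?_ hq.2
    exact Finset.single_le_sum (f := err) (fun y _ => hS.errpos y) (by rw [mem_filter]; exact ⟨hx, hxc⟩)
  have hrot : ∀ x ∈ A, ∀ j : ℕ, ∃ q ∈ X, ‖q - x - v * w6 ^ j‖ ≤ 1 / 20 := by
    intro x hx j
    rw [hA, mem_image] at hx
    obtain ⟨a, ha, rfl⟩ := hx
    rw [mem_range] at ha
    obtain ⟨hX, hc⟩ := hPX a (by omega)
    obtain ⟨hX', hc'⟩ := hPX (a + 1) (by omega)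
    obtain ⟨r', hr', h'⟩ := rotate hS (hq.1 _ hX hc) hX' hv (by norm_num) (hPs a (by omega)) j
    exact ⟨r', hr', h'.trans (by have := herr _ hX hc; linarith)⟩
  have hkey := trans_lemma hS ht0 ht hw A (fun x hx => by
      rw [hA, mem_image] at hx
      obtain ⟨a, ha, rfl⟩ := hx
      rw [mem_range] at ha
      obtain ⟨hX, hc⟩ := hPX a (by omega)
      exact hq.1 _ hX hc)
    (fun x hx => by
      obtain ⟨q, hq, h1⟩ := hrot x hx 1
      exact ⟨q, hq, by rwa [pow_one] at h1⟩)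
    (fun x hx => by
      obtain ⟨q, hq, h1⟩ := hrot x hx 4
      refine ⟨q, hq, ?_⟩
      have h2 : w6 ^ 4 = -w6 := by
        have : w6 ^ 4 = w6 ^ 3 * w6 := by ring
        rw [this, w6_cube]; ring
      rw [h2] at h1
      have h3 : q - x + v * w6 = q - x - v * -w6 := by ring
      rw [h3]
      exact h1)
    (fun x hx y hy hxy => by
      rw [hA, mem_image] at hx hy
      obtain ⟨a, ha, rfl⟩ := hx
      obtain ⟨b, hb, rfl⟩ := hy
      rw [mem_range] at ha hb
      rcases lt_trichotomy a b with h' | h' | h'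
      · exact (hsep a b h' (by omega)).2
      · exact absurd (by rw [h']) hxy
      · have h1 := (hsep b a h' (by omega)).2
        rw [norm_sub_rev] at h1
        have h2 : (P b - P a) * (starRingEnd ℂ) (v * w6) = -((P a - P b) * (starRingEnd ℂ) (v * w6)) := by ring
        rw [h2, Complex.neg_im, abs_neg]
        exact h1)
  -- some point of `A` is on a clean line
  have hex : ∃ x ∈ A, ∃ i, OnLine L g1 X err t i x ∧ (‖v * w6 - dirv i‖ ≤ 1 / 10 ∨ ‖v * w6 + dirv i‖ ≤ 1 / 10) := by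
    by_contra hcon
    push Not at hcon
    have h1 : A.filter (fun p => ¬ ∃ i, OnLine L g1 X err t i p ∧
        (‖v * w6 - dirv i‖ ≤ 1 / 10 ∨ ‖v * w6 + dirv i‖ ≤ 1 / 10)) = A := by
      rw [Finset.filter_eq_self]
      rintro x hx ⟨i, h2, h3⟩
      have h4 := hcon x hx i h2
      rcases h3 with h3 | h3
      · exact absurd h3 (not_le.mpr h4.1)
      · exact absurd h3 (not_le.mpr h4.2)
    rw [h1, hcard] at hkey
    push_cast at hkey
    linarith
  obtain ⟨x, hx, i, hi, hd⟩ := hex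
  refine ⟨i, x, hi, ?_, hd⟩
  rw [hA, mem_image] at hx
  obtain ⟨a, ha, rfl⟩ := hx
  rw [mem_range] at ha
  exact (hPX a (by omega)).2

private theorem C1_w_sep {F : ℂ} (hF : ‖F‖ = 1) {a b : ℕ} (hab : a < b) (hb : b ≤ a + 2) :
    1 ≤ ‖F * w6 ^ a * w6 - F * w6 ^ b * w6‖ ∧ 1 ≤ ‖F * w6 ^ a * w6 + F * w6 ^ b * w6‖ := by
  obtain ⟨k, rfl⟩ : ∃ k, b = a + k := ⟨b - a, by omega⟩
  have hk : k = 1 ∨ k = 2 := by omega
  have h1 : F * w6 ^ a * w6 - F * w6 ^ (a + k) * w6 = F * w6 ^ a * w6 * (1 - w6 ^ k) := by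
    rw [pow_add]; ring
  have h2 : F * w6 ^ a * w6 + F * w6 ^ (a + k) * w6 = F * w6 ^ a * w6 * (1 + w6 ^ k) := by
    rw [pow_add]; ring
  have h3 : ‖F * w6 ^ a * w6‖ = 1 := by
    rw [norm_mul, norm_mul, norm_pow, hF, w6_norm, one_pow, one_mul, one_mul]
  rw [h1, h2, norm_mul (F * w6 ^ a * w6) (1 - w6 ^ k), norm_mul (F * w6 ^ a * w6) (1 + w6 ^ k), h3, one_mul, one_mul]
  have e1 : ‖(1 : ℂ) - w6‖ = 1 := by
    have : (1 : ℂ) - w6 = -(w6 ^ 2) := by rw [C1_w6_sq]; ring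
    rw [this, norm_neg, norm_pow, w6_norm, one_pow]
  have e2 : 1 ≤ ‖(1 : ℂ) + w6‖ := by
    refine le_trans ?_ (Complex.re_le_norm _)
    simp [w6]
  have e3 : 1 ≤ ‖(1 : ℂ) - w6 ^ 2‖ := by
    refine le_trans ?_ (Complex.re_le_norm _)
    rw [C1_w6_sq]
    simp [w6]
    norm_num
  have e4 : ‖(1 : ℂ) + w6 ^ 2‖ = 1 := by
    rw [C1_w6_sq, show (1 : ℂ) + (w6 - 1) = w6 by ring, w6_norm]
  rcases hk with rfl | rfl
  · rw [pow_one]
    exact ⟨e1.ge, e2⟩
  · exact ⟨e3, e4.ge⟩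

/-- Point `p ∈ X` within `R0 ≤ ρ/10` of `c` (`hS.dense`), frame `F` at `p` (`IsInt`), `n` natural with `UU < n + 1 ≤ UU + 2`. Row `P` from `p` in direction `F` (`quiet_row`),
`A = {P 0, ..., P n}`: good interior points; by `rotate` every `P i` has neighbours within `1/20` of `P i ± F w6` and `P i ± F w6^2`, and `A` is transversal to both
directions. `trans_lemma` (`|A| = n + 1 > UU`): some point of `A` is on a clean line with direction within `1/10` of `± F w6`; the step of that line at this point is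
`± dirv i' + O(3t)` and it is one of the six neighbours of the point (`near_int`), so `F` is within `1/40 + 1/50` of one of the six lattice directions. Same for
`F w6^2` (another type). For the third type (the one of `F`) use the row from `p` in direction `F w6` and `v = F`. In all cases the lattice type `i'` is determined by
`‖v ∓ dirv i'‖ ≤ 1/10`, so the three types obtained are different. -/
theorem lines_in_quiet (hS : SData L E0 g1 R0 X err) {t : ℝ} (ht0 : 0 < t) (ht : t ≤ 1 / 500) {c : ℂ} {ρ : ℝ}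
    (hρ : 10 * (UU L E0 g1 X err t + 2 + R0) ≤ ρ) (hc : ∀ i, 2 * ρ ≤ H L i c) (hq : Quiet L g1 X err c ρ) (i : Fin 3) :
    ∃ p, OnLine L g1 X err t i p ∧ ‖p - c‖ ≤ ρ := by
  classical
  have hE := C1_E0 hS
  have hU : 0 ≤ UU L E0 g1 X err t := C1_UU_nonneg hE t
  have hR0 := hS.R0pos
  have hρ0 : 0 ≤ ρ := by linarith
  obtain ⟨p, hpX, hpc⟩ := hS.dense c (fun i => by have := hc i; linarith)
  have hpc' : ‖p - c‖ ≤ R0 := by rw [norm_sub_rev]; exact hpc
  have hpG := hq.1 p hpX (by linarith)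
  have herr : err p ≤ 1 / 1000 := by
    refine le_trans ?_ hq.2
    exact Finset.single_le_sum (f := err) (fun y _ => hS.errpos y)
      (by rw [mem_filter]; exact ⟨hpX, by linarith⟩)
  obtain ⟨-, F, hF, hn⟩ := hpG.2.2.2
  have hdir : ∀ k : Fin 3, ∃ i x, OnLine L g1 X err t i x ∧ ‖x - c‖ ≤ ρ ∧
      (‖F * w6 ^ (k : ℕ) * w6 - dirv i‖ ≤ 1 / 10 ∨ ‖F * w6 ^ (k : ℕ) * w6 + dirv i‖ ≤ 1 / 10) := by
    intro k
    obtain ⟨r, hr, h1⟩ := hn k
    refine C1_dir hS ht0 ht hq hpX hr ?_ (h1.trans (by linarith)) (by linarith)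
    rw [norm_mul, norm_pow, hF, w6_norm, one_pow, one_mul]
  choose f x hf using hdir
  have hinj : Function.Injective f := by
    have key : ∀ a b : Fin 3, (a : ℕ) < b → f a ≠ f b := by
      intro a b hab he
      obtain ⟨s1, s2⟩ := C1_w_sep hF hab (by omega)
      have ha := (hf a).2.2
      have hb := (hf b).2.2
      rw [← he] at hb
      set u := F * w6 ^ (a : ℕ) * w6
      set u' := F * w6 ^ (b : ℕ) * w6
      set d := dirv (f a)
      rcases ha with ha | ha <;> rcases hb with hb | hb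
      · have h1 : u - u' = (u - d) - (u' - d) := by ring
        have h2 := norm_sub_le (u - d) (u' - d)
        rw [← h1] at h2
        linarith
      · have h1 : u + u' = (u - d) + (u' + d) := by ring
        have h2 := norm_add_le (u - d) (u' + d)
        rw [← h1] at h2
        linarith
      · have h1 : u + u' = (u + d) + (u' - d) := by ring
        have h2 := norm_add_le (u + d) (u' - d)
        rw [← h1] at h2
        linarith
      · have h1 : u - u' = (u + d) - (u' + d) := by ring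
        have h2 := norm_sub_le (u + d) (u' + d)
        rw [← h1] at h2
        linarith
    intro a b hab
    rcases lt_trichotomy (a : ℕ) b with h' | h' | h'
    · exact absurd hab (key a b h')
    · exact Fin.ext h'
    · exact absurd hab.symm (key b a h')
  obtain ⟨k, hk⟩ := (Finite.injective_iff_surjective.mp hinj) i
  refine ⟨x k, ?_, (hf k).2.1⟩
  rw [← hk]
  exact (hf k).1

/-- DEN: `exists_quiet` with `ρ = 10 * (UU + 2 + R0) + 10` and `lines_in_quiet`. -/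
theorem dense_lines (E0 g1 R0 : ℝ) (hE : 0 ≤ E0) (hg : 0 < g1) (hR : 1 ≤ R0) : ∃ C : ℝ, 1 ≤ C ∧
    ∀ (L : ℝ) (X : Finset ℂ) (err : ℂ → ℝ) (t : ℝ), SData L E0 g1 R0 X err → 0 < t → t ≤ 1 / 500 →
      C * (UU L E0 g1 X err t + 10) ≤ L → ∀ z, (∀ i, 0 ≤ H L i z) → ∀ i, ∃ p, OnLine L g1 X err t i p ∧
        ‖z - p‖ ≤ C * (UU L E0 g1 X err t + 10) := by
  obtain ⟨C, hC, hq⟩ := exists_quiet (E0 := E0) (g1 := g1) hE hg R0
  refine ⟨(C + 1) * (10 * (1 + R0)), by nlinarith, ?_⟩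
  intro L X err t hS ht0 ht hL z hz i
  have hU : 0 ≤ UU L E0 g1 X err t := C1_UU_nonneg hE t
  set U := UU L E0 g1 X err t with hUdef
  set ρ : ℝ := 10 * (U + 2 + R0) with hρ
  have h1 : ρ ≤ 10 * (1 + R0) * (U + 10) := by
    rw [hρ]
    nlinarith
  have h2 : 10 ≤ ρ := by rw [hρ]; linarith
  have h3 : C * ρ ≤ L := by
    refine le_trans ?_ hL
    have h4 : C * ρ ≤ C * (10 * (1 + R0) * (U + 10)) := mul_le_mul_of_nonneg_left h1 (by linarith)
    have h5 : 0 ≤ 10 * (1 + R0) * (U + 10) := by positivity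
    nlinarith
  obtain ⟨c, hc1, hc2, hc3⟩ := hq L X err hS ρ h2 h3 z hz
  obtain ⟨p, hp1, hp2⟩ := lines_in_quiet hS ht0 ht (ρ := ρ) le_rfl hc2 hc3 i
  refine ⟨p, hp1, ?_⟩
  have h6 : z - p = -(c - z) - (p - c) := by ring
  rw [h6]
  refine (norm_sub_le _ _).trans ?_
  rw [norm_neg]
  have h7 : (C + 1) * ρ ≤ (C + 1) * (10 * (1 + R0) * (U + 10)) := mul_le_mul_of_nonneg_left h1 (by linarith)
  nlinarith

end H24
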