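import Pool.Agent.Lib_MP_27c196_co.S.B3

/-! H24 S, piece C2: two clean lines of different types cross (blueprint S7) -/

set_option linter.unusedVariables false

noncomputable section

namespace H24

open Finset

variable {L E0 g1 R0 : ℝ} {X : Finset ℂ} {err : ℂ → ℝ}

private theorem C2_dot {i j : Fin 3} (hij : i ≠ j) :
    (dirv i).re ^ 2 + (dirv i).im ^ 2 = 1 ∧ (dirv j).re ^ 2 + (dirv j).im ^ 2 = 1 ∧
      (dirv i).re * (dirv j).re + (dirv i).im * (dirv j).im = -1 / 2 := by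
  have h3 := sqrt3_sq
  fin_cases i <;> fin_cases j <;> simp [dirv] at hij ⊢ <;> (try refine ⟨?_, ?_⟩) <;>
    (try nlinarith) <;> (try norm_num)

private theorem C2_norm {i j : Fin 3} (hij : i ≠ j) (x y : ℝ) :
    ‖(x : ℂ) * dirv i - (y : ℂ) * dirv j‖ ^ 2 = x ^ 2 + x * y + y ^ 2 := by
  obtain ⟨h1, h2, h3⟩ := C2_dot hij
  rw [← Complex.normSq_eq_norm_sq, Complex.normSq_apply]
  simp only [Complex.sub_re, Complex.sub_im, Complex.mul_re, Complex.mul_im, Complex.ofReal_re,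
    Complex.ofReal_im]
  linear_combination x ^ 2 * h1 + y ^ 2 * h2 - 2 * x * y * h3

/-- for `α, β ∈ [0,1]` and directions at 60 or 120 degrees one of the four vectors `x e - y e'`, `x ∈ {-α, 1-α}`, `y ∈ {-β, 1-β}`, is short -/
theorem four_short {i j : Fin 3} (hij : i ≠ j) {α β : ℝ} (h0 : 0 ≤ α) (h1 : α ≤ 1) (h2 : 0 ≤ β) (h3 : β ≤ 1) :
    ‖((-α : ℝ) : ℂ) * dirv i - ((-β : ℝ) : ℂ) * dirv j‖ ≤ 9 / 10 ∨
    ‖((1 - α : ℝ) : ℂ) * dirv i - ((-β : ℝ) : ℂ) * dirv j‖ ≤ 9 / 10 ∨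
    ‖((-α : ℝ) : ℂ) * dirv i - ((1 - β : ℝ) : ℂ) * dirv j‖ ≤ 9 / 10 ∨
    ‖((1 - α : ℝ) : ℂ) * dirv i - ((1 - β : ℝ) : ℂ) * dirv j‖ ≤ 9 / 10 := by
  by_contra hc
  push Not at hc
  obtain ⟨c1, c2, c3, c4⟩ := hc
  have sq : ∀ x y : ℝ, 9 / 10 < ‖(x : ℂ) * dirv i - (y : ℂ) * dirv j‖ →
      81 / 100 < x ^ 2 + x * y + y ^ 2 := by
    intro x y h
    rw [← C2_norm hij x y]
    nlinarith
  have d1 := sq _ _ c1
  have d2 := sq _ _ c2
  have d3 := sq _ _ c3
  have d4 := sq _ _ c4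
  rcases le_total (α + β) 1 with h4 | h4
  · have e1 := mul_le_mul_of_nonneg_left d1.le (by linarith : 0 ≤ 1 - α - β)
    have e2 := mul_le_mul_of_nonneg_left d2.le h0
    have e3 := mul_le_mul_of_nonneg_left d3.le h2
    have e4 : (1 - α - β) * ((-α) ^ 2 + (-α) * (-β) + (-β) ^ 2) +
        α * ((1 - α) ^ 2 + (1 - α) * (-β) + (-β) ^ 2) +
        β * ((-α) ^ 2 + (-α) * (1 - β) + (1 - β) ^ 2) =
        (1 - α - β) * α + (1 - α - β) * β + α * β := by ring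
    nlinarith [sq_nonneg (α - β), sq_nonneg (1 - 2 * α - β), sq_nonneg (1 - α - 2 * β)]
  · have e1 := mul_le_mul_of_nonneg_left d4.le (by linarith : 0 ≤ α + β - 1)
    have e2 := mul_le_mul_of_nonneg_left d3.le (by linarith : 0 ≤ 1 - α)
    have e3 := mul_le_mul_of_nonneg_left d2.le (by linarith : 0 ≤ 1 - β)
    have e4 : (α + β - 1) * ((1 - α) ^ 2 + (1 - α) * (1 - β) + (1 - β) ^ 2) +
        (1 - α) * ((-α) ^ 2 + (-α) * (1 - β) + (1 - β) ^ 2) +
        (1 - β) * ((1 - α) ^ 2 + (1 - α) * (-β) + (-β) ^ 2) =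
        (α + β - 1) * (1 - α) + (α + β - 1) * (1 - β) + (1 - α) * (1 - β) := by ring
    nlinarith [sq_nonneg (α - β), sq_nonneg (2 - 2 * α - β), sq_nonneg (2 - α - 2 * β)]

private theorem C2_len (hS : SData L E0 g1 R0 X err) {t : ℝ} {i : Fin 3} {N : ℕ} {P : ℕ → ℂ}
    (hP : CLine L g1 X err i t N P) : 1 ≤ N := by
  by_contra hN
  have hN0 : N = 0 := by omega
  subst hN0
  have h1 := hP.start.2.2.2.1
  have h2 := hP.fin.2.2.2.1
  have h3 := hP.start.2.1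
  have h4 := hP.start.2.2.1 i
  have h5 := H_sum L (P 0)
  have hg := hS.g1le
  fin_cases i
  · simp only [Fin.zero_eta, zero_add] at h1 h2 h4
    linarith
  · simp only [Fin.mk_one, fin3_11, fin3_12] at h1 h2 h4
    linarith
  · simp only [Fin.reduceFinMk, fin3_21, fin3_22] at h1 h2 h4
    linarith

private theorem C2_dist (hS : SData L E0 g1 R0 X err) {t : ℝ} (ht : t ≤ 1 / 500) {i : Fin 3} {N : ℕ}
    {P : ℕ → ℂ} (hP : CLine L g1 X err i t N P) {a b : ℕ} (ha : a ≤ N) (hb : b ≤ N) :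
    ‖P b - P a - (((b : ℝ) - a : ℝ) : ℂ) * dirv i‖ ≤ 3 * t * |(b : ℝ) - a| := by
  rcases le_total a b with h | h
  · have h1 := (line_heights hS ht hP h hb).2.2.2
    have h2 : (a : ℝ) ≤ b := by exact_mod_cast h
    rw [abs_of_nonneg (by linarith)]
    push_cast
    exact h1
  · have h1 := (line_heights hS ht hP h ha).2.2.2
    have h2 : (b : ℝ) ≤ a := by exact_mod_cast h
    rw [abs_of_nonpos (by linarith), neg_sub]
    have e : P b - P a - (((b : ℝ) - a : ℝ) : ℂ) * dirv i =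
        -(P a - P b - ((a : ℂ) - b) * dirv i) := by
      push_cast
      ring
    rw [e, norm_neg]
    exact h1

/-- the real index of the crossing point is in the range -/
private theorem C2_range (hS : SData L E0 g1 R0 X err) {t : ℝ} (ht0 : 0 < t) (ht : t ≤ 1 / 500)
    {i : Fin 3} {N : ℕ} {P : ℕ → ℂ} (hP : CLine L g1 X err i t N P) {a : ℕ} (ha : a ≤ N) {σ : ℝ}
    (hz : ∀ l, 1 / 2 ≤ H L l (P a + σ * dirv i)) (hsm : |σ| * t ≤ 1 / 100) :
    0 ≤ (a : ℝ) + σ ∧ (a : ℝ) + σ ≤ N := by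
  have hg := hS.g1le
  have e1 : H L (i + 1) (P a + σ * dirv i) = H L (i + 1) (P a) + σ := by
    rw [H_add, H_smul, H_dir_add1, mul_one]
  have e2 : H L (i + 2) (P a + σ * dirv i) = H L (i + 2) (P a) - σ := by
    rw [H_add, H_smul, H_dir_add2]
    ring
  constructor
  · by_contra hc
    push Not at hc
    have h1 := (line_heights hS ht hP (Nat.zero_le a) ha).2.1
    have h2 := (abs_le.1 h1).2
    have h3 := hz (i + 1)
    rw [e1] at h3
    have h4 := hP.start.2.2.2.1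
    have h5 := hP.start.2.1
    have ha0 : (0 : ℝ) ≤ a := Nat.cast_nonneg a
    have hσ : σ < 0 := by linarith
    rw [abs_of_neg hσ] at hsm
    have h6 : t * a ≤ t * (-σ) := mul_le_mul_of_nonneg_left (by linarith) ht0.le
    push_cast at h2
    nlinarith
  · by_contra hc
    push Not at hc
    have h1 := (line_heights hS ht hP ha le_rfl).2.2.1
    have h2 := (abs_le.1 h1).1
    have h3 := hz (i + 2)
    rw [e2] at h3
    have h4 := hP.fin.2.2.2.1
    have h5 := hP.fin.2.1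
    have ha0 : (a : ℝ) ≤ N := by exact_mod_cast ha
    have hσ : 0 < σ := by linarith
    rw [abs_of_pos hσ] at hsm
    have h6 : t * ((N : ℝ) - a) ≤ t * σ := mul_le_mul_of_nonneg_left (by linarith) ht0.le
    nlinarith

/-- the two vertices next to the crossing point -/
private theorem C2_two (hS : SData L E0 g1 R0 X err) {t : ℝ} (ht0 : 0 < t) (ht : t ≤ 1 / 500)
    {i : Fin 3} {N : ℕ} {P : ℕ → ℂ} (hP : CLine L g1 X err i t N P) {a : ℕ} (ha : a ≤ N) {σ : ℝ}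
    (hz : ∀ l, 1 / 2 ≤ H L l (P a + σ * dirv i)) (hsm : |σ| * t ≤ 1 / 100) :
    ∃ (a1 : ℕ) (α : ℝ), a1 + 1 ≤ N ∧ 0 ≤ α ∧ α ≤ 1 ∧ (a1 : ℝ) - a - σ = -α ∧
      ‖P a1 - (P a + σ * dirv i) - ((-α : ℝ) : ℂ) * dirv i‖ ≤ 3 * t * (|σ| + 1) ∧
      ‖P (a1 + 1) - (P a + σ * dirv i) - ((1 - α : ℝ) : ℂ) * dirv i‖ ≤ 3 * t * (|σ| + 1) := by
  obtain ⟨h0, hN⟩ := C2_range hS ht0 ht hP ha hz hsm
  have hN1 := C2_len hS hP
  obtain ⟨a1, h1, h2, h3⟩ : ∃ a1 : ℕ, a1 + 1 ≤ N ∧ (a1 : ℝ) ≤ a + σ ∧ (a : ℝ) + σ ≤ a1 + 1 := by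
    rcases lt_or_eq_of_le hN with h | h
    · refine ⟨⌊(a : ℝ) + σ⌋₊, ?_, Nat.floor_le h0, (Nat.lt_floor_add_one _).le⟩
      have : ⌊(a : ℝ) + σ⌋₊ < N := (Nat.floor_lt h0).2 h
      omega
    · obtain ⟨M, rfl⟩ : ∃ M, N = M + 1 := ⟨N - 1, by omega⟩
      refine ⟨M, le_rfl, ?_, ?_⟩
      · rw [h]; push_cast; linarith
      · rw [h]; push_cast; linarith
  refine ⟨a1, (a : ℝ) + σ - a1, h1, by linarith, by linarith, by ring, ?_, ?_⟩
  · have h4 := C2_dist hS ht hP ha (by omega : a1 ≤ N)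
    have e : P a1 - (P a + σ * dirv i) - ((-((a : ℝ) + σ - a1) : ℝ) : ℂ) * dirv i =
        P a1 - P a - (((a1 : ℝ) - a : ℝ) : ℂ) * dirv i := by
      push_cast
      ring
    rw [e]
    refine h4.trans (mul_le_mul_of_nonneg_left ?_ (by linarith))
    rw [abs_le]
    constructor
    · linarith [neg_abs_le σ]
    · linarith [le_abs_self σ]
  · have h4 := C2_dist hS ht hP ha h1
    have e : P (a1 + 1) - (P a + σ * dirv i) - ((1 - ((a : ℝ) + σ - a1) : ℝ) : ℂ) * dirv i =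
        P (a1 + 1) - P a - ((((a1 + 1 : ℕ) : ℝ) - a : ℝ) : ℂ) * dirv i := by
      push_cast
      ring
    rw [e]
    refine h4.trans (mul_le_mul_of_nonneg_left ?_ (by linarith))
    push_cast
    rw [abs_le]
    constructor
    · linarith [neg_abs_le σ]
    · linarith [le_abs_self σ]

/-- The crossing point `z` of the two straight extrapolations has all heights `≥ 1/2`. Index ranges: if `a + σ < 0` then
`H (i+1) (P a + σ dirv i) = H (i+1) (P a) + σ ≤ 1/1000 + a + 4 t a + σ < 1/2` (`line_heights` from `0`), a contradiction (`a < |σ|`); similarly at the other end with `H (i+2)`, and for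
`Q`. So with `a + σ = a1 + α`, `0 ≤ α ≤ 1`, `0 ≤ a1 < N`, `b + τ = b1 + β`: `P (a1) = z - α dirv i + O(4 t (|σ|+1))` etc.; by `four_short` one of the four pairs
`P (a1 + x), Q (b1 + y)` is at distance `≤ 9/10 + 1/20 < 1`, so they are equal. -/
theorem cross (hS : SData L E0 g1 R0 X err) {t : ℝ} (ht0 : 0 < t) (ht : t ≤ 1 / 500) {i j : Fin 3} (hij : i ≠ j) {N N' : ℕ}
    {P Q : ℕ → ℂ} (hP : CLine L g1 X err i t N P) (hQ : CLine L g1 X err j t N' Q) {a b : ℕ} (ha : a ≤ N) (hb : b ≤ N')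
    {σ τ : ℝ} (heq : P a + σ * dirv i = Q b + τ * dirv j) (hz : ∀ l, 1 / 2 ≤ H L l (P a + σ * dirv i))
    (hsm : (|σ| + |τ| + 4) * (8 * t) ≤ 1 / 20) :
    ∃ a' ≤ N, ∃ b' ≤ N', P a' = Q b' ∧ |(a' : ℝ) - a - σ| ≤ 1 ∧ |(b' : ℝ) - b - τ| ≤ 1 := by
  have hσ0 := abs_nonneg σ
  have hτ0 := abs_nonneg τ
  have k1 : |σ| * t ≤ 1 / 100 := by nlinarith [mul_nonneg hτ0 ht0.le, mul_nonneg hσ0 ht0.le]
  have k2 : |τ| * t ≤ 1 / 100 := by nlinarith [mul_nonneg hτ0 ht0.le, mul_nonneg hσ0 ht0.le]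
  obtain ⟨a1, α, p1, p2, p3, p4, p5, p6⟩ := C2_two hS ht0 ht hP ha hz k1
  obtain ⟨b1, β, q1, q2, q3, q4, q5, q6⟩ := C2_two hS ht0 ht hQ hb
    (by rw [← heq]; exact hz) k2
  rw [← heq] at q5 q6
  set z := P a + σ * dirv i with hzdef
  have fin : ∀ (a' b' : ℕ) (x y : ℝ), a' ≤ N → b' ≤ N' →
      ‖P a' - z - (x : ℂ) * dirv i‖ ≤ 3 * t * (|σ| + 1) →
      ‖Q b' - z - (y : ℂ) * dirv j‖ ≤ 3 * t * (|τ| + 1) →
      ‖(x : ℂ) * dirv i - (y : ℂ) * dirv j‖ ≤ 9 / 10 → P a' = Q b' := by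
    intro a' b' x y ha' hb' h1 h2 h3
    refine eq_of_close hS (line_mem hP ha') (line_mem hQ hb') ?_
    have e : P a' - Q b' = (P a' - z - (x : ℂ) * dirv i) - (Q b' - z - (y : ℂ) * dirv j) +
        ((x : ℂ) * dirv i - (y : ℂ) * dirv j) := by ring
    have h4 := norm_add_le ((P a' - z - (x : ℂ) * dirv i) - (Q b' - z - (y : ℂ) * dirv j))
      ((x : ℂ) * dirv i - (y : ℂ) * dirv j)
    have h5 := norm_sub_le (P a' - z - (x : ℂ) * dirv i) (Q b' - z - (y : ℂ) * dirv j)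
    rw [← e] at h4
    nlinarith
  have ab1 : |-α| ≤ 1 := by rw [abs_neg, abs_of_nonneg p2]; exact p3
  have ab2 : |1 - α| ≤ 1 := by rw [abs_of_nonneg (by linarith)]; linarith
  have ab3 : |-β| ≤ 1 := by rw [abs_neg, abs_of_nonneg q2]; exact q3
  have ab4 : |1 - β| ≤ 1 := by rw [abs_of_nonneg (by linarith)]; linarith
  have r1 : ((a1 + 1 : ℕ) : ℝ) - a - σ = 1 - α := by push_cast; linarith
  have r2 : ((b1 + 1 : ℕ) : ℝ) - b - τ = 1 - β := by push_cast; linarith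
  rcases four_short hij p2 p3 q2 q3 with h | h | h | h
  · exact ⟨a1, by omega, b1, by omega, fin a1 b1 _ _ (by omega) (by omega) p5 q5 h,
      by rw [p4]; exact ab1, by rw [q4]; exact ab3⟩
  · exact ⟨a1 + 1, p1, b1, by omega, fin (a1 + 1) b1 _ _ p1 (by omega) p6 q5 h,
      by rw [r1]; exact ab2, by rw [q4]; exact ab3⟩
  · exact ⟨a1, by omega, b1 + 1, q1, fin a1 (b1 + 1) _ _ (by omega) q1 p5 q6 h,
      by rw [p4]; exact ab1, by rw [r2]; exact ab4⟩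
  · exact ⟨a1 + 1, p1, b1 + 1, q1, fin (a1 + 1) (b1 + 1) _ _ p1 q1 p6 q6 h,
      by rw [r1]; exact ab2, by rw [r2]; exact ab4⟩

/-- solving `z + σ dirv i = z' + τ dirv j` for `i ≠ j` -/
theorem solve_dir {i j : Fin 3} (hij : i ≠ j) (z z' : ℂ) :
    ∃ σ τ : ℝ, z + σ * dirv i = z' + τ * dirv j ∧ |σ| ≤ 1.2 * ‖z - z'‖ ∧ |τ| ≤ 1.2 * ‖z - z'‖ := by
  obtain ⟨h1, h2, h3⟩ := C2_dot hij
  set D := (dirv i).re * (dirv j).im - (dirv i).im * (dirv j).re with hD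
  have hD2 : D ^ 2 = 3 / 4 := by
    have e : D ^ 2 = ((dirv i).re ^ 2 + (dirv i).im ^ 2) * ((dirv j).re ^ 2 + (dirv j).im ^ 2) -
        ((dirv i).re * (dirv j).re + (dirv i).im * (dirv j).im) ^ 2 := by
      rw [hD]; ring
    rw [e, h1, h2, h3]
    norm_num
  have hD0 : D ≠ 0 := by
    intro h
    rw [h] at hD2
    norm_num at hD2
  set σ := ((z' - z).re * (dirv j).im - (z' - z).im * (dirv j).re) / D with hσ
  set τ := ((z' - z).re * (dirv i).im - (z' - z).im * (dirv i).re) / D with hτ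
  have heq : (σ : ℂ) * dirv i - (τ : ℂ) * dirv j = z' - z := by
    apply Complex.ext
    · simp only [Complex.sub_re, Complex.mul_re, Complex.ofReal_re, Complex.ofReal_im, zero_mul,
        sub_zero]
      rw [hσ, hτ]
      field_simp
      rw [hD]
      simp only [Complex.sub_re, Complex.sub_im]
      ring
    · simp only [Complex.sub_im, Complex.mul_im, Complex.ofReal_re, Complex.ofReal_im, zero_mul,
        add_zero]
      rw [hσ, hτ]
      field_simp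
      rw [hD]
      simp only [Complex.sub_re, Complex.sub_im]
      ring
  have hn := C2_norm hij σ τ
  rw [heq] at hn
  have hn' : ‖z - z'‖ = ‖z' - z‖ := norm_sub_rev z z'
  rw [hn']
  have h0 := norm_nonneg (z' - z)
  refine ⟨σ, τ, by linear_combination heq, ?_, ?_⟩
  · apply abs_le_of_sq_le_sq _ (by positivity)
    nlinarith [sq_nonneg (σ + 2 * τ)]
  · apply abs_le_of_sq_le_sq _ (by positivity)
    nlinarith [sq_nonneg (2 * σ + τ)]

end H24
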