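import Pool.Agent.Lib_MP_27c196_co.S.B4
import Pool.Agent.Lib_MP_27c196_co.S.C2

/-! H24 S, piece C3: the hub (blueprint S8) -/

set_option linter.unusedVariables false

noncomputable section

namespace H24

open Finset

variable {L E0 g1 R0 t D : ℝ} {X : Finset ℂ} {err : ℂ → ℝ}

/-- data for the labelling: the clean lines of each type are `D`-dense and `t D` is small -/
structure LData (L E0 g1 R0 t D : ℝ) (X : Finset ℂ) (err : ℂ → ℝ) : Prop where
  S : SData L E0 g1 R0 X err
  t0 : 0 < t
  D1 : 1 ≤ D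
  tD : t * D ≤ 1 / 10000000
  LD : 10000000 * D ≤ L
  den : ∀ z, (∀ i, 0 ≤ H L i z) → ∀ i, ∃ p, OnLine L g1 X err t i p ∧ ‖z - p‖ ≤ D

/-- vertices of clean lines outside the corner zones -/
def GG (L g1 t D : ℝ) (X : Finset ℂ) (err : ℂ → ℝ) (p : ℂ) : Prop :=
  (∃ i, OnLine L g1 X err t i p) ∧ ∀ i, H L i p ≤ L - 100000 * D

/-- all the height differences are within `e` of integers -/
def LatClose (L e : ℝ) (a b : ℂ) : Prop := ∀ i, ∃ c : ℤ, |H L i b - H L i a - c| ≤ e

private lemma C3_cases (i l : Fin 3) : l = i ∨ l = i + 1 ∨ l = i + 2 := by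
  fin_cases i <;> fin_cases l <;> simp [fin3_11, fin3_12, fin3_21, fin3_22]

theorem LatClose.symm {e : ℝ} {a b : ℂ} (h : LatClose L e a b) : LatClose L e b a := by
  intro i
  obtain ⟨c, hc⟩ := h i
  refine ⟨-c, ?_⟩
  rw [abs_le] at hc ⊢
  push_cast
  constructor <;> linarith [hc.1, hc.2]

theorem LatClose.trans {e e' : ℝ} {a b c : ℂ} (h : LatClose L e a b) (h' : LatClose L e' b c) :
    LatClose L (e + e') a c := by
  intro i
  obtain ⟨m, hm⟩ := h i
  obtain ⟨n, hn⟩ := h' i
  refine ⟨m + n, ?_⟩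
  rw [abs_le] at hm hn ⊢
  push_cast
  constructor <;> linarith [hm.1, hm.2, hn.1, hn.2]

theorem LatClose.mono {e e' : ℝ} {a b : ℂ} (h : LatClose L e a b) (he : e ≤ e') : LatClose L e' a b := by
  intro i
  obtain ⟨m, hm⟩ := h i
  exact ⟨m, hm.trans he⟩

/-- two vertices of one line (`line_heights`) -/
theorem latClose_line (hS : SData L E0 g1 R0 X err) (ht0 : 0 < t) (ht : t ≤ 1 / 500) {i : Fin 3} {N : ℕ} {Q : ℕ → ℂ}
    (hQ : CLine L g1 X err i t N Q) {a b : ℕ} (ha : a ≤ N) (hb : b ≤ N) :
    LatClose L (4 * t * |(a : ℝ) - b|) (Q a) (Q b) := by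
  have key : ∀ a b : ℕ, a ≤ b → b ≤ N → LatClose L (4 * t * |(a : ℝ) - b|) (Q a) (Q b) := by
    intro a b hab hb
    have hab' : (a : ℝ) ≤ b := by exact_mod_cast hab
    obtain ⟨h0, h1, h2, -⟩ := line_heights hS ht hQ hab hb
    have e1 : |(a : ℝ) - b| = b - a := by
      rw [abs_sub_comm]
      exact abs_of_nonneg (by linarith)
    rw [e1]
    intro l
    rcases C3_cases i l with rfl | rfl | rfl
    · refine ⟨0, ?_⟩
      simpa using h0
    · refine ⟨(b : ℤ) - a, ?_⟩
      push_cast
      exact h1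
    · refine ⟨(a : ℤ) - b, ?_⟩
      push_cast
      have e2 : H L (i + 2) (Q b) - H L (i + 2) (Q a) - ((a : ℝ) - b) =
          H L (i + 2) (Q b) - H L (i + 2) (Q a) + ((b : ℝ) - a) := by ring
      rw [e2]
      exact h2
  rcases le_total a b with h | h
  · exact key a b h hb
  · rw [abs_sub_comm]
    exact (key b a h ha).symm

theorem GG_int_or_wall (h : LData L E0 g1 R0 t D X err) {a : ℂ} (ha : GG L g1 t D X err a) :
    a ∈ X ∧ (GInt L g1 X err a ∨ ∃ i, GWall L g1 X err i a) := by
  obtain ⟨⟨i, N, Q, n, hQ, hn, rfl⟩, -⟩ := ha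
  rcases Nat.eq_zero_or_pos n with rfl | h0
  · exact ⟨hQ.start.1, Or.inr ⟨_, hQ.start⟩⟩
  · rcases hn.lt_or_eq with h1 | rfl
    · exact ⟨(hQ.int n h0 h1).1, Or.inl (hQ.int n h0 h1)⟩
    · exact ⟨hQ.fin.1, Or.inr ⟨_, hQ.fin⟩⟩

/-- heights move by at most `1.2` times the distance -/
private lemma C3_low {i : Fin 3} {z z' : ℂ} {m ρ : ℝ} (h : m ≤ H L i z) (hd : ‖z - z'‖ ≤ ρ) :
    m - 1.2 * ρ ≤ H L i z' := by
  have h1 := H_lip L i z z'
  rw [abs_le] at h1
  have h2 := h1.2
  nlinarith

/-- `H i` is constant along `dirv i` -/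
private lemma C3_H_dir (i : Fin 3) (z : ℂ) (s : ℝ) : H L i (z + s * dirv i) = H L i z := by
  rw [H_add, H_smul, H_dir_self]
  ring

private lemma C3_dist_dir (i : Fin 3) (z : ℂ) (s : ℝ) : ‖z - (z + s * dirv i)‖ = |s| := by
  rw [show z - (z + s * dirv i) = -((s : ℂ) * dirv i) by ring, norm_neg, norm_mul, dirv_norm,
    mul_one, Complex.norm_real, Real.norm_eq_abs]

/-- two clean points of different types are joined at their crossing -/
private lemma C3_join (h : LData L E0 g1 R0 t D X err) {i j : Fin 3} (hij : i ≠ j) {x y : ℂ} {ρ : ℝ}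
    (hx : OnLine L g1 X err t i x) (hy : OnLine L g1 X err t j y) (hxy : ‖x - y‖ ≤ ρ) (hρ : ρ ≤ 2000 * D)
    (hz : ∀ σ τ : ℝ, |σ| ≤ 1.2 * ρ → |τ| ≤ 1.2 * ρ → x + σ * dirv i = y + τ * dirv j →
      ∀ l, 1 / 2 ≤ H L l (x + σ * dirv i)) : LatClose L (8 * t * (1.2 * ρ + 1)) x y := by
  obtain ⟨N, P, a, hP, ha, rfl⟩ := hx
  obtain ⟨N', Q, b, hQ, hb, rfl⟩ := hy
  have ht0 := h.t0
  have hD := h.D1
  have htD := h.tD
  have htt : t ≤ t * D := by nlinarith
  have ht : t ≤ 1 / 500 := by linarith
  obtain ⟨σ, τ, heq, hσ, hτ⟩ := solve_dir hij (P a) (Q b)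
  have hσ' : |σ| ≤ 1.2 * ρ := by linarith
  have hτ' : |τ| ≤ 1.2 * ρ := by linarith
  obtain ⟨a', ha', b', hb', hab, h1, h2⟩ := cross h.S ht0 ht hij hP hQ ha hb heq (hz σ τ hσ' hτ' heq) (by nlinarith)
  have k1 := latClose_line h.S ht0 ht hP ha ha'
  have k2 := latClose_line h.S ht0 ht hQ hb' hb
  have k3 : LatClose L (4 * t * (1.2 * ρ + 1)) (P a) (P a') := by
    refine k1.mono ?_
    have : |(a : ℝ) - a'| ≤ 1.2 * ρ + 1 := by
      rw [abs_le] at *
      constructor <;> linarith [h1.1, h1.2, hσ'.1, hσ'.2]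
    nlinarith
  have k4 : LatClose L (4 * t * (1.2 * ρ + 1)) (Q b') (Q b) := by
    refine k2.mono ?_
    have : |(b' : ℝ) - b| ≤ 1.2 * ρ + 1 := by
      rw [abs_le] at *
      constructor <;> linarith [h2.1, h2.2, hτ'.1, hτ'.2]
    nlinarith
  rw [hab] at k3
  exact (k3.trans k4).mono (by linarith)

/-- HUB with `r = 100 D` (`2 r = 200 D`, cut `Rc = 1000 r`). Given `a`, let `w` be the index with `H w a` minimal, `z0 = a` if `H w a ≥ 8 r`, otherwise `z0 = a +` a vector of length `10 r` in a
lattice direction which raises `H w` by `10 r`; then `H w z0 ≥ 8 r` and `H j z0 ≥ 490 r` for `j ≠ w` (if `H w a < 8 r` then `H j a ≥ 1000 r - 8 r`, else `H j a ≥ max (H w a) (1000 r - H w a) ≥ 500 r`).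
Clean lines `h_0, h_1, h_2` of the three types with vertices `v_j` within `D` of `z0` (`h.den`). Any two of them cross near `z0` (`solve_dir`, `cross`: the crossing point is within `4 D` of `z0`).
Let `x` be `a` or `b` (`‖x - a‖ ≤ 200 D`), a vertex of a clean line of type `i`. If `i ≠ w` take `j = w` (the crossing point has the `H w` of `v_w`, `≥ 8 r - 2 D`); if `i = w` take any `j ≠ w` (the crossing
point has `H w` equal to `H w x ≥ 0.9`: `x` is a good interior point because the walls `≠ w` are far); the heights `≠ w` are `≥ 490 r - 30 r`. So the line of `x` crosses `h_j` at most `15 r + 1` steps from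
`x` and from `v_j`, and `x` is joined to `v_0` by at most `40 r` steps: `LatClose (160 r t) x v_0`, `160 r t = 16000 D t ≤ 1/200`. -/
theorem hub (h : LData L E0 g1 R0 t D X err) {a b : ℂ} (ha : GG L g1 t D X err a) (hb : GG L g1 t D X err b)
    (hab : ‖a - b‖ ≤ 200 * D) : LatClose L (1 / 100) a b := by
  have ht0 := h.t0
  have hD := h.D1
  have htD := h.tD
  have hLD := h.LD
  have haX := (GG_int_or_wall h ha).1
  have hbX := (GG_int_or_wall h hb).1
  have hTa := h.S.inT a haX
  -- the centre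
  obtain ⟨w, z0, hzw, hzj, hza⟩ : ∃ (w : Fin 3) (z0 : ℂ), 800 * D ≤ H L w z0 ∧
      (∀ j, j ≠ w → 49000 * D ≤ H L j z0) ∧ ‖z0 - a‖ ≤ 1000 * D := by
    obtain ⟨w, hw⟩ := Finite.exists_min (fun i => H L i a)
    have hsum : H L w a + H L (w + 1) a + H L (w + 2) a = L := by
      have := H_sum L a
      fin_cases w <;> simp [fin3_11, fin3_12, fin3_21, fin3_22] <;> linarith
    have hw1 := hw (w + 1)
    have hw2 := hw (w + 2)
    have hc1 := ha.2 (w + 1)
    have hc2 := ha.2 (w + 2)
    have hw0 := hTa w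
    by_cases hc : 800 * D ≤ H L w a
    · refine ⟨w, a, hc, ?_, by simp; linarith⟩
      intro j hj
      rcases C3_cases w j with rfl | rfl | rfl
      · exact (hj rfl).elim
      · linarith
      · linarith
    · push Not at hc
      have e1 : H L w (a + ((1000 * D : ℝ) : ℂ) * dirv (w + 2)) = H L w a + 1000 * D := by
        have := H_dir_add1 L (w + 2)
        have e : w + 2 + 1 = w := by fin_cases w <;> rfl
        rw [e] at this
        rw [H_add, H_smul, this]
        ring
      have hd : ‖(a + ((1000 * D : ℝ) : ℂ) * dirv (w + 2)) - a‖ ≤ 1000 * D := by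
        rw [add_sub_cancel_left, norm_mul, dirv_norm, mul_one, Complex.norm_real, Real.norm_eq_abs,
          abs_of_nonneg (by linarith)]
      refine ⟨w, a + ((1000 * D : ℝ) : ℂ) * dirv (w + 2), by rw [e1]; linarith, ?_, hd⟩
      intro j hj
      rw [norm_sub_rev] at hd
      have h99 : 99200 * D ≤ H L j a := by
        rcases C3_cases w j with rfl | rfl | rfl
        · exact (hj rfl).elim
        · linarith
        · linarith
      have := C3_low h99 hd
      linarith
  have hz0T : ∀ i, 0 ≤ H L i z0 := by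
    intro i
    by_cases hi : i = w
    · rw [hi]; linarith
    · have := hzj i hi; linarith
  have hz0' : ∀ i, 800 * D ≤ H L i z0 := by
    intro i
    by_cases hi : i = w
    · rw [hi]; exact hzw
    · have := hzj i hi; linarith
  have hden := h.den z0 hz0T
  choose v hv hvd using hden
  -- the three lines of the hub
  have hvv : ∀ j k, j ≠ k → LatClose L (8 * t * (1.2 * (2 * D) + 1)) (v j) (v k) := by
    intro j k hjk
    refine C3_join h hjk (hv j) (hv k) ?_ (by linarith) ?_
    · have e : v j - v k = (z0 - v k) - (z0 - v j) := by ring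
      rw [e]
      refine (norm_sub_le _ _).trans ?_
      linarith [hvd j, hvd k]
    · intro σ τ hσ hτ heq l
      have k1 := C3_low (hz0' l) (hvd j)
      have k2 := C3_low k1 (ρ := 1.2 * (2 * D)) (z' := v j + σ * dirv j) (by rw [C3_dist_dir]; exact hσ)
      linarith
  have hv0 : ∀ j, LatClose L (8 * t * (1.2 * (2 * D) + 1)) (v j) (v 0) := by
    intro j
    by_cases hj : j = 0
    · subst hj
      intro l
      refine ⟨0, ?_⟩
      simp
      positivity
    · exact hvv j 0 hj
  -- joining a vertex to the hub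
  have hjoin : ∀ x, x ∈ X → (∃ i, OnLine L g1 X err t i x) → ‖x - z0‖ ≤ 1200 * D →
      LatClose L (1 / 200) x (v 0) := by
    intro x hxX hx hxz
    obtain ⟨i, hi⟩ := hx
    obtain ⟨j, hij, hlow⟩ : ∃ j, i ≠ j ∧ ∀ σ τ : ℝ, |σ| ≤ 1.2 * (1201 * D) → |τ| ≤ 1.2 * (1201 * D) →
        x + σ * dirv i = v j + τ * dirv j → ∀ l, 1 / 2 ≤ H L l (x + σ * dirv i) := by
      have hfar : ∀ σ : ℝ, |σ| ≤ 1.2 * (1201 * D) → ∀ l, l ≠ w → 1 / 2 ≤ H L l (x + σ * dirv i) := by
        intro σ hσ l hl
        have k1 := C3_low (hzj l hl) (ρ := 1200 * D) (z' := x) (by rw [norm_sub_rev]; exact hxz)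
        have k2 := C3_low k1 (ρ := 1.2 * (1201 * D)) (z' := x + σ * dirv i) (by rw [C3_dist_dir]; exact hσ)
        linarith
      by_cases hiw : i = w
      · subst hiw
        refine ⟨i + 1, by fin_cases i <;> simp [fin3_11, fin3_21], ?_⟩
        intro σ τ hσ hτ heq l
        by_cases hl : l = i
        · subst hl
          rw [C3_H_dir]
          obtain ⟨N, Q, n, hQ, hn, rfl⟩ := hi
          have f1 : 1 / 2 ≤ H L (l + 1) (Q n) := by
            have := C3_low (hzj (l + 1) (by fin_cases l <;> simp [fin3_11, fin3_21])) (ρ := 1200 * D) (z' := Q n)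
              (by rw [norm_sub_rev]; exact hxz)
            linarith
          have f2 : 1 / 2 ≤ H L (l + 2) (Q n) := by
            have := C3_low (hzj (l + 2) (by fin_cases l <;> simp [fin3_12, fin3_22])) (ρ := 1200 * D) (z' := Q n)
              (by rw [norm_sub_rev]; exact hxz)
            linarith
          have hg := h.S.g1le
          rcases Nat.eq_zero_or_pos n with rfl | h0
          · have s1 := hQ.start.2.1
            have s2 := hQ.start.2.2.2.1
            linarith
          · rcases hn.lt_or_eq with h1 | rfl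
            · have := (hQ.int n h0 h1).2.2.2.1 l
              linarith
            · have s1 := hQ.fin.2.1
              have s2 := hQ.fin.2.2.2.1
              linarith
        · exact hfar σ hσ l hl
      · refine ⟨w, hiw, ?_⟩
        intro σ τ hσ hτ heq l
        by_cases hl : l = w
        · subst hl
          rw [heq, C3_H_dir]
          have k1 := C3_low hzw (hvd l)
          linarith
        · exact hfar σ hσ l hl
    have k1 : LatClose L (8 * t * (1.2 * (1201 * D) + 1)) x (v j) := by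
      refine C3_join h hij hi (hv j) ?_ (by linarith) hlow
      have e : x - v j = (x - z0) + (z0 - v j) := by ring
      rw [e]
      refine (norm_add_le _ _).trans ?_
      linarith [hvd j]
    refine (k1.trans (hv0 j)).mono ?_
    have : t ≤ t * D := by nlinarith
    nlinarith
  have hA := hjoin a haX ha.1 (by rw [norm_sub_rev]; linarith)
  have hB := hjoin b hbX hb.1 (by
    have e : b - z0 = (a - z0) - (a - b) := by ring
    rw [e]
    refine (norm_sub_le _ _).trans ?_
    rw [norm_sub_rev] at hza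
    linarith)
  exact (hA.trans hB.symm).mono (by norm_num)

end H24
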