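import Mathlib

/-! H24 S, piece C4: the cocycle lemma (blueprint S9), general -/

set_option linter.unusedVariables false

noncomputable section

namespace H24

/-- Fix `o ∈ K` (if `K` is empty then `G` is empty), `N` with `‖a - o‖ / N ≤ r/8` for all `a ∈ K`. For `z ∈ K` choose `γ z ∈ G` within `D` of `z`.
`Φ a = sum_{j < N} κ (γ (o + (j/N)(a - o))) (γ (o + ((j+1)/N)(a - o))) + κ (γ a) a` for `a ∈ G`. For `‖a - b‖ ≤ r/4` compare the two paths square by square:
the four points `γ z_j, γ z_(j+1), γ z'_j, γ z'_(j+1)` are pairwise at distance `≤ 3r/8 + 2D ≤ r`. Note `κ a a = 0` and `κ b a = - κ a b`. -/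
theorem cocycle (K G : Set ℂ) (hK : Convex ℝ K) (hbd : Bornology.IsBounded K) (hGK : G ⊆ K) {D r : ℝ} (hD : 0 < D)
    (hr : 16 * D ≤ r) (hden : ∀ z ∈ K, ∃ g ∈ G, ‖z - g‖ ≤ D) (κ : ℂ → ℂ → ℤ)
    (hadd : ∀ a ∈ G, ∀ b ∈ G, ∀ c ∈ G, ‖a - b‖ ≤ r → ‖b - c‖ ≤ r → ‖a - c‖ ≤ r → κ a c = κ a b + κ b c) :
    ∃ Φ : ℂ → ℤ, ∀ a ∈ G, ∀ b ∈ G, ‖a - b‖ ≤ r / 4 → Φ b - Φ a = κ a b := by
  have hr0 : 0 < r := by linarith
  rcases K.eq_empty_or_nonempty with hKe | ⟨o, ho⟩
  · refine ⟨fun _ => 0, fun a ha => ?_⟩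
    have := hGK ha
    rw [hKe] at this
    exact this.elim
  obtain ⟨M, hM⟩ := hbd.exists_norm_le
  obtain ⟨N, hN⟩ := exists_nat_gt (16 * M / r)
  have hM0 : 0 ≤ M := (norm_nonneg o).trans (hM o ho)
  have hN0 : (0 : ℝ) < N := lt_of_le_of_lt (by positivity) hN
  have hstep : ∀ a ∈ K, ‖a - o‖ / N ≤ r / 8 := by
    intro a ha
    rw [div_le_iff₀ hN0]
    have h1 : ‖a - o‖ ≤ 2 * M := by
      refine (norm_sub_le _ _).trans ?_
      have := hM a ha
      have := hM o ho
      linarith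
    rw [div_lt_iff₀ hr0] at hN
    nlinarith
  have hγ : ∀ z : ℂ, ∃ g : ℂ, z ∈ K → g ∈ G ∧ ‖z - g‖ ≤ D := by
    intro z
    by_cases hz : z ∈ K
    · obtain ⟨g, h1, h2⟩ := hden z hz
      exact ⟨g, fun _ => ⟨h1, h2⟩⟩
    · exact ⟨0, fun h => (hz h).elim⟩
  choose γ hγ using hγ
  -- the paths
  set zz : ℂ → ℕ → ℂ := fun a j => o + ((j : ℝ) / N) • (a - o) with hzz
  have hzK : ∀ a ∈ K, ∀ j ≤ N, zz a j ∈ K := by
    intro a ha j hj
    refine hK.add_smul_sub_mem ho ha ⟨by positivity, ?_⟩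
    rw [div_le_one hN0]
    exact_mod_cast hj
  have hz0 : ∀ a, zz a 0 = o := by
    intro a
    simp [hzz]
  have hzN : ∀ a, zz a N = a := by
    intro a
    simp only [hzz]
    rw [div_self hN0.ne', one_smul]
    ring
  have hzs : ∀ a ∈ K, ∀ j, ‖zz a j - zz a (j + 1)‖ ≤ r / 8 := by
    intro a ha j
    have e1 : zz a j - zz a (j + 1) = (-(1 / (N : ℝ))) • (a - o) := by
      simp only [hzz]
      rw [add_sub_add_left_eq_sub, ← sub_smul]
      congr 1
      push_cast
      ring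
    rw [e1, norm_smul, norm_neg, Real.norm_of_nonneg (by positivity)]
    have := hstep a ha
    rw [div_eq_mul_inv] at this
    rw [one_div, mul_comm]
    exact this
  have hzab : ∀ a b, ∀ j ≤ N, ‖zz a j - zz b j‖ ≤ ‖a - b‖ := by
    intro a b j hj
    have e1 : zz a j - zz b j = ((j : ℝ) / N) • (a - b) := by
      simp only [hzz]
      rw [add_sub_add_left_eq_sub, ← smul_sub]
      congr 1
      ring
    rw [e1, norm_smul, Real.norm_of_nonneg (by positivity)]
    have h1 : (j : ℝ) / N ≤ 1 := by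
      rw [div_le_one hN0]
      exact_mod_cast hj
    have := norm_nonneg (a - b)
    nlinarith
  -- distances of the chosen points
  have hγd : ∀ z ∈ K, ∀ z' ∈ K, ‖z - z'‖ ≤ 3 * r / 8 → ‖γ z - γ z'‖ ≤ r := by
    intro z hz z' hz' h
    have h1 := (hγ z hz).2
    have h2 := (hγ z' hz').2
    have e1 : γ z - γ z' = (z - z') - (z - γ z) + (z' - γ z') := by ring
    rw [e1]
    refine (norm_add_le _ _).trans ?_
    have := norm_sub_le (z - z') (z - γ z)
    linarith
  have hκ0 : ∀ a ∈ G, κ a a = 0 := by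
    intro a ha
    have := hadd a ha a ha a ha (by simpa using hr0.le) (by simpa using hr0.le)
      (by simpa using hr0.le)
    omega
  refine ⟨fun a => (∑ j ∈ Finset.range N, κ (γ (zz a j)) (γ (zz a (j + 1)))) + κ (γ a) a, ?_⟩
  intro a ha b hb hab
  have haK := hGK ha
  have hbK := hGK hb
  have key : ∀ j ≤ N, (∑ i ∈ Finset.range j, κ (γ (zz a i)) (γ (zz a (i + 1)))) +
      κ (γ (zz a j)) (γ (zz b j)) = ∑ i ∈ Finset.range j, κ (γ (zz b i)) (γ (zz b (i + 1))) := by
    intro j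
    induction j with
    | zero =>
      intro _
      rw [hz0, hz0, Finset.sum_range_zero, Finset.sum_range_zero, hκ0 _ (hγ o ho).1, add_zero]
    | succ j ih =>
      intro hj
      have h1 := ih (by omega)
      rw [Finset.sum_range_succ, Finset.sum_range_succ, ← h1]
      have ka := hzK a haK j (by omega)
      have ka' := hzK a haK (j + 1) hj
      have kb := hzK b hbK j (by omega)
      have kb' := hzK b hbK (j + 1) hj
      have d1 := hzs a haK j
      have d2 := hzs b hbK j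
      have d3 := hzab a b j (by omega)
      have d4 := hzab a b (j + 1) hj
      have d5 : ‖zz a j - zz b (j + 1)‖ ≤ 3 * r / 8 := by
        have e1 : zz a j - zz b (j + 1) = (zz a j - zz a (j + 1)) + (zz a (j + 1) - zz b (j + 1)) := by
          ring
        rw [e1]
        refine (norm_add_le _ _).trans ?_
        linarith
      have m1 := hadd _ (hγ _ ka).1 _ (hγ _ ka').1 _ (hγ _ kb').1
        (hγd _ ka _ ka' (by linarith)) (hγd _ ka' _ kb' (by linarith)) (hγd _ ka _ kb' d5)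
      have m2 := hadd _ (hγ _ ka).1 _ (hγ _ kb).1 _ (hγ _ kb').1
        (hγd _ ka _ kb (by linarith)) (hγd _ kb _ kb' (by linarith)) (hγd _ ka _ kb' d5)
      linarith
  have hN' := key N le_rfl
  rw [hzN, hzN] at hN'
  have ga := hγ a haK
  have gb := hγ b hbK
  have e1 : ‖γ a - γ b‖ ≤ r := hγd a haK b hbK (by linarith)
  have e2 : ‖γ b - b‖ ≤ r := by
    rw [norm_sub_rev]
    linarith [gb.2]
  have e3 : ‖γ a - a‖ ≤ r := by
    rw [norm_sub_rev]
    linarith [ga.2]
  have e4 : ‖γ a - b‖ ≤ r := by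
    have e5 : γ a - b = -(a - γ a) + (a - b) := by ring
    rw [e5]
    refine (norm_add_le _ _).trans ?_
    rw [norm_neg]
    linarith [ga.2]
  have m1 := hadd _ ga.1 _ gb.1 _ hb e1 e2 e4
  have m2 := hadd _ ga.1 _ ha _ hb e3 (by linarith) e4
  show (∑ j ∈ Finset.range N, κ (γ (zz b j)) (γ (zz b (j + 1)))) + κ (γ b) b -
    ((∑ j ∈ Finset.range N, κ (γ (zz a j)) (γ (zz a (j + 1)))) + κ (γ a) a) = κ a b
  rw [← hN']
  linarith

end H24
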