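import Pool.Agent.Lib_MP_27c196_co.S.C5a

/-! H24 S, piece C5b: global labels (blueprint S10) -/

set_option linter.unusedVariables false

noncomputable section

namespace H24

open Finset

variable {L E0 g1 R0 t D : ℝ} {X : Finset ℂ} {err : ℂ → ℝ}

/-- the labels -/
structure LamData (L g1 t D : ℝ) (X : Finset ℂ) (err : ℂ → ℝ) (lam : ℂ → Fin 3 → ℤ) (K : ℤ) : Prop where
  loc : ∀ a b, GG L g1 t D X err a → GG L g1 t D X err b → ‖a - b‖ ≤ 50 * D →
    ∀ i, |H L i b - H L i a - ((lam b i : ℝ) - lam a i)| ≤ 1 / 100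
  wall : ∀ i a, GG L g1 t D X err a → GWall L g1 X err i a → lam a i = 0
  sum : ∀ a, GG L g1 t D X err a → lam a 0 + lam a 1 + lam a 2 = K

/-- a point with given heights -/
private theorem C5_pt (L : ℝ) (f : Fin 3 → ℝ) (hf : f 0 + f 1 + f 2 = L) : ∃ z : ℂ, ∀ i, H L i z = f i := by
  refine ⟨⟨f 1 + f 0 / 2, √3 / 2 * f 0⟩, fun i => ?_⟩
  have h0 := sqrt3_pos
  fin_cases i
  · simp [H]
    field_simp
  · simp [H]
    field_simp
    ring
  · simp [H]
    field_simp
    linarith

/-- heights on a segment -/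
private theorem C5_seg (L : ℝ) (i : Fin 3) (a b : ℂ) (τ : ℝ) :
    H L i (a + τ * (b - a)) = (1 - τ) * H L i a + τ * H L i b := by
  have h1 := H_add L i a (τ * (b - a))
  have h2 := H_smul L i τ (b - a)
  have h3 := H_sub L i b a
  rw [h1, h2, ← h3]
  ring

private theorem C5_nonneg (h : LData L E0 g1 R0 t D X err) {a : ℂ} (ha : GG L g1 t D X err a) (i : Fin 3) :
    0 ≤ H L i a :=
  h.S.inT a (GG_int_or_wall h ha).1 i

private theorem C5_cases (i l : Fin 3) : l = i ∨ l = i + 1 ∨ l = i + 2 := by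
  fin_cases i <;> fin_cases l <;> simp

private theorem C5_sum (L : ℝ) (i : Fin 3) (z : ℂ) : H L i z + H L (i + 1) z + H L (i + 2) z = L := by
  have h := H_sum L z
  fin_cases i
  · simpa using h
  · have e1 : (1 : Fin 3) + 1 = 2 := rfl
    have e2 : (1 : Fin 3) + 2 = 0 := rfl
    show H L 1 z + H L (1 + 1) z + H L (1 + 2) z = L
    rw [e1, e2]
    linarith
  · have e1 : (2 : Fin 3) + 1 = 0 := rfl
    have e2 : (2 : Fin 3) + 2 = 1 := rfl
    show H L 2 z + H L (2 + 1) z + H L (2 + 2) z = L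
    rw [e1, e2]
    linarith

private theorem C5_int_eq {x y : ℤ} {u : ℝ} (h1 : |u - ((x : ℝ) - y)| ≤ 1 / 10) (h2 : |u| ≤ 1 / 10) : x = y := by
  have h3 : |(x : ℝ) - y| < 1 := by
    have h4 : (x : ℝ) - y = u - (u - ((x : ℝ) - y)) := by ring
    rw [h4]
    have h5 := abs_sub u (u - ((x : ℝ) - y))
    linarith
  have h6 : |x - y| < 1 := by exact_mod_cast h3
  have h7 := Int.abs_lt_one_iff.mp h6
  omega

/-- walking along the segment from `a` to `b` -/
private theorem C5_chain (h : LData L E0 g1 R0 t D X err) {a b : ℂ} (ha : GG L g1 t D X err a)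
    (hb : GG L g1 t D X err b) (R : ℂ → ℕ → Prop) (h0 : R a 0)
    (hs : ∀ g g' j, GG L g1 t D X err g → GG L g1 t D X err g' → ‖g - g'‖ ≤ 50 * D → R g j → R g' (j + 1)) :
    ∃ N : ℕ, (N : ℝ) ≤ ‖a - b‖ / (5 * D) + 2 ∧ R b N := by
  have hD := h.D1
  have hq0 : 0 ≤ ‖a - b‖ / (5 * D) := by positivity
  obtain ⟨M, hM⟩ : ∃ M : ℕ, M = ⌊‖a - b‖ / (5 * D)⌋₊ + 1 := ⟨_, rfl⟩
  have hMr : (M : ℝ) = ⌊‖a - b‖ / (5 * D)⌋₊ + 1 := by rw [hM]; push_cast; ring
  have hM0 : (0 : ℝ) < M := by rw [hMr]; positivity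
  have hM1 : ‖a - b‖ ≤ M * (5 * D) := by
    have h1 := Nat.lt_floor_add_one (‖a - b‖ / (5 * D))
    rw [div_lt_iff₀ (by linarith)] at h1
    rw [hMr]
    linarith
  have hM2 : (M : ℝ) ≤ ‖a - b‖ / (5 * D) + 1 := by
    have h1 := Nat.floor_le hq0
    rw [hMr]
    linarith
  obtain ⟨z, hzdef⟩ : ∃ z : ℕ → ℂ, ∀ j, z j = a + ((j / M : ℝ) : ℂ) * (b - a) := ⟨_, fun _ => rfl⟩
  have hz : ∀ j ≤ M, (∀ i, 0 ≤ H L i (z j)) ∧ ∀ i, H L i (z j) ≤ L - 100000 * D := by
    intro j hj
    have e0 : 0 ≤ (j : ℝ) / M := by positivity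
    have e1 : (j : ℝ) / M ≤ 1 := by
      rw [div_le_one hM0]
      exact_mod_cast hj
    constructor
    · intro i
      rw [hzdef, C5_seg]
      have := C5_nonneg h ha i
      have := C5_nonneg h hb i
      have e2 : 0 ≤ 1 - (j : ℝ) / M := by linarith
      positivity
    · intro i
      rw [hzdef, C5_seg]
      have u1 := mul_le_mul_of_nonneg_left (ha.2 i) (show 0 ≤ 1 - (j : ℝ) / M by linarith)
      have u2 := mul_le_mul_of_nonneg_left (hb.2 i) e0
      have e3 : (1 - (j : ℝ) / M) * (L - 100000 * D) + (j : ℝ) / M * (L - 100000 * D) = L - 100000 * D := by ring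
      linarith
  have hzz : ∀ j, ‖z j - z (j + 1)‖ ≤ 5 * D := by
    intro j
    have e : z j - z (j + 1) = ((1 / M : ℝ) : ℂ) * (a - b) := by
      rw [hzdef, hzdef]
      push_cast
      ring
    rw [e, norm_mul, Complex.norm_real, Real.norm_of_nonneg (by positivity), one_div, inv_mul_le_iff₀ hM0]
    linarith
  have key : ∀ j, j ≤ M → ∀ g, GG L g1 t D X err g → ‖g - z j‖ ≤ 5 * D → R g (j + 1) := by
    intro j
    induction j with
    | zero =>
      intro _ g hg hgz
      have e : z 0 = a := by rw [hzdef]; simp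
      rw [e] at hgz
      refine hs a g 0 ha hg ?_ h0
      rw [norm_sub_rev]
      linarith
    | succ j ih =>
      intro hj g hg hgz
      obtain ⟨p, hp, hpl, hpz⟩ := dense_G h (hz j (by omega)).1 (hz j (by omega)).2 0
      have hpG : GG L g1 t D X err p := ⟨⟨0, hp⟩, hpl⟩
      have h1 := ih (by omega) p hpG (by rw [norm_sub_rev]; exact hpz)
      refine hs p g (j + 1) hpG hg ?_ h1
      have e : p - g = (p - z j) + (z j - z (j + 1)) + (z (j + 1) - g) := by ring
      rw [e]
      have t1 := norm_add₃_le (a := p - z j) (b := z j - z (j + 1)) (c := z (j + 1) - g)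
      have t2 : ‖p - z j‖ ≤ 5 * D := by rw [norm_sub_rev]; exact hpz
      have t3 : ‖z (j + 1) - g‖ ≤ 5 * D := by rw [norm_sub_rev]; exact hgz
      have t4 := hzz j
      linarith
  refine ⟨M + 1, ?_, key M le_rfl b hb ?_⟩
  · push_cast
    linarith
  · have e : z M = b := by
      rw [hzdef, div_self hM0.ne']
      simp
    rw [e, sub_self, norm_zero]
    positivity

/-- all wall points of `GG` on one wall have the same label -/
private theorem C5_wall (h : LData L E0 g1 R0 t D X err) {lam : ℂ → Fin 3 → ℤ}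
    (hloc : ∀ a b, GG L g1 t D X err a → GG L g1 t D X err b → ‖a - b‖ ≤ 50 * D →
      ∀ i, |H L i b - H L i a - ((lam b i : ℝ) - lam a i)| ≤ 1 / 100) {i : Fin 3} {a b : ℂ}
    (ha : GG L g1 t D X err a) (hb : GG L g1 t D X err b) (wa : GWall L g1 X err i a) (wb : GWall L g1 X err i b) :
    lam b i = lam a i := by
  have hD := h.D1
  have hLD := h.LD
  have hg := h.S.g1le
  have hsm : ∀ c, GWall L g1 X err i c → |H L i c| ≤ 1 / 1000 := by
    intro c hc
    rw [abs_of_nonneg (h.S.inT c hc.1 i)]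
    have := hc.2.2.2.1
    have := hc.2.1
    linarith
  have hw : ∀ c c', GG L g1 t D X err c → GG L g1 t D X err c' → GWall L g1 X err i c → GWall L g1 X err i c' →
      ‖c - c'‖ ≤ 50 * D → lam c' i = lam c i := by
    intro c c' hc hc' wc wc' hd
    have h1 := hloc c c' hc hc' hd i
    have h2 := hsm c wc
    have h3 := hsm c' wc'
    have h4 := abs_sub (H L i c') (H L i c)
    exact C5_int_eq (h1.trans (by norm_num)) (h4.trans (by linarith))
  -- points on the wall
  have hne1 : i + 1 ≠ i := by fin_cases i <;> decide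
  have hne2 : i + 2 ≠ i := by fin_cases i <;> decide
  have hne3 : i + 2 ≠ i + 1 := by fin_cases i <;> decide
  have hpt : ∀ s : ℝ, ∃ z : ℂ, ∀ l, H L l z = if l = i then 0 else if l = i + 1 then s else L - s := by
    intro s
    apply C5_pt L (fun l => if l = i then 0 else if l = i + 1 then s else L - s)
    fin_cases i <;> simp
  choose Z hZ using hpt
  have hZ0 : ∀ s, H L i (Z s) = 0 := fun s => by rw [hZ]; simp
  have hZ1 : ∀ s, H L (i + 1) (Z s) = s := fun s => by rw [hZ, if_neg hne1, if_pos rfl]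
  have hZ2 : ∀ s, H L (i + 2) (Z s) = L - s := fun s => by rw [hZ, if_neg hne2, if_neg hne3]
  have hclose : ∀ c, GG L g1 t D X err c → GWall L g1 X err i c → ∃ s, 100000 * D ≤ s ∧ s ≤ L - 100000 * D ∧
      ‖c - Z s‖ ≤ D := by
    intro c hc wc
    have h1 := hsm c wc
    rw [abs_of_nonneg (h.S.inT c wc.1 i)] at h1
    have h0 := h.S.inT c wc.1 i
    have hsum := C5_sum L i c
    have u1 := hc.2 (i + 1)
    have u2 := hc.2 (i + 2)
    refine ⟨max (H L (i + 1) c) (100000 * D), le_max_right _ _, max_le u1 (by linarith), ?_⟩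
    have hm1 : H L (i + 1) c ≤ max (H L (i + 1) c) (100000 * D) := le_max_left _ _
    have hm2 : max (H L (i + 1) c) (100000 * D) ≤ H L (i + 1) c + 1 / 1000 := max_le (by linarith) (by linarith)
    refine (norm_le_of_H L _ _ (2 / 1000) ?_).trans (by linarith)
    intro l
    rcases C5_cases i l with rfl | rfl | rfl
    · rw [hZ0, sub_zero, abs_of_nonneg h0]
      linarith
    · rw [hZ1, abs_le]
      constructor <;> linarith
    · rw [hZ2, abs_le]
      constructor <;> linarith
  have hden : ∀ s, 100000 * D ≤ s → s ≤ L - 100000 * D → ∃ p, GG L g1 t D X err p ∧ GWall L g1 X err i p ∧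
      ‖Z s - p‖ ≤ 15 * D := by
    intro s hs1 hs2
    apply wall_dense h (hZ0 s)
    · intro l
      rcases C5_cases i l with rfl | rfl | rfl
      · rw [hZ0]
      · rw [hZ1]; linarith
      · rw [hZ2]; linarith
    · intro l
      rcases C5_cases i l with rfl | rfl | rfl
      · rw [hZ0]; linarith
      · rw [hZ1]; linarith
      · rw [hZ2]; linarith
  have hZZ : ∀ s s', |s - s'| ≤ 1 → ‖Z s - Z s'‖ ≤ 1.3 := by
    intro s s' hss
    have := norm_le_of_H L (Z s) (Z s') 1 (by
      intro l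
      rcases C5_cases i l with rfl | rfl | rfl
      · rw [hZ0, hZ0]; norm_num
      · rw [hZ1, hZ1]; exact hss
      · rw [hZ2, hZ2]
        have e : L - s - (L - s') = -(s - s') := by ring
        rw [e, abs_neg]
        exact hss)
    linarith
  obtain ⟨sa, ha1, ha2, ha3⟩ := hclose a ha wa
  obtain ⟨sb, hb1, hb2, hb3⟩ := hclose b hb wb
  obtain ⟨M, hM⟩ : ∃ M : ℕ, M = ⌊|sb - sa|⌋₊ + 1 := ⟨_, rfl⟩
  have hMr : (M : ℝ) = ⌊|sb - sa|⌋₊ + 1 := by rw [hM]; push_cast; ring
  have hM0 : (0 : ℝ) < M := by rw [hMr]; positivity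
  have hM1 : |sb - sa| ≤ M := by
    rw [hMr]
    exact (Nat.lt_floor_add_one _).le
  obtain ⟨σ, hσ⟩ : ∃ σ : ℕ → ℝ, ∀ j, σ j = sa + (j / M : ℝ) * (sb - sa) := ⟨_, fun _ => rfl⟩
  have hσr : ∀ j ≤ M, 100000 * D ≤ σ j ∧ σ j ≤ L - 100000 * D := by
    intro j hj
    have e0 : 0 ≤ (j : ℝ) / M := by positivity
    have e1 : (j : ℝ) / M ≤ 1 := by
      rw [div_le_one hM0]
      exact_mod_cast hj
    have e2 : σ j = (1 - (j : ℝ) / M) * sa + (j : ℝ) / M * sb := by rw [hσ]; ring
    rw [e2]
    have e4 : 0 ≤ 1 - (j : ℝ) / M := by linarith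
    constructor
    · have u1 := mul_le_mul_of_nonneg_left ha1 e4
      have u2 := mul_le_mul_of_nonneg_left hb1 e0
      have e3 : (1 - (j : ℝ) / M) * (100000 * D) + (j : ℝ) / M * (100000 * D) = 100000 * D := by ring
      linarith
    · have u1 := mul_le_mul_of_nonneg_left ha2 e4
      have u2 := mul_le_mul_of_nonneg_left hb2 e0
      have e3 : (1 - (j : ℝ) / M) * (L - 100000 * D) + (j : ℝ) / M * (L - 100000 * D) = L - 100000 * D := by ring
      linarith
  have hσσ : ∀ j, |σ j - σ (j + 1)| ≤ 1 := by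
    intro j
    have e : σ j - σ (j + 1) = -((1 / M : ℝ) * (sb - sa)) := by
      rw [hσ, hσ]
      push_cast
      ring
    rw [e, abs_neg, abs_mul, abs_of_nonneg (by positivity : (0 : ℝ) ≤ 1 / M), one_div, inv_mul_le_iff₀ hM0]
    linarith
  have key : ∀ j, j ≤ M → ∀ g, GG L g1 t D X err g → GWall L g1 X err i g → ‖g - Z (σ j)‖ ≤ 15 * D →
      lam g i = lam a i := by
    intro j
    induction j with
    | zero =>
      intro _ g hg wg hgz
      have e : σ 0 = sa := by rw [hσ]; simp
      rw [e] at hgz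
      apply hw a g ha hg wa wg
      have e2 : a - g = (a - Z sa) + (Z sa - g) := by ring
      rw [e2]
      have t1 := norm_add_le (a - Z sa) (Z sa - g)
      have t3 : ‖Z sa - g‖ ≤ 15 * D := by rw [norm_sub_rev]; exact hgz
      linarith
    | succ j ih =>
      intro hj g hg wg hgz
      have hr := hσr j (by omega)
      obtain ⟨p, hp, wp, hpz⟩ := hden (σ j) hr.1 hr.2
      have h1 := ih (by omega) p hp wp (by rw [norm_sub_rev]; exact hpz)
      rw [← h1]
      apply hw p g hp hg wp wg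
      have e : p - g = (p - Z (σ j)) + (Z (σ j) - Z (σ (j + 1))) + (Z (σ (j + 1)) - g) := by ring
      rw [e]
      have t1 := norm_add₃_le (a := p - Z (σ j)) (b := Z (σ j) - Z (σ (j + 1))) (c := Z (σ (j + 1)) - g)
      have t2 : ‖p - Z (σ j)‖ ≤ 15 * D := by rw [norm_sub_rev]; exact hpz
      have t3 : ‖Z (σ (j + 1)) - g‖ ≤ 15 * D := by rw [norm_sub_rev]; exact hgz
      have t4 := hZZ _ _ (hσσ j)
      linarith
  have e : σ M = sb := by
    rw [hσ, div_self hM0.ne']
    ring
  exact key M le_rfl b hb wb (by rw [e]; linarith)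

/-- there are wall points -/
private theorem C5_exists_wall (h : LData L E0 g1 R0 t D X err) (i : Fin 3) :
    ∃ p, GG L g1 t D X err p ∧ GWall L g1 X err i p := by
  have hD := h.D1
  have hLD := h.LD
  have hne1 : i + 1 ≠ i := by fin_cases i <;> decide
  have hne2 : i + 2 ≠ i := by fin_cases i <;> decide
  obtain ⟨z, hz⟩ := C5_pt L (fun l => if l = i then 0 else L / 2) (by fin_cases i <;> simp)
  have hz' : ∀ l, H L l z = if l = i then 0 else L / 2 := hz
  have h0 : H L i z = 0 := by rw [hz']; simp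
  obtain ⟨p, hp, wp, _⟩ := wall_dense h (i := i) (z := z) h0 (by
    intro l
    rw [hz']
    split_ifs
    · exact le_rfl
    · linarith) (by
    intro l
    rw [hz']
    split_ifs
    · linarith
    · linarith)
  exact ⟨p, hp, wp⟩

/-- Points of `GG` on one wall `i`: the same `lam i` (chain along the wall: sample the wall segment with step `≤ 10 D`, consecutive wall points of `wall_dense` are at distance `≤ 40 D`, their `H i` are `≤ 1/1000`);
the sum of the three labels is locally constant and `GG` is chain connected (sample the segment, `dense_G`), so it is constant. Subtract the value on the wall `i` from the coordinate `i`. -/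
theorem exists_lam (h : LData L E0 g1 R0 t D X err) : ∃ (lam : ℂ → Fin 3 → ℤ) (K : ℤ), LamData L g1 t D X err lam K := by
  obtain ⟨lam, hloc⟩ := exists_loc h
  choose W hW wW using C5_exists_wall h
  refine ⟨fun a i => lam a i - lam (W i) i, lam (W 0) 0 + lam (W 0) 1 + lam (W 0) 2 -
    (lam (W 0) 0 + lam (W 1) 1 + lam (W 2) 2), ?_, ?_, ?_⟩
  · intro a b ha hb hab i
    have h1 := hloc a b ha hb hab i
    have e : H L i b - H L i a - (((lam b i - lam (W i) i : ℤ) : ℝ) - ((lam a i - lam (W i) i : ℤ) : ℝ)) =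
        H L i b - H L i a - ((lam b i : ℝ) - lam a i) := by
      push_cast
      ring
    show |H L i b - H L i a - (((lam b i - lam (W i) i : ℤ) : ℝ) - ((lam a i - lam (W i) i : ℤ) : ℝ))| ≤ 1 / 100
    rw [e]
    exact h1
  · intro i a ha wa
    have h1 := C5_wall h hloc (hW i) ha (wW i) wa
    show lam a i - lam (W i) i = 0
    omega
  · intro a ha
    obtain ⟨N, _, hN⟩ := C5_chain h (hW 0) ha
      (fun g _ => lam g 0 + lam g 1 + lam g 2 = lam (W 0) 0 + lam (W 0) 1 + lam (W 0) 2) rfl (by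
        intro g g' j hg hg' hgg hr
        have l0 := hloc g g' hg hg' hgg 0
        have l1 := hloc g g' hg hg' hgg 1
        have l2 := hloc g g' hg hg' hgg 2
        have s1 := H_sum L g
        have s2 := H_sum L g'
        rw [← hr]
        apply C5_int_eq (u := 0)
        · push_cast
          rw [abs_le] at l0 l1 l2 ⊢
          constructor <;> linarith
        · norm_num)
    have hN' : lam a 0 + lam a 1 + lam a 2 = lam (W 0) 0 + lam (W 0) 1 + lam (W 0) 2 := hN
    show lam a 0 - lam (W 0) 0 + (lam a 1 - lam (W 1) 1) + (lam a 2 - lam (W 2) 2) = _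
    omega

/-- sample the segment from `a` to `b` with step `≤ 5 D`: at most `‖a - b‖ / (5 D) + 2` steps, each with error `1/100` -/
theorem lam_glob (h : LData L E0 g1 R0 t D X err) {lam : ℂ → Fin 3 → ℤ} {K : ℤ} (hl : LamData L g1 t D X err lam K)
    {a b : ℂ} (ha : GG L g1 t D X err a) (hb : GG L g1 t D X err b) (i : Fin 3) :
    |H L i b - H L i a - ((lam b i : ℝ) - lam a i)| ≤ ‖a - b‖ / 10 + 1 / 100 := by
  have hD := h.D1
  by_cases hab : ‖a - b‖ ≤ 50 * D
  · have h1 := hl.loc a b ha hb hab i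
    have h2 := norm_nonneg (a - b)
    linarith
  · push Not at hab
    obtain ⟨N, hN, hR⟩ := C5_chain h ha hb
      (fun g j => |H L i g - H L i a - ((lam g i : ℝ) - lam a i)| ≤ (j : ℝ) / 100) (by simp) (by
        intro g g' j hg hg' hgg hr
        have h1 := hl.loc g g' hg hg' hgg i
        have hr' : |H L i g - H L i a - ((lam g i : ℝ) - lam a i)| ≤ (j : ℝ) / 100 := hr
        show |H L i g' - H L i a - ((lam g' i : ℝ) - lam a i)| ≤ ((j + 1 : ℕ) : ℝ) / 100
        have e : H L i g' - H L i a - ((lam g' i : ℝ) - lam a i) = (H L i g - H L i a - ((lam g i : ℝ) - lam a i)) +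
            (H L i g' - H L i g - ((lam g' i : ℝ) - lam g i)) := by ring
        rw [e]
        refine (abs_add_le _ _).trans ?_
        push_cast
        linarith)
    have hR' : |H L i b - H L i a - ((lam b i : ℝ) - lam a i)| ≤ (N : ℝ) / 100 := hR
    refine hR'.trans ?_
    have h3 : ‖a - b‖ / (5 * D) ≤ ‖a - b‖ / 5 := by
      apply div_le_div_of_nonneg_left (norm_nonneg _) (by norm_num)
      linarith
    linarith

end H24
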