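import Pool.Agent.Lib_MP_27c196_co.S.C3
import Pool.Agent.Lib_MP_27c196_co.S.C4

/-! H24 S, piece C5a: density of `GG`, of its wall points; local labels (blueprint S9, S10) -/

set_option linter.unusedVariables false

noncomputable section

namespace H24

open Finset

variable {L E0 g1 R0 t D : ℝ} {X : Finset ℂ} {err : ℂ → ℝ}

theorem C5a_split (i l : Fin 3) : l = i ∨ l = i + 1 ∨ l = i + 2 := by
  revert i l
  decide

theorem C5a_12 (i : Fin 3) : i + 1 + 2 = i := by
  revert i
  decide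

theorem C5a_11 (i : Fin 3) : i + 1 + 1 = i + 2 := by
  revert i
  decide

theorem C5a_21 (i : Fin 3) : i + 2 + 1 = i := by
  revert i
  decide

theorem C5a_22 (i : Fin 3) : i + 2 + 2 = i + 1 := by
  revert i
  decide

theorem C5a_mv0 (L : ℝ) (i : Fin 3) (z : ℂ) (s : ℝ) : H L i (z + s * dirv i) = H L i z := by
  have h1 := H_add L i z (s * dirv i)
  have h2 := H_smul L i s (dirv i)
  have h3 := H_dir_self L i
  rw [h1, h2, h3]; ring

theorem C5a_mv1 (L : ℝ) (i : Fin 3) (z : ℂ) (s : ℝ) : H L (i + 1) (z + s * dirv i) = H L (i + 1) z + s := by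
  have h1 := H_add L (i + 1) z (s * dirv i)
  have h2 := H_smul L (i + 1) s (dirv i)
  have h3 := H_dir_add1 L i
  rw [h1, h2, h3]; ring

theorem C5a_mv2 (L : ℝ) (i : Fin 3) (z : ℂ) (s : ℝ) : H L (i + 2) (z + s * dirv i) = H L (i + 2) z - s := by
  have h1 := H_add L (i + 2) z (s * dirv i)
  have h2 := H_smul L (i + 2) s (dirv i)
  have h3 := H_dir_add2 L i
  rw [h1, h2, h3]; ring

theorem C5a_sum (L : ℝ) (i : Fin 3) (z : ℂ) : H L i z + H L (i + 1) z + H L (i + 2) z = L := by
  have h := H_sum L z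
  fin_cases i
  · simpa using h
  · have e1 : ((1 : Fin 3) + 1) = 2 := by decide
    have e2 : ((1 : Fin 3) + 2) = 0 := by decide
    show H L 1 z + H L (1 + 1) z + H L (1 + 2) z = L
    rw [e1, e2]; linarith
  · have e1 : ((2 : Fin 3) + 1) = 0 := by decide
    have e2 : ((2 : Fin 3) + 2) = 1 := by decide
    show H L 2 z + H L (2 + 1) z + H L (2 + 2) z = L
    rw [e1, e2]; linarith

/-- the move which changes the heights by `(-s, s/2, s/2)` -/
theorem C5a_down (L : ℝ) (i : Fin 3) (z : ℂ) (s : ℝ) (hs : 0 ≤ s) : ∃ z' : ℂ, H L i z' = H L i z - s ∧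
    H L (i + 1) z' = H L (i + 1) z + s / 2 ∧ H L (i + 2) z' = H L (i + 2) z + s / 2 ∧ ‖z - z'‖ ≤ s := by
  refine ⟨z + ((s / 2 : ℝ) : ℂ) * dirv (i + 1) + ((-(s / 2) : ℝ) : ℂ) * dirv (i + 2), ?_, ?_, ?_, ?_⟩
  · have e1 : i + 2 + 1 = i := by revert i; decide
    have e2 : i + 1 + 2 = i := by revert i; decide
    have h1 := C5a_mv1 L (i + 2) (z + ((s / 2 : ℝ) : ℂ) * dirv (i + 1)) (-(s / 2))
    have h2 := C5a_mv2 L (i + 1) z (s / 2)
    rw [e1] at h1
    rw [e2] at h2
    rw [h1, h2]; ring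
  · have e1 : i + 2 + 2 = i + 1 := by revert i; decide
    have h1 := C5a_mv2 L (i + 2) (z + ((s / 2 : ℝ) : ℂ) * dirv (i + 1)) (-(s / 2))
    have h2 := C5a_mv0 L (i + 1) z (s / 2)
    rw [e1] at h1
    rw [h1, h2]; ring
  · have e1 : i + 1 + 1 = i + 2 := by revert i; decide
    have h1 := C5a_mv0 L (i + 2) (z + ((s / 2 : ℝ) : ℂ) * dirv (i + 1)) (-(s / 2))
    have h2 := C5a_mv1 L (i + 1) z (s / 2)
    rw [e1] at h2
    rw [h1, h2]
  · have e : z - (z + ((s / 2 : ℝ) : ℂ) * dirv (i + 1) + ((-(s / 2) : ℝ) : ℂ) * dirv (i + 2)) =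
        -(((s / 2 : ℝ) : ℂ) * dirv (i + 1)) + ((s / 2 : ℝ) : ℂ) * dirv (i + 2) := by
      push_cast; ring
    rw [e]
    refine (norm_add_le _ _).trans ?_
    rw [norm_neg, norm_mul, norm_mul, dirv_norm, dirv_norm, Complex.norm_real, Real.norm_eq_abs,
      abs_of_nonneg (by positivity)]
    linarith

/-- if some `H l z > L - 100000 D - 2 D` (only one `l`, the sum is `L`) first move `z` by at most `2.2 D` so that `H l` drops by `2.4 D` and the two other heights rise; then `h.den`. -/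
theorem dense_G (h : LData L E0 g1 R0 t D X err) {z : ℂ} (hz : ∀ i, 0 ≤ H L i z) (hz' : ∀ i, H L i z ≤ L - 100000 * D)
    (i : Fin 3) : ∃ p, OnLine L g1 X err t i p ∧ (∀ l, H L l p ≤ L - 100000 * D) ∧ ‖z - p‖ ≤ 5 * D := by
  have hD := h.D1
  have hL := h.LD
  by_cases hc : ∀ l, H L l z ≤ L - 100000 * D - 2 * D
  · obtain ⟨p, hp, hpz⟩ := h.den z hz i
    refine ⟨p, hp, fun l => ?_, by linarith⟩
    have h1 := H_lip L l z p
    have h2 := hc l
    have h3 := (abs_le.mp h1).1
    linarith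
  · push Not at hc
    obtain ⟨l, hl⟩ := hc
    obtain ⟨z', h0, h1, h2, hn⟩ := C5a_down L l z (2.4 * D) (by positivity)
    have hs := C5a_sum L l z
    have hz0 := hz l
    have hz1 := hz (l + 1)
    have hz2 := hz (l + 2)
    have hzl := hz' l
    obtain ⟨p, hp, hpz⟩ := h.den z' (by
      intro j
      rcases C5a_split l j with rfl | rfl | rfl
      · rw [h0]; linarith
      · rw [h1]; linarith
      · rw [h2]; linarith) i
    refine ⟨p, hp, fun j => ?_, ?_⟩
    · have g1' := (abs_le.mp (H_lip L j z' p)).1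
      rcases C5a_split l j with rfl | rfl | rfl
      · rw [h0] at g1'; linarith
      · rw [h1] at g1'; linarith
      · rw [h2] at g1'; linarith
    · have : z - p = (z - z') + (z' - p) := by ring
      rw [this]
      refine (norm_add_le _ _).trans ?_
      linarith

/-- `z` on the wall `i`. First move it along the wall by at most `5 D` so that the heights are `≤ L - 100000 D - 4 D`; a clean line of type `j ≠ i` has a vertex within `D`; follow it to its end at the
wall `i` (`i = j+1` start, `i = j+2` end): `H i` drops by `1 + O(4t)` in each step, so at most `1.3 D + 2` steps. -/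
theorem wall_dense (h : LData L E0 g1 R0 t D X err) {z : ℂ} {i : Fin 3} (hi : H L i z = 0) (hz : ∀ l, 0 ≤ H L l z)
    (hz' : ∀ l, H L l z ≤ L - 100000 * D) : ∃ p, GG L g1 t D X err p ∧ GWall L g1 X err i p ∧ ‖z - p‖ ≤ 15 * D := by
  have hD := h.D1
  have hL := h.LD
  have ht0 := h.t0
  have htD := h.tD
  have ht : t ≤ 1 / 10000000 := by
    have : t * 1 ≤ t * D := mul_le_mul_of_nonneg_left hD ht0.le
    linarith
  -- the shifted point
  obtain ⟨z', g0, g1', g2', gn⟩ : ∃ z' : ℂ, H L i z' = 0 ∧ (5 * D ≤ H L (i + 1) z' ∧ H L (i + 1) z' ≤ L - 100005 * D) ∧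
      (5 * D ≤ H L (i + 2) z' ∧ H L (i + 2) z' ≤ L - 100005 * D) ∧ ‖z - z'‖ ≤ 5 * D := by
    have hs := C5a_sum L i z
    have a1 := hz' (i + 1)
    have a2 := hz' (i + 2)
    by_cases hc : H L (i + 1) z ≤ L / 2
    · refine ⟨z + ((5 * D : ℝ) : ℂ) * dirv i, ?_, ?_, ?_, ?_⟩
      · rw [C5a_mv0]; exact hi
      · rw [C5a_mv1]; constructor <;> linarith
      · rw [C5a_mv2]; constructor <;> linarith
      · have e : z - (z + ((5 * D : ℝ) : ℂ) * dirv i) = -(((5 * D : ℝ) : ℂ) * dirv i) := by ring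
        rw [e, norm_neg, norm_mul, dirv_norm, Complex.norm_real, Real.norm_eq_abs, abs_of_nonneg (by positivity)]
        linarith
    · push Not at hc
      refine ⟨z + ((-(5 * D) : ℝ) : ℂ) * dirv i, ?_, ?_, ?_, ?_⟩
      · rw [C5a_mv0]; exact hi
      · rw [C5a_mv1]; constructor <;> linarith
      · rw [C5a_mv2]; constructor <;> linarith
      · have e : z - (z + ((-(5 * D) : ℝ) : ℂ) * dirv i) = ((5 * D : ℝ) : ℂ) * dirv i := by push_cast; ring
        rw [e, norm_mul, dirv_norm, Complex.norm_real, Real.norm_eq_abs, abs_of_nonneg (by positivity)]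
        linarith
  -- the line of type `i + 1`
  obtain ⟨p0, ⟨N, Q, a, hQ, haN, rfl⟩, hpz⟩ := h.den z' (by
      intro j
      rcases C5a_split i j with rfl | rfl | rfl
      · rw [g0]
      · linarith [g1'.1]
      · linarith [g2'.1]) (i + 1)
  have e2 : i + 1 + 2 = i := C5a_12 i
  have hfin := hQ.fin
  rw [e2] at hfin
  obtain ⟨q1, q2, q3, q4⟩ := line_heights h.S (by linarith) hQ haN le_rfl
  rw [e2] at q3
  have hN0 : 0 ≤ H L i (Q N) := h.S.inT _ (line_mem hQ le_rfl) i
  have hlip := (abs_le.mp (H_lip L i z' (Q a))).1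
  rw [g0] at hlip
  have hna : (0 : ℝ) ≤ (N : ℝ) - a := by
    have : (a : ℝ) ≤ N := by exact_mod_cast haN
    linarith
  have hstep : (N : ℝ) - a ≤ 1.3 * D := by
    have b1 := (abs_le.mp q3).2
    have b2 : 4 * t * ((N : ℝ) - a) ≤ 1 / 1000 * ((N : ℝ) - a) :=
      mul_le_mul_of_nonneg_right (by linarith) hna
    nlinarith
  have hdist : ‖Q N - Q a‖ ≤ 1.4 * D := by
    have e : Q N - Q a = (Q N - Q a - ((N : ℂ) - a) * dirv (i + 1)) + ((N : ℂ) - a) * dirv (i + 1) := by ring
    rw [e]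
    refine (norm_add_le _ _).trans ?_
    have n1 : ‖((N : ℂ) - a) * dirv (i + 1)‖ = (N : ℝ) - a := by
      rw [norm_mul, dirv_norm, mul_one]
      have : ((N : ℂ) - a) = (((N : ℝ) - a : ℝ) : ℂ) := by push_cast; ring
      rw [this, Complex.norm_real, Real.norm_eq_abs, abs_of_nonneg hna]
    rw [n1]
    have b2 : 3 * t * ((N : ℝ) - a) ≤ 1 / 1000 * ((N : ℝ) - a) :=
      mul_le_mul_of_nonneg_right (by linarith) hna
    nlinarith
  have hz'N : ‖z' - Q N‖ ≤ 2.4 * D := by
    have e : z' - Q N = (z' - Q a) - (Q N - Q a) := by ring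
    rw [e]
    refine (norm_sub_le _ _).trans ?_
    linarith
  refine ⟨Q N, ⟨⟨i + 1, N, Q, N, hQ, le_rfl, rfl⟩, fun j => ?_⟩, hfin, ?_⟩
  · have c1 := (abs_le.mp (H_lip L j z' (Q N))).1
    rcases C5a_split i j with rfl | rfl | rfl
    · rw [g0] at c1; nlinarith
    · linarith [g1'.2]
    · linarith [g2'.2]
  · have e : z - Q N = (z - z') + (z' - Q N) := by ring
    rw [e]
    refine (norm_add_le _ _).trans ?_
    linarith

theorem C5a_affine (L : ℝ) (i : Fin 3) (x y : ℂ) (a b : ℝ) (hab : a + b = 1) :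
    H L i (a • x + b • y) = a * H L i x + b * H L i y := by
  have hL : L = a * L + b * L := by rw [← add_mul, hab, one_mul]
  fin_cases i
  · simp [H]; ring
  · simp [H]; ring
  · simp [H]
    linear_combination hL

/-- `cocycle` for each coordinate, with `K = {z : 0 ≤ H l z ≤ L - 100000 D for all l}`, `G = {p : GG p}`, density `5 D`, `r = 200 D`, `κ a b = round (H i b - H i a)`; additive by `hub` (`3/100 < 1`). -/
theorem exists_loc (h : LData L E0 g1 R0 t D X err) : ∃ lam : ℂ → Fin 3 → ℤ, ∀ a b, GG L g1 t D X err a →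
    GG L g1 t D X err b → ‖a - b‖ ≤ 50 * D → ∀ i, |H L i b - H L i a - ((lam b i : ℝ) - lam a i)| ≤ 1 / 100 := by
  have hD := h.D1
  have hL := h.LD
  have hDpos : (0 : ℝ) < D := by linarith
  have hround : ∀ (x : ℝ) (c : ℤ), |x - c| ≤ 1 / 100 → round x = c := by
    intro x c hx
    have h1 := abs_sub_round x
    have h2 : |((round x : ℤ) : ℝ) - c| < 1 := by
      have e : ((round x : ℤ) : ℝ) - c = (x - c) - (x - round x) := by ring
      rw [e]
      refine (abs_sub _ _).trans_lt ?_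
      linarith
    have h3 : |round x - c| < 1 := by exact_mod_cast h2
    have h4 := Int.abs_lt_one_iff.mp h3
    omega
  have key : ∀ i : Fin 3, ∃ Φ : ℂ → ℤ, ∀ a ∈ {p | GG L g1 t D X err p}, ∀ b ∈ {p | GG L g1 t D X err p},
      ‖a - b‖ ≤ (200 * D) / 4 → Φ b - Φ a = round (H L i b - H L i a) := by
    intro i
    refine cocycle {z | (∀ l, 0 ≤ H L l z) ∧ ∀ l, H L l z ≤ L - 100000 * D} {p | GG L g1 t D X err p} ?_ ?_ ?_
      (D := 5 * D) (r := 200 * D) (by positivity) (by linarith) ?_ (fun a b => round (H L i b - H L i a)) ?_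
    · intro x hx y hy a b ha hb hab
      refine ⟨fun l => ?_, fun l => ?_⟩
      · rw [C5a_affine L l x y a b hab]
        have := mul_nonneg ha (hx.1 l)
        have := mul_nonneg hb (hy.1 l)
        linarith
      · rw [C5a_affine L l x y a b hab]
        have h1 := mul_le_mul_of_nonneg_left (hx.2 l) ha
        have h2 := mul_le_mul_of_nonneg_left (hy.2 l) hb
        calc a * H L l x + b * H L l y ≤ a * (L - 100000 * D) + b * (L - 100000 * D) := by linarith
          _ = L - 100000 * D := by rw [← add_mul, hab, one_mul]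
    · rw [Metric.isBounded_iff_subset_closedBall (0 : ℂ)]
      refine ⟨1.3 * L, fun z hz => ?_⟩
      rw [mem_closedBall_iff_norm]
      refine norm_le_of_H L z 0 L fun l => ?_
      have h1 := hz.1 l
      have h2 := hz.2 l
      have h3 : 0 ≤ H L l 0 ∧ H L l 0 ≤ L := by
        have : (0 : ℝ) ≤ L := by linarith
        fin_cases l <;> simp [H, this]
      rw [abs_le]
      constructor <;> linarith [h3.1, h3.2]
    · intro p hp
      obtain ⟨⟨j, N, Q, a, hQ, ha, rfl⟩, hp2⟩ := hp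
      exact ⟨fun l => h.S.inT _ (line_mem hQ ha) l, hp2⟩
    · intro z hz
      obtain ⟨p, hp, hp2, hp3⟩ := dense_G h hz.1 hz.2 0
      exact ⟨p, ⟨⟨0, hp⟩, hp2⟩, hp3⟩
    · intro a ha b hb c hc hab hbc hac
      obtain ⟨c1, hc1⟩ := hub h ha hb hab i
      obtain ⟨c2, hc2⟩ := hub h hb hc hbc i
      obtain ⟨c3, hc3⟩ := hub h ha hc hac i
      show round (H L i c - H L i a) = round (H L i b - H L i a) + round (H L i c - H L i b)
      rw [hround _ _ hc1, hround _ _ hc2, hround _ _ hc3]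
      have h2 : |((c3 : ℤ) : ℝ) - (c1 + c2)| < 1 := by
        have e : ((c3 : ℤ) : ℝ) - (c1 + c2) = (H L i b - H L i a - c1) + (H L i c - H L i b - c2) -
            (H L i c - H L i a - c3) := by ring
        rw [e]
        refine (abs_sub _ _).trans_lt ?_
        have := abs_add_le (H L i b - H L i a - c1) (H L i c - H L i b - c2)
        linarith
      have h3 : |c3 - (c1 + c2)| < 1 := by exact_mod_cast h2
      have h4 := Int.abs_lt_one_iff.mp h3
      omega
  choose Φ hΦ using key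
  refine ⟨fun z i => Φ i z, fun a b ha hb hab i => ?_⟩
  have h1 := hΦ i a ha b hb (by linarith)
  obtain ⟨c, hc⟩ := hub h ha hb (by linarith) i
  rw [hround _ _ hc] at h1
  have h2 : ((Φ i b : ℤ) : ℝ) - Φ i a = c := by exact_mod_cast h1
  show |H L i b - H L i a - (((Φ i b : ℤ) : ℝ) - (Φ i a : ℤ))| ≤ 1 / 100
  rw [h2]
  exact hc

end H24
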