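import Pool.Agent.Lib_MP_27c196_co.S.C6a

/-! H24 S, piece C6: labels near the walls (blueprint S11) -/

set_option linter.unusedVariables false

noncomputable section

namespace H24

open Finset

variable {L E0 g1 R0 t D : ℝ} {X : Finset ℂ} {err : ℂ → ℝ} {lam : ℂ → Fin 3 → ℤ} {K : ℤ}

/-- the clean values of type `i` -/
def CleanVal (L g1 t D : ℝ) (X : Finset ℂ) (err : ℂ → ℝ) (lam : ℂ → Fin 3 → ℤ) (i : Fin 3) (c : ℤ) : Prop :=
  ∃ (N : ℕ) (Q : ℕ → ℂ) (a : ℕ), CLine L g1 X err i t N Q ∧ a ≤ N ∧ GG L g1 t D X err (Q a) ∧ lam (Q a) i = c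

private lemma C6_t (h : LData L E0 g1 R0 t D X err) : t ≤ 1 / 10000000 := by
  have h1 := h.tD
  have h2 := h.D1
  have h3 := h.t0
  nlinarith

private lemma C6_H0 (h : LData L E0 g1 R0 t D X err) {p : ℂ} (hp : p ∈ X) (i : Fin 3) : 0 ≤ H L i p :=
  h.S.inT p hp i

/-- heights of the next vertex -/
private lemma C6_next (h : LData L E0 g1 R0 t D X err) {i : Fin 3} {N : ℕ} {Q : ℕ → ℂ}
    (hQ : CLine L g1 X err i t N Q) {b : ℕ} (hb : b + 1 ≤ N) :
    |H L i (Q (b + 1)) - H L i (Q b)| ≤ 1 / 1000 ∧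
      |H L (i + 1) (Q (b + 1)) - H L (i + 1) (Q b) - 1| ≤ 1 / 1000 ∧
      |H L (i + 2) (Q (b + 1)) - H L (i + 2) (Q b) + 1| ≤ 1 / 1000 := by
  have ht := C6_t h
  obtain ⟨h1, h2, h3, -⟩ := line_heights h.S (by linarith) hQ (Nat.le_succ b) hb
  have e : ((b + 1 : ℕ) : ℝ) - b = 1 := by push_cast; ring
  simp only [Nat.succ_eq_add_one, e, mul_one] at h1 h2 h3
  exact ⟨h1.trans (by linarith), h2.trans (by linarith), h3.trans (by linarith)⟩

private lemma C6_sum (hl : LamData L g1 t D X err lam K) {a : ℂ} (ha : GG L g1 t D X err a) (i : Fin 3) :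
    lam a i + lam a (i + 1) + lam a (i + 2) = K := by
  have h1 := hl.sum a ha
  fin_cases i <;> simp [fin3_11, fin3_12, fin3_21, fin3_22] <;> linarith

private lemma C6_Hsum (i : Fin 3) (z : ℂ) : H L i z + H L (i + 1) z + H L (i + 2) z = L := by
  have h1 := H_sum L z
  fin_cases i <;> simp [fin3_11, fin3_12, fin3_21, fin3_22] <;> linarith

private lemma C6_all {P : Fin 3 → Prop} (i : Fin 3) (h0 : P i) (h1 : P (i + 1)) (h2 : P (i + 2)) : ∀ j, P j := by
  intro j
  fin_cases i <;> fin_cases j <;>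
    simp only [Fin.zero_eta, Fin.mk_one, Fin.reduceFinMk, fin3_11, fin3_12, fin3_21, fin3_22, zero_add] at h0 h1 h2 ⊢ <;>
    assumption

private lemma C6_lo (h : LData L E0 g1 R0 t D X err) (hl : LamData L g1 t D X err lam K) {a : ℂ}
    (ha : GG L g1 t D X err a) (i : Fin 3) (hbig : 400000 * D < lam a i) : 340000 * D ≤ H L i a := by
  have h1 := abs_le.mp (lam_near h hl ha i)
  have h2 := h.D1
  linarith [h1.2]

/-- Realisation of the labels. Write `Rc = 100000 D`. From `Q a` move along the line towards the index with `lam (i+1) = l (i+1)`. Say `lam (Q b) (i+1) < l (i+1)`, `lam (Q b) i = l i`, `Q b ∈ GG`: then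
`lam (Q b) (i+2) > l (i+2) ≥ 0` so `Q b` is not `GWall (i+2)`, `b < N`; one of `l i`, `l (i+2)` is `> 4 Rc`, so (`lam_near`) one of `H i`, `H (i+2)` is `≥ 3.4 Rc` at `Q b` and `H (i+1) ≤ L - 3.4 Rc`;
`lam (i+1) + lam (i+2) = K - l i = l (i+1) + l (i+2) ≥ 4 Rc` gives `H i ≤ L - 3 Rc`; `H (i+2)` decreases; so `Q (b+1) ∈ GG` and `lam_step`. The other direction in the same way. -/
theorem realise (h : LData L E0 g1 R0 t D X err) (hl : LamData L g1 t D X err lam K) {l : Fin 3 → ℤ}
    (hl0 : ∀ j, 0 ≤ l j) (hsum : l 0 + l 1 + l 2 = K)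
    (hbig : ∀ i j, i ≠ j → 400000 * D < l i ∨ 400000 * D < l j) {i : Fin 3}
    (hc : CleanVal L g1 t D X err lam i (l i)) : ∃ p, GG L g1 t D X err p ∧ ∀ j, lam p j = l j := by
  obtain ⟨N, Q, a, hQ, ha, hG, hla⟩ := hc
  have hD := h.D1
  have hLD := h.LD
  have hls : l i + l (i + 1) + l (i + 2) = K := by
    fin_cases i <;> simp [fin3_11, fin3_12, fin3_21, fin3_22] <;> linarith
  have hne1 : i ≠ i + 1 := by fin_cases i <;> simp
  have hne2 : i ≠ i + 2 := by fin_cases i <;> simp
  have hne12 : i + 1 ≠ i + 2 := by fin_cases i <;> simp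
  -- general facts at a vertex
  have key : ∀ b ≤ N, GG L g1 t D X err (Q b) → lam (Q b) i = l i → H L i (Q b) ≤ L - 300000 * D := by
    intro b hb hGb hlb
    have s1 := C6_sum hl hGb i
    have n1 := abs_le.mp (lam_near h hl hGb (i + 1))
    have n2 := abs_le.mp (lam_near h hl hGb (i + 2))
    have Hs := C6_Hsum (L := L) i (Q b)
    have hsum2 : (400000 * D : ℝ) ≤ (lam (Q b) (i + 1) : ℝ) + lam (Q b) (i + 2) := by
      have e : (lam (Q b) (i + 1) : ℝ) + lam (Q b) (i + 2) = (l (i + 1) : ℝ) + l (i + 2) := by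
        have : lam (Q b) (i + 1) + lam (Q b) (i + 2) = l (i + 1) + l (i + 2) := by linarith
        exact_mod_cast this
      rw [e]
      have p1 : (0 : ℝ) ≤ l (i + 1) := by exact_mod_cast hl0 _
      have p2 : (0 : ℝ) ≤ l (i + 2) := by exact_mod_cast hl0 _
      rcases hbig _ _ hne12 with h3 | h3 <;> linarith
    linarith [n1.1, n1.2, n2.1, n2.2]
  have main : ∀ n : ℕ, ∀ b ≤ N, GG L g1 t D X err (Q b) → lam (Q b) i = l i →
      (lam (Q b) (i + 1) - l (i + 1)).natAbs = n → ∃ p, GG L g1 t D X err p ∧ ∀ j, lam p j = l j := by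
    intro n
    induction n with
    | zero =>
      intro b hb hGb hlb hn
      have e1 : lam (Q b) (i + 1) = l (i + 1) := by omega
      have s1 := C6_sum hl hGb i
      exact ⟨Q b, hGb, C6_all i hlb e1 (by linarith)⟩
    | succ n ih =>
      intro b hb hGb hlb hn
      have s1 := C6_sum hl hGb i
      have hX := line_mem hQ hb
      have Hs := C6_Hsum (L := L) i (Q b)
      have H0 := h.S.inT _ hX i
      have H1 := h.S.inT _ hX (i + 1)
      have H2 := h.S.inT _ hX (i + 2)
      have k1 := key b hb hGb hlb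
      rcases lt_or_ge (lam (Q b) (i + 1)) (l (i + 1)) with hlt | hge
      · -- forward
        have hk : l (i + 2) < lam (Q b) (i + 2) := by linarith
        have hbN : b + 1 ≤ N := by
          rcases Nat.lt_or_ge b N with h3 | h3
          · exact h3
          · have : b = N := le_antisymm hb h3
            subst this
            have := hl.wall (i + 2) _ hGb hQ.fin
            have := hl0 (i + 2)
            omega
        have k2 : H L (i + 1) (Q b) ≤ L - 340000 * D := by
          rcases hbig _ _ hne2 with h3 | h3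
          · have := C6_lo h hl hGb i (by rw [hlb]; exact h3)
            linarith
          · have h4 : (l (i + 2) : ℝ) < lam (Q b) (i + 2) := by exact_mod_cast hk
            have := C6_lo h hl hGb (i + 2) (by linarith)
            linarith
        obtain ⟨a1, a2, a3⟩ := C6_next h hQ hbN
        have a1' := abs_le.mp a1
        have a2' := abs_le.mp a2
        have a3' := abs_le.mp a3
        have g2 := hGb.2 (i + 2)
        have hG' : GG L g1 t D X err (Q (b + 1)) := by
          refine ⟨⟨i, N, Q, b + 1, hQ, hbN, rfl⟩, C6_all i ?_ ?_ ?_⟩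
          · linarith [a1'.2]
          · linarith [a2'.2]
          · linarith [a3'.2]
        obtain ⟨e1, e2, e3⟩ := lam_step h hl hQ hbN hGb hG'
        exact ih (b + 1) hbN hG' (by rw [e1, hlb]) (by rw [e2]; omega)
      · have hgt : l (i + 1) < lam (Q b) (i + 1) := by omega
        have hb0 : 0 < b := by
          rcases Nat.eq_zero_or_pos b with h3 | h3
          · subst h3
            have := hl.wall (i + 1) _ hGb hQ.start
            have := hl0 (i + 1)
            omega
          · exact h3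
        obtain ⟨b', rfl⟩ : ∃ b', b = b' + 1 := ⟨b - 1, by omega⟩
        have k2 : H L (i + 2) (Q (b' + 1)) ≤ L - 340000 * D := by
          rcases hbig _ _ hne1 with h3 | h3
          · have := C6_lo h hl hGb i (by rw [hlb]; exact h3)
            linarith
          · have h4 : (l (i + 1) : ℝ) < lam (Q (b' + 1)) (i + 1) := by exact_mod_cast hgt
            have := C6_lo h hl hGb (i + 1) (by linarith)
            linarith
        obtain ⟨a1, a2, a3⟩ := C6_next h hQ hb
        have a1' := abs_le.mp a1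
        have a2' := abs_le.mp a2
        have a3' := abs_le.mp a3
        have g1' := hGb.2 (i + 1)
        have hG' : GG L g1 t D X err (Q b') := by
          refine ⟨⟨i, N, Q, b', hQ, by omega, rfl⟩, C6_all i ?_ ?_ ?_⟩
          · linarith [a1'.1]
          · linarith [a2'.1]
          · linarith [a3'.1]
        obtain ⟨e1, e2, e3⟩ := lam_step h hl hQ hb hG' hGb
        exact ih b' (by omega) hG' (by rw [← e1, hlb]) (by omega)
  exact main _ a ha hG hla rfl

private lemma C6_point (L x0 x1 x2 : ℝ) (hs : x0 + x1 + x2 = L) :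
    ∃ z : ℂ, H L 0 z = x0 ∧ H L 1 z = x1 ∧ H L 2 z = x2 := by
  have h0 := sqrt3_pos
  refine ⟨⟨x1 + x0 / 2, √3 / 2 * x0⟩, ?_, ?_, ?_⟩
  · simp [H]; field_simp
  · simp [H]; field_simp; ring
  · simp [H]; field_simp; linarith

private lemma C6_point' (L : ℝ) (j : Fin 3) (x y : ℝ) (hs : x + y + y = L) :
    ∃ z : ℂ, H L j z = x ∧ H L (j + 1) z = y ∧ H L (j + 2) z = y := by
  fin_cases j
  · obtain ⟨z, h1, h2, h3⟩ := C6_point L x y y hs
    exact ⟨z, by simpa using h1, by simpa using h2, by simpa using h3⟩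
  · obtain ⟨z, h1, h2, h3⟩ := C6_point L y x y (by linarith)
    exact ⟨z, by simpa using h2, by simpa [fin3_11] using h3, by simpa [fin3_12] using h1⟩
  · obtain ⟨z, h1, h2, h3⟩ := C6_point L y y x (by linarith)
    exact ⟨z, by simpa using h3, by simpa [fin3_21] using h1, by simpa [fin3_22] using h2⟩

private lemma C6_dirv_pow (i : Fin 3) : dirv (i + 1) * w6 ^ 2 = dirv i := by
  have h6 := w6_six
  fin_cases i
  · simp only [Fin.zero_eta, zero_add, dirv_one, dirv_zero]
    rw [← pow_add]; exact h6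
  · simp only [Fin.mk_one, fin3_11, dirv_one, dirv_two]
    rw [← pow_add]
  · simp only [Fin.reduceFinMk, fin3_21, dirv_zero, dirv_two, one_mul]

private lemma C6_dirv_pow' (i : Fin 3) : dirv (i + 1) * w6 ^ 5 = - dirv i := by
  have h3 := w6_cube
  have h2 := C6_dirv_pow i
  have e : w6 ^ 5 = w6 ^ 2 * w6 ^ 3 := by rw [← pow_add]
  rw [e, ← mul_assoc, h2, h3]; ring

/-- the type is determined by an approximate direction -/
private lemma C6_type {i i' : Fin 3} (hh : ‖dirv i - dirv i'‖ ≤ 1 / 10 ∨ ‖dirv i + dirv i'‖ ≤ 1 / 10) : i' = i := by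
  have h3 := sqrt3_gt
  by_contra hne
  rcases hh with hh | hh
  · have r1 := (Complex.abs_re_le_norm _).trans hh
    have r2 := (Complex.abs_im_le_norm _).trans hh
    have r1' := abs_le.mp r1
    have r2' := abs_le.mp r2
    fin_cases i <;> fin_cases i' <;> simp [dirv] at hne r1' r2' <;> linarith
  · have r1 := (Complex.abs_re_le_norm _).trans hh
    have r2 := (Complex.abs_im_le_norm _).trans hh
    have r1' := abs_le.mp r1
    have r2' := abs_le.mp r2
    fin_cases i <;> fin_cases i' <;> simp [dirv] at hne r1' r2' <;> linarith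

/-- `Im (dirv (i+1) * conj (dirv i)) = - √3 / 2` -/
private lemma C6_im (i : Fin 3) : ((dirv (i + 1)) * (starRingEnd ℂ) (dirv i)).im = - (√3 / 2) := by
  have h3 := sqrt3_sq
  fin_cases i <;> simp [dirv, fin3_11, fin3_21, Complex.mul_im] <;> ring_nf

open Classical in
/-- Few values are not clean. With `j = i+1` take a clean line of type `j` with a vertex within `D` of a point with `H j = 2.5 Rc` and the other heights equal. Its label is `c_j ∈ [1.9 Rc, 3.1 Rc]` (`lam_near`); by induction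
all its vertices are in `GG` (at a vertex in `GG` with `lam j = c_j` the height `H j` is between `1.5 Rc` and `3.9 Rc`, so all the others are `≤ L - 1.5 Rc`), and `lam i` takes all the values `0, ..., K - c_j` on it, in
particular all the values up to `K - 4 Rc`. `trans_lemma` with `v = dirv i` and `A =` the interior vertices of this line (neighbours in direction `± dirv i` by `rotate`): all but `UU` of them are on a clean line of type
`i` (another type would be at distance `≥ 1` from `± dirv i`). The two end vertices give 2 more values. -/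
theorem few_unclean (h : LData L E0 g1 R0 t D X err) (hl : LamData L g1 t D X err lam K) (i : Fin 3) (c : Finset ℤ)
    (hc : ∀ x ∈ c, 0 ≤ x ∧ (x : ℝ) ≤ K - 400000 * D ∧ ¬ CleanVal L g1 t D X err lam i x) :
    (c.card : ℝ) ≤ UU L E0 g1 X err t + 2 := by
  have hD := h.D1
  have hLD := h.LD
  have ht := C6_t h
  have ht0 := h.t0
  -- the point with `H (i+1) = 250000 D`
  obtain ⟨z, z0, z1, z2⟩ := C6_point' L (i + 1) (250000 * D) ((L - 250000 * D) / 2) (by ring)
  have hz0 : ∀ l, 0 ≤ H L l z := C6_all (i + 1) (by rw [z0]; linarith) (by rw [z1]; linarith) (by rw [z2]; linarith)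
  obtain ⟨p, ⟨N, Q, a, hQ, ha, hQa⟩, hp⟩ := h.den z hz0 (i + 1)
  have hHp : ∀ l, |H L l z - H L l p| ≤ 1.2 * D := fun l => (H_lip L l z p).trans (by linarith)
  have hGa : GG L g1 t D X err (Q a) := by
    refine ⟨⟨i + 1, N, Q, a, hQ, ha, rfl⟩, ?_⟩
    rw [hQa]
    have b0 := abs_le.mp (hHp (i + 1))
    have b1 := abs_le.mp (hHp (i + 1 + 1))
    have b2 := abs_le.mp (hHp (i + 1 + 2))
    refine C6_all (i + 1) ?_ ?_ ?_
    · linarith [b0.1]
    · linarith [b1.1]
    · linarith [b2.1]
  -- the label of the line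
  set cj : ℤ := lam (Q a) (i + 1) with hcj
  have hcj1 : 190000 * D ≤ (cj : ℝ) ∧ (cj : ℝ) ≤ 310000 * D := by
    have n1 := abs_le.mp (lam_near h hl hGa (i + 1))
    have b0 := abs_le.mp (hHp (i + 1))
    rw [← hQa] at b0
    constructor <;> linarith [n1.1, n1.2, b0.1, b0.2]
  have hbnd : ∀ b ≤ N, GG L g1 t D X err (Q b) → lam (Q b) (i + 1) = cj →
      (∀ l, H L l (Q b) ≤ L - 150000 * D) := by
    intro b hb hGb hlb
    have n1 := abs_le.mp (lam_near h hl hGb (i + 1))
    rw [hlb] at n1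
    have hX := line_mem hQ hb
    have Hs := C6_Hsum (L := L) (i + 1) (Q b)
    have H1 := h.S.inT _ hX (i + 1 + 1)
    have H2 := h.S.inT _ hX (i + 1 + 2)
    refine C6_all (i + 1) ?_ ?_ ?_ <;> linarith [n1.1, n1.2, hcj1.1, hcj1.2]
  have hup : ∀ n : ℕ, a + n ≤ N → GG L g1 t D X err (Q (a + n)) ∧ lam (Q (a + n)) (i + 1) = cj := by
    intro n
    induction n with
    | zero => intro _; exact ⟨hGa, rfl⟩
    | succ n ih =>
      intro hn
      obtain ⟨hG, hlb⟩ := ih (by omega)
      have hB := hbnd _ (by omega) hG hlb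
      have hn' : a + n + 1 ≤ N := by omega
      obtain ⟨a1, a2, a3⟩ := C6_next h hQ hn'
      have a1' := abs_le.mp a1
      have a2' := abs_le.mp a2
      have a3' := abs_le.mp a3
      have hG' : GG L g1 t D X err (Q (a + n + 1)) := by
        refine ⟨⟨i + 1, N, Q, a + n + 1, hQ, hn', rfl⟩, C6_all (i + 1) ?_ ?_ ?_⟩
        · linarith [a1'.2, hB (i + 1)]
        · linarith [a2'.2, hB (i + 1 + 1)]
        · linarith [a3'.2, hB (i + 1 + 2)]
      obtain ⟨e1, -, -⟩ := lam_step h hl hQ hn' hG hG'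
      exact ⟨hG', by rw [show a + (n + 1) = a + n + 1 from rfl, e1, hlb]⟩
  have hdown : ∀ n : ℕ, n ≤ a → GG L g1 t D X err (Q (a - n)) ∧ lam (Q (a - n)) (i + 1) = cj := by
    intro n
    induction n with
    | zero => intro _; exact ⟨hGa, rfl⟩
    | succ n ih =>
      intro hn
      obtain ⟨hG, hlb⟩ := ih (by omega)
      have hB := hbnd _ (by omega) hG hlb
      obtain ⟨m, hm⟩ : ∃ m, a - n = m + 1 := ⟨a - n - 1, by omega⟩
      have hm' : a - (n + 1) = m := by omega
      rw [hm] at hG hlb hB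
      rw [hm']
      have hn' : m + 1 ≤ N := by omega
      obtain ⟨a1, a2, a3⟩ := C6_next h hQ hn'
      have a1' := abs_le.mp a1
      have a2' := abs_le.mp a2
      have a3' := abs_le.mp a3
      have hG' : GG L g1 t D X err (Q m) := by
        refine ⟨⟨i + 1, N, Q, m, hQ, by omega, rfl⟩, C6_all (i + 1) ?_ ?_ ?_⟩
        · linarith [a1'.1, hB (i + 1)]
        · linarith [a2'.1, hB (i + 1 + 1)]
        · linarith [a3'.1, hB (i + 1 + 2)]
      obtain ⟨e1, -, -⟩ := lam_step h hl hQ hn' hG' hG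
      exact ⟨hG', by rw [← e1, hlb]⟩
  have hall : ∀ b ≤ N, GG L g1 t D X err (Q b) ∧ lam (Q b) (i + 1) = cj := by
    intro b hb
    rcases le_total a b with h1 | h1
    · have := hup (b - a) (by omega)
      rwa [Nat.add_sub_cancel' h1] at this
    · have := hdown (a - b) (by omega)
      rwa [Nat.sub_sub_self h1] at this
  -- the labels along the line
  have hlab : ∀ b : ℕ, b ≤ N → lam (Q b) (i + 1 + 1) = b := by
    intro b
    induction b with
    | zero =>
      intro _
      simpa using hl.wall (i + 1 + 1) _ (hall 0 (by omega)).1 hQ.start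
    | succ b ih =>
      intro hb
      obtain ⟨-, e2, -⟩ := lam_step h hl hQ hb (hall b (by omega)).1 (hall (b + 1) hb).1
      rw [e2, ih (by omega)]
      push_cast; ring
  have hi2 : i + 1 + 2 = i := by fin_cases i <;> rfl
  have hlabi : ∀ b : ℕ, b ≤ N → lam (Q b) i = K - cj - b := by
    intro b hb
    have s1 := C6_sum hl (hall b hb).1 (i + 1)
    rw [(hall b hb).2, hlab b hb, hi2] at s1
    linarith
  have hN : (N : ℤ) = K - cj := by
    have h1 := hlabi N le_rfl
    have h2 := hl.wall (i + 1 + 2) _ (hall N le_rfl).1 hQ.fin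
    rw [hi2] at h2
    linarith
  -- transversality
  have herr : ∀ b ≤ N, err (Q b) ≤ t := by
    intro b hb
    have h1 : err (Q b) ≤ ∑ j ∈ range (N + 1), err (Q j) :=
      Finset.single_le_sum (f := fun j => err (Q j)) (fun j _ => h.S.errpos _) (mem_range.mpr (by omega))
    exact h1.trans hQ.total
  set A : Finset ℂ := (Finset.Ioo 0 N).image Q with hA
  have hAmem : ∀ p, p ∈ A ↔ ∃ b, (0 < b ∧ b < N) ∧ Q b = p := by
    intro p
    rw [hA]; simp
  have hdist : ∀ a b : ℕ, a ≤ b → b ≤ N → ‖Q b - Q a - (b - a) * dirv (i + 1)‖ ≤ 3 * t * (b - a) := by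
    intro a b hab hb
    exact (line_heights h.S (by linarith) hQ hab hb).2.2.2
  have htr1 : ∀ a b : ℕ, a ≤ b → b ≤ N → ‖Q b - Q a‖ / 2 ≤ |((Q b - Q a) * (starRingEnd ℂ) (dirv i)).im| := by
    intro a b hab hb
    have hd := hdist a b hab hb
    have hba : (0 : ℝ) ≤ (b : ℝ) - a := by
      have : (a : ℝ) ≤ b := by exact_mod_cast hab
      linarith
    set w : ℂ := Q b - Q a - (b - a) * dirv (i + 1) with hw
    have e1 : Q b - Q a = (((b : ℝ) - a : ℝ) : ℂ) * dirv (i + 1) + w := by rw [hw]; push_cast; ring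
    have e2 : ‖Q b - Q a‖ ≤ ((b : ℝ) - a) + 3 * t * (b - a) := by
      rw [e1]
      refine (norm_add_le _ _).trans ?_
      rw [norm_mul, dirv_norm, mul_one, Complex.norm_real, Real.norm_eq_abs, abs_of_nonneg hba]
      linarith
    have e3 : ((Q b - Q a) * (starRingEnd ℂ) (dirv i)).im =
        ((b : ℝ) - a) * (-(√3 / 2)) + (w * (starRingEnd ℂ) (dirv i)).im := by
      rw [e1, add_mul, Complex.add_im, mul_assoc, Complex.im_ofReal_mul, C6_im]
    have e4 : |(w * (starRingEnd ℂ) (dirv i)).im| ≤ 3 * t * (b - a) := by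
      refine (Complex.abs_im_le_norm _).trans ?_
      rw [norm_mul, RCLike.norm_conj, dirv_norm, mul_one]
      exact hd
    have e5 := abs_le.mp e4
    have h3 := sqrt3_gt
    rw [e3]
    have e6 : -(((b : ℝ) - a) * (-(√3 / 2)) + (w * (starRingEnd ℂ) (dirv i)).im) ≤
        |((b : ℝ) - a) * (-(√3 / 2)) + (w * (starRingEnd ℂ) (dirv i)).im| := neg_le_abs _
    have e7 : (b - a : ℝ) * 1.73 ≤ ((b : ℝ) - a) * √3 := mul_le_mul_of_nonneg_left h3.le hba
    have e8 : t * ((b : ℝ) - a) ≤ 1 / 10000000 * ((b : ℝ) - a) := mul_le_mul_of_nonneg_right ht hba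
    nlinarith [e5.2]
  have htransv : Transv (dirv i) A := by
    intro p hp p' hp' hne
    obtain ⟨a', ⟨ha0, haN⟩, rfl⟩ := (hAmem _).mp hp
    obtain ⟨b', ⟨hb0, hbN⟩, rfl⟩ := (hAmem _).mp hp'
    rcases le_total a' b' with h1 | h1
    · exact htr1 a' b' h1 hbN.le
    · have := htr1 b' a' h1 haN.le
      rw [norm_sub_rev]
      have e : (Q b' - Q a') * (starRingEnd ℂ) (dirv i) = -((Q a' - Q b') * (starRingEnd ℂ) (dirv i)) := by ring
      rw [e, Complex.neg_im, abs_neg]
      exact this
  have hAint : ∀ p ∈ A, GInt L g1 X err p := by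
    intro p hp
    obtain ⟨b, ⟨hb0, hbN⟩, rfl⟩ := (hAmem _).mp hp
    exact hQ.int b hb0 hbN
  have hnb : ∀ p ∈ A, ∀ j : ℕ, ∃ q ∈ X, ‖q - p - dirv (i + 1) * w6 ^ j‖ ≤ 1 / 20 := by
    intro p hp j
    obtain ⟨b, ⟨hb0, hbN⟩, rfl⟩ := (hAmem _).mp hp
    obtain ⟨r', hr', hr2⟩ := rotate h.S (hQ.int b hb0 hbN) (line_mem hQ (show b + 1 ≤ N by omega)) (dirv_norm (i + 1))
      (e := 3 * t) (by linarith) (hQ.step b hbN) j
    refine ⟨r', hr', hr2.trans ?_⟩
    have := herr b hbN.le
    linarith
  have hn1 : ∀ p ∈ A, ∃ q ∈ X, ‖q - p - dirv i‖ ≤ 1 / 20 := by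
    intro p hp
    have := hnb p hp 2
    rwa [C6_dirv_pow] at this
  have hn2 : ∀ p ∈ A, ∃ q ∈ X, ‖q - p + dirv i‖ ≤ 1 / 20 := by
    intro p hp
    have := hnb p hp 5
    rw [C6_dirv_pow'] at this
    simpa only [sub_neg_eq_add] using this
  have hT := trans_lemma h.S ht0 (by linarith) (dirv_norm i) A hAint hn1 hn2 htransv
  set B := A.filter (fun p => ¬ ∃ i', OnLine L g1 X err t i' p ∧
    (‖dirv i - dirv i'‖ ≤ 1 / 10 ∨ ‖dirv i + dirv i'‖ ≤ 1 / 10)) with hB
  -- every unclean value in `(0, N)` gives a point of `B`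
  have hval : ∀ x ∈ c, x ≠ 0 → x ≠ N → Q (N - x).toNat ∈ B ∧ ((N - x).toNat : ℤ) = N - x ∧ (N - x).toNat ≤ N := by
    intro x hx hx0 hxN
    obtain ⟨c1, c2, c3⟩ := hc x hx
    have c4 : x ≤ N := by
      have : (x : ℝ) ≤ (N : ℤ) := by
        rw [hN]; push_cast
        linarith [hcj1.2]
      exact_mod_cast this
    have e1 : ((N - x).toNat : ℤ) = N - x := Int.toNat_of_nonneg (by omega)
    have e2 : 0 < (N - x).toNat := by omega
    have e3 : (N - x).toNat < N := by omega
    refine ⟨?_, e1, e3.le⟩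
    rw [hB, mem_filter]
    refine ⟨(hAmem _).mpr ⟨_, ⟨e2, e3⟩, rfl⟩, ?_⟩
    rintro ⟨i', ⟨N', Q', a', hQ', ha', hQa'⟩, hh⟩
    have e4 := C6_type hh
    subst e4
    apply c3
    refine ⟨N', Q', a', hQ', ha', ?_, ?_⟩
    · rw [hQa']; exact (hall _ e3.le).1
    · rw [hQa', hlabi _ e3.le, e1]
      linarith
  have hcard : c.card ≤ B.card + 2 := by
    have h1 : (c \ {0, (N : ℤ)}).card ≤ B.card := by
      refine Finset.card_le_card_of_injOn (fun x => Q (N - x).toNat) ?_ ?_
      · intro x hx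
        have hx' := Finset.mem_coe.mp hx
        simp only [mem_sdiff, mem_insert, mem_singleton, not_or] at hx'
        exact (hval x hx'.1 hx'.2.1 hx'.2.2).1
      · intro x hx y hy hxy
        have hx' := Finset.mem_coe.mp hx
        have hy' := Finset.mem_coe.mp hy
        simp only [mem_sdiff, mem_insert, mem_singleton, not_or] at hx' hy'
        obtain ⟨-, f1, f2⟩ := hval x hx'.1 hx'.2.1 hx'.2.2
        obtain ⟨-, f3, f4⟩ := hval y hy'.1 hy'.2.1 hy'.2.2
        have g1 := hlab _ f2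
        have g2 := hlab _ f4
        have hxy' : Q (N - x).toNat = Q (N - y).toNat := hxy
        rw [hxy', g2] at g1
        omega
    have h2 : c.card ≤ (c \ {0, (N : ℤ)}).card + ({0, (N : ℤ)} : Finset ℤ).card := by
      have := Finset.card_le_card_sdiff_add_card (s := c) (t := ({0, (N : ℤ)} : Finset ℤ))
      exact this
    have h3 : ({0, (N : ℤ)} : Finset ℤ).card ≤ 2 := Finset.card_le_two
    omega
  have : (c.card : ℝ) ≤ B.card + 2 := by exact_mod_cast hcard
  linarith

end H24
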