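import Pool.Agent.Lib_MP_27c196_co.S.C5

/-! H24 S, piece C6a: labels near the walls (blueprint S11) -/

set_option linter.unusedVariables false

noncomputable section

namespace H24

open Finset

variable {L E0 g1 R0 t D : ℝ} {X : Finset ℂ} {err : ℂ → ℝ} {lam : ℂ → Fin 3 → ℤ} {K : ℤ}

theorem C6a_mem (h : LData L E0 g1 R0 t D X err) {a : ℂ} (ha : GG L g1 t D X err a) : a ∈ X := by
  obtain ⟨⟨j, N, Q, b, hQ, hb, rfl⟩, _⟩ := ha
  exact line_mem hQ hb

theorem C6a_nonneg (h : LData L E0 g1 R0 t D X err) {a : ℂ} (ha : GG L g1 t D X err a) (i : Fin 3) : 0 ≤ H L i a :=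
  h.S.inT a (C6a_mem h ha) i

theorem C6a_t (h : LData L E0 g1 R0 t D X err) : t ≤ 1 / 10000000 := by
  have : t * 1 ≤ t * D := mul_le_mul_of_nonneg_left h.D1 h.t0.le
  linarith [h.tD]

/-- a label from a wall point near `z` -/
theorem C6a_wall (h : LData L E0 g1 R0 t D X err) (hl : LamData L g1 t D X err lam K) {z : ℂ} {i : Fin 3}
    (hi : H L i z = 0) (hz : ∀ l, 0 ≤ H L l z) (hz' : ∀ l, H L l z ≤ L - 100000 * D) :
    ∃ p, GG L g1 t D X err p ∧ lam p i = 0 ∧ 0 ≤ H L i p ∧ H L i p ≤ 1 / 1000 ∧ ‖z - p‖ ≤ 15 * D := by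
  obtain ⟨p, hp, hw, hd⟩ := wall_dense h hi hz hz'
  refine ⟨p, hp, hl.wall i p hp hw, C6a_nonneg h hp i, ?_, hd⟩
  have h1 := hw.2.2.2.1
  have h2 := hw.2.1
  have h3 := h.S.g1le
  linarith

/-- There is `z` on the wall `i` with heights `≤ L - 100000 D` and `‖a - z‖ ≤ H i a + 100000 D` (perpendicular foot, shifted along the wall by at most `100000 D` if necessary); `wall_dense`, `lam_glob`. -/
theorem lam_near (h : LData L E0 g1 R0 t D X err) (hl : LamData L g1 t D X err lam K) {a : ℂ} (ha : GG L g1 t D X err a)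
    (i : Fin 3) : |(lam a i : ℝ) - H L i a| ≤ H L i a / 10 + 25000 * D := by
  have hD := h.D1
  have hL := h.LD
  have h0 := C6a_nonneg h ha i
  have h1 := C6a_nonneg h ha (i + 1)
  have h2 := C6a_nonneg h ha (i + 2)
  have hs := C5a_sum L i a
  obtain ⟨z0, a0, a1, a2, an⟩ := C5a_down L i a (H L i a) h0
  obtain ⟨z, b0, b1, b2, bn⟩ : ∃ z : ℂ, H L i z = 0 ∧ (0 ≤ H L (i + 1) z ∧ H L (i + 1) z ≤ L - 100000 * D) ∧
      (0 ≤ H L (i + 2) z ∧ H L (i + 2) z ≤ L - 100000 * D) ∧ ‖z0 - z‖ ≤ 100000 * D := by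
    by_cases c1 : H L (i + 1) z0 < 100000 * D
    · refine ⟨z0 + ((100000 * D - H L (i + 1) z0 : ℝ) : ℂ) * dirv i, ?_, ?_, ?_, ?_⟩
      · rw [C5a_mv0]; linarith
      · rw [C5a_mv1]; constructor <;> linarith
      · rw [C5a_mv2]; constructor <;> linarith
      · have e : z0 - (z0 + ((100000 * D - H L (i + 1) z0 : ℝ) : ℂ) * dirv i) =
            -(((100000 * D - H L (i + 1) z0 : ℝ) : ℂ) * dirv i) := by ring
        rw [e, norm_neg, norm_mul, dirv_norm, Complex.norm_real, Real.norm_eq_abs, abs_of_nonneg (by linarith)]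
        linarith
    · by_cases c2 : H L (i + 2) z0 < 100000 * D
      · refine ⟨z0 + ((-(100000 * D - H L (i + 2) z0) : ℝ) : ℂ) * dirv i, ?_, ?_, ?_, ?_⟩
        · rw [C5a_mv0]; linarith
        · rw [C5a_mv1]; constructor <;> linarith
        · rw [C5a_mv2]; constructor <;> linarith
        · have e : z0 - (z0 + ((-(100000 * D - H L (i + 2) z0) : ℝ) : ℂ) * dirv i) =
              ((100000 * D - H L (i + 2) z0 : ℝ) : ℂ) * dirv i := by push_cast; ring
          rw [e, norm_mul, dirv_norm, Complex.norm_real, Real.norm_eq_abs, abs_of_nonneg (by linarith)]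
          linarith
      · push Not at c1 c2
        refine ⟨z0, by linarith, ⟨by linarith, by linarith⟩, ⟨by linarith, by linarith⟩, ?_⟩
        rw [sub_self, norm_zero]; positivity
  obtain ⟨p, hp, p1, p2, p3, p4⟩ := C6a_wall h hl b0 (by
      intro l
      rcases C5a_split i l with rfl | rfl | rfl
      · rw [b0]
      · exact b1.1
      · exact b2.1) (by
      intro l
      rcases C5a_split i l with rfl | rfl | rfl
      · rw [b0]; linarith
      · exact b1.2
      · exact b2.2)
  have hd : ‖a - p‖ ≤ H L i a + 100015 * D := by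
    have e : a - p = (a - z0) + (z0 - z) + (z - p) := by ring
    rw [e]
    refine (norm_add₃_le).trans ?_
    linarith
  have hg := lam_glob h hl ha hp i
  rw [p1] at hg
  have g1' := (abs_le.mp hg).1
  have g2' := (abs_le.mp hg).2
  push_cast at g1' g2'
  rw [abs_le]
  constructor <;> linarith

theorem C6a_high (h : LData L E0 g1 R0 t D X err) {a : ℂ} (ha : GG L g1 t D X err a) (i : Fin 3)
    (hn : ¬ GWall L g1 X err i a) : 9 / 10 ≤ H L i a := by
  obtain ⟨hX, hI | ⟨l, hl⟩⟩ := GG_int_or_wall h ha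
  · exact hI.2.2.2.1 i
  · have hg := h.S.g1le
    have he : err a ≤ 1 / 1000 := by linarith [hl.2.1]
    rcases C5a_split l i with rfl | rfl | rfl
    · exact absurd hl hn
    · obtain ⟨q, hq, hqa⟩ := hl.2.2.2.2.2.1
      have h1 := h.S.inT q hq (l + 1)
      have h2 := H_lip L (l + 1) q (a + ((-1 : ℝ) : ℂ) * dirv l)
      rw [C5a_mv1] at h2
      have e : q - (a + ((-1 : ℝ) : ℂ) * dirv l) = q - a + dirv l := by push_cast; ring
      rw [e] at h2
      have h3 := (abs_le.mp h2).2
      linarith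
    · obtain ⟨q, hq, hqa⟩ := hl.2.2.2.2.1
      have h1 := h.S.inT q hq (l + 2)
      have h2 := H_lip L (l + 2) q (a + ((1 : ℝ) : ℂ) * dirv l)
      rw [C5a_mv2] at h2
      have e : q - (a + ((1 : ℝ) : ℂ) * dirv l) = q - a - dirv l := by push_cast; ring
      rw [e] at h2
      have h3 := (abs_le.mp h2).2
      linarith

/-- `a` in `GG`, not `GWall i`: `H i a ≥ 0.9` (interior point, or a point at another wall `l`: its neighbours in the directions `± dirv l` are in the triangle).
If `H i a ≤ L/2` there is `z` on the wall `i` with `‖a - z‖ = H i a` and heights `≤ L - 100000 D` (move in a lattice direction, raising the smaller of the two other heights), and a wall point within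
`15 D` of `z`: use `loc` if `H i a ≤ 30 D`, `lam_glob` otherwise. If `H i a > L/2` use `lam_near`. -/
theorem lam_pos (h : LData L E0 g1 R0 t D X err) (hl : LamData L g1 t D X err lam K) {a : ℂ} (ha : GG L g1 t D X err a)
    (i : Fin 3) : 0 ≤ lam a i ∧ (¬ GWall L g1 X err i a → 1 ≤ lam a i) := by
  have key : ¬ GWall L g1 X err i a → 1 ≤ lam a i := by
    intro hn
    have hD := h.D1
    have hL := h.LD
    have h9 := C6a_high h ha i hn
    have h1 := C6a_nonneg h ha (i + 1)
    have h2 := C6a_nonneg h ha (i + 2)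
    have hs := C5a_sum L i a
    have u1 := ha.2 (i + 1)
    have u2 := ha.2 (i + 2)
    have hint : ∀ n : ℤ, (0 : ℝ) < n → 1 ≤ n := fun n hn => by
      have : (0 : ℤ) < n := by exact_mod_cast hn
      omega
    apply hint
    by_cases hc : H L i a ≤ L / 2
    · obtain ⟨z, b0, b1, b2, bn⟩ : ∃ z : ℂ, H L i z = 0 ∧ (0 ≤ H L (i + 1) z ∧ H L (i + 1) z ≤ L - 100000 * D) ∧
          (0 ≤ H L (i + 2) z ∧ H L (i + 2) z ≤ L - 100000 * D) ∧ ‖a - z‖ ≤ H L i a := by
        by_cases c1 : H L (i + 1) a ≤ H L (i + 2) a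
        · -- move by `- dirv (i+2)`: raises `i + 1`, lowers `i`
          have m0 := C5a_mv1 L (i + 2) a (-(H L i a))
          have m1 := C5a_mv2 L (i + 2) a (-(H L i a))
          have m2 := C5a_mv0 L (i + 2) a (-(H L i a))
          rw [C5a_21] at m0
          rw [C5a_22] at m1
          refine ⟨a + ((-(H L i a) : ℝ) : ℂ) * dirv (i + 2), by rw [m0]; ring, ?_, ?_, ?_⟩
          · rw [m1]; constructor <;> linarith
          · rw [m2]; constructor <;> linarith
          · have e : a - (a + ((-(H L i a) : ℝ) : ℂ) * dirv (i + 2)) = ((H L i a : ℝ) : ℂ) * dirv (i + 2) := by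
              push_cast; ring
            rw [e, norm_mul, dirv_norm, Complex.norm_real, Real.norm_eq_abs, abs_of_nonneg (by linarith)]
            linarith
        · -- move by `dirv (i+1)`: raises `i + 2`, lowers `i`
          push Not at c1
          have m0 := C5a_mv2 L (i + 1) a (H L i a)
          have m1 := C5a_mv0 L (i + 1) a (H L i a)
          have m2 := C5a_mv1 L (i + 1) a (H L i a)
          rw [C5a_12] at m0
          rw [C5a_11] at m2
          refine ⟨a + ((H L i a : ℝ) : ℂ) * dirv (i + 1), by rw [m0]; ring, ?_, ?_, ?_⟩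
          · rw [m1]; constructor <;> linarith
          · rw [m2]; constructor <;> linarith
          · have e : a - (a + ((H L i a : ℝ) : ℂ) * dirv (i + 1)) = -(((H L i a : ℝ) : ℂ) * dirv (i + 1)) := by
              ring
            rw [e, norm_neg, norm_mul, dirv_norm, Complex.norm_real, Real.norm_eq_abs, abs_of_nonneg (by linarith)]
            linarith
      obtain ⟨p, hp, p1, p2, p3, p4⟩ := C6a_wall h hl b0 (by
          intro l
          rcases C5a_split i l with rfl | rfl | rfl
          · rw [b0]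
          · exact b1.1
          · exact b2.1) (by
          intro l
          rcases C5a_split i l with rfl | rfl | rfl
          · rw [b0]; linarith
          · exact b1.2
          · exact b2.2)
      have hd : ‖a - p‖ ≤ H L i a + 15 * D := by
        have e : a - p = (a - z) + (z - p) := by ring
        rw [e]
        refine (norm_add_le _ _).trans ?_
        linarith
      by_cases c30 : H L i a ≤ 30 * D
      · have hg := hl.loc a p ha hp (by linarith) i
        rw [p1] at hg
        have g1' := (abs_le.mp hg).1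
        push_cast at g1'
        linarith
      · push Not at c30
        have hg := lam_glob h hl ha hp i
        rw [p1] at hg
        have g1' := (abs_le.mp hg).1
        push_cast at g1'
        linarith
    · push Not at hc
      have hg := (abs_le.mp (lam_near h hl ha i)).1
      linarith
  refine ⟨?_, key⟩
  by_cases hw : GWall L g1 X err i a
  · rw [hl.wall i a ha hw]
  · have := key hw
    omega

/-- one step along a clean line inside `GG` -/
theorem lam_step (h : LData L E0 g1 R0 t D X err) (hl : LamData L g1 t D X err lam K) {i : Fin 3} {N : ℕ} {Q : ℕ → ℂ}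
    (hQ : CLine L g1 X err i t N Q) {b : ℕ} (hb : b + 1 ≤ N) (h1 : GG L g1 t D X err (Q b))
    (h2 : GG L g1 t D X err (Q (b + 1))) :
    lam (Q (b + 1)) i = lam (Q b) i ∧ lam (Q (b + 1)) (i + 1) = lam (Q b) (i + 1) + 1 ∧
      lam (Q (b + 1)) (i + 2) = lam (Q b) (i + 2) - 1 := by
  have hD := h.D1
  have ht := C6a_t h
  have ht0 := h.t0
  obtain ⟨q1, q2, q3, q4⟩ := line_heights h.S (by linarith) hQ (Nat.le_succ b) hb
  have e1 : (((b + 1 : ℕ) : ℝ) - b) = 1 := by push_cast; ring
  rw [e1] at q1 q2 q3 q4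
  have hd : ‖Q b - Q (b + 1)‖ ≤ 50 * D := by
    have h3 := hQ.step b (by omega)
    have e : Q b - Q (b + 1) = -((Q (b + 1) - Q b - dirv i) + dirv i) := by ring
    rw [e, norm_neg]
    refine (norm_add_le _ _).trans ?_
    rw [dirv_norm]
    linarith
  have hcl := hl.loc _ _ h1 h2 hd
  have hint : ∀ (x y : ℤ), |(x : ℝ) - y| < 1 → x = y := by
    intro x y hxy
    have h3 : |x - y| < 1 := by exact_mod_cast hxy
    have h4 := Int.abs_lt_one_iff.mp h3
    omega
  refine ⟨?_, ?_, ?_⟩
  · apply hint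
    have h3 := abs_le.mp (hcl i)
    have h4 := abs_le.mp q1
    rw [abs_lt]
    constructor <;> linarith [h3.1, h3.2, h4.1, h4.2]
  · apply hint
    have h3 := abs_le.mp (hcl (i + 1))
    have h4 := abs_le.mp q2
    rw [abs_lt]
    push_cast
    constructor <;> linarith [h3.1, h3.2, h4.1, h4.2]
  · apply hint
    have h3 := abs_le.mp (hcl (i + 2))
    have h4 := abs_le.mp q3
    rw [abs_lt]
    push_cast
    constructor <;> linarith [h3.1, h3.2, h4.1, h4.2]

/-- injectivity (from `lam_glob`) -/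
theorem lam_inj (h : LData L E0 g1 R0 t D X err) (hl : LamData L g1 t D X err lam K) {a b : ℂ}
    (ha : GG L g1 t D X err a) (hb : GG L g1 t D X err b) (hab : ∀ i, lam a i = lam b i) : a = b := by
  have h1 : ∀ i, |H L i a - H L i b| ≤ ‖a - b‖ / 10 + 1 / 100 := by
    intro i
    have h2 := lam_glob h hl ha hb i
    rw [hab i, sub_self, sub_zero] at h2
    rw [abs_sub_comm]
    exact h2
  have h2 := norm_le_of_H L a b _ h1
  have h3 := norm_nonneg (a - b)
  exact eq_of_close h.S (C6a_mem h ha) (C6a_mem h hb) (by linarith)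

/-- `K` and `L` are comparable -/
theorem K_near (h : LData L E0 g1 R0 t D X err) (hl : LamData L g1 t D X err lam K) :
    |(K : ℝ) - L| ≤ L / 10 + 75000 * D := by
  have hD := h.D1
  have hL := h.LD
  -- the centre
  have hz : ∃ z : ℂ, ∀ l, H L l z = L / 3 := by
    refine ⟨0 + ((L / 3 : ℝ) : ℂ) * dirv 0 + ((-(L / 3) : ℝ) : ℂ) * dirv 1, ?_⟩
    have m0 := C5a_mv0 L 0 0 (L / 3)
    have m1 := C5a_mv1 L 0 0 (L / 3)
    have m2 := C5a_mv2 L 0 0 (L / 3)
    have n0 := C5a_mv0 L 1 (0 + ((L / 3 : ℝ) : ℂ) * dirv 0) (-(L / 3))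
    have n1 := C5a_mv1 L 1 (0 + ((L / 3 : ℝ) : ℂ) * dirv 0) (-(L / 3))
    have n2 := C5a_mv2 L 1 (0 + ((L / 3 : ℝ) : ℂ) * dirv 0) (-(L / 3))
    have e1 : (1 : Fin 3) + 1 = 2 := by decide
    have e2 : (1 : Fin 3) + 2 = 0 := by decide
    have e3 : (0 : Fin 3) + 1 = 1 := by decide
    have e4 : (0 : Fin 3) + 2 = 2 := by decide
    rw [e1] at n1
    rw [e2] at n2
    rw [e3] at m1
    rw [e4] at m2
    have z0 : H L 0 0 = 0 := by simp [H]
    have z1 : H L 1 0 = 0 := by simp [H]
    have z2 : H L 2 0 = L := by simp [H]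
    intro l
    fin_cases l
    · show H L 0 _ = _
      rw [n2, m0, z0]; ring
    · show H L 1 _ = _
      rw [n0, m1, z1]; ring
    · show H L 2 _ = _
      rw [n1, m2, z2]; ring
  obtain ⟨z, hz⟩ := hz
  obtain ⟨p, hp, hp2, _⟩ := dense_G h (z := z) (fun i => by rw [hz]; linarith) (fun i => by rw [hz]; linarith) 0
  have hG : GG L g1 t D X err p := ⟨⟨0, hp⟩, hp2⟩
  have k0 := abs_le.mp (lam_near h hl hG 0)
  have k1 := abs_le.mp (lam_near h hl hG 1)
  have k2 := abs_le.mp (lam_near h hl hG 2)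
  have hs := hl.sum p hG
  have hs' : (K : ℝ) = lam p 0 + lam p 1 + lam p 2 := by rw [← hs]; push_cast; ring
  have hH := H_sum L p
  rw [hs', abs_le]
  constructor <;> linarith [k0.1, k0.2, k1.1, k1.2, k2.1, k2.2]

end H24
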