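import Pool.Agent.Lib_MP_27c196_co.S.C6

/-! H24 S, piece C7a: the set `Z` and the upper bound of `|X|` (blueprint S11, S12) -/

set_option linter.unusedVariables false

noncomputable section

namespace H24

open Finset

variable {L E0 g1 R0 t D : ℝ} {X : Finset ℂ} {err : ℂ → ℝ} {lam : ℂ → Fin 3 → ℤ} {K : ℤ}

/-- the complex number with given height differences -/
private def C7a_W (v : Fin 3 → ℝ) : ℂ := ⟨v 1 + v 0 / 2, √3 / 2 * v 0⟩

private lemma C7a_W_H (L : ℝ) (v : Fin 3 → ℝ) (hv : v 0 + v 1 + v 2 = 0) (i : Fin 3) :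
    H L i (C7a_W v) - H L i 0 = v i := by
  have h0 := sqrt3_pos
  have h1 : √3 / 2 * v 0 / √3 = v 0 / 2 := by field_simp
  have h2 : 2 * (√3 / 2 * v 0) / √3 = v 0 := by field_simp
  fin_cases i
  · simp only [H, C7a_W, Fin.zero_eta, Fin.isValue, if_true, Complex.zero_im]
    rw [h2]; simp
  · simp only [H, C7a_W, Fin.mk_one, Fin.isValue, one_ne_zero, if_false, if_true, Complex.zero_re,
      Complex.zero_im]
    rw [h1]; simp
  · have e : v 2 = -(v 0) - v 1 := by linarith
    simp only [H, C7a_W, Fin.reduceFinMk, Fin.isValue, Complex.zero_re, Complex.zero_im]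
    rw [if_neg (by decide), if_neg (by decide), if_neg (by decide), if_neg (by decide), h1, e]
    simp
    ring

private lemma C7a_W_sub (v v' : Fin 3 → ℝ) : C7a_W (fun i => v i - v' i) = C7a_W v - C7a_W v' := by
  apply Complex.ext
  · simp only [C7a_W, Complex.sub_re]; ring
  · simp only [C7a_W, Complex.sub_im]; ring

private lemma C7a_close {L e : ℝ} {a p : ℂ} {v : Fin 3 → ℝ} (hv : v 0 + v 1 + v 2 = 0)
    (h : ∀ i, |H L i p - H L i a - v i| ≤ e) : ‖p - a - C7a_W v‖ ≤ 1.3 * e := by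
  refine norm_le_of_H L (p - a) (C7a_W v) e fun i => ?_
  have h1 := H_sub L i p a
  have h2 := C7a_W_H L v hv i
  have h3 : H L i (p - a) - H L i (C7a_W v) = H L i p - H L i a - v i := by linarith
  rw [h3]
  exact h i

private lemma C7a_of_q {L : ℝ} {a z : ℂ} {v : Fin 3 → ℝ} (hv : v 0 + v 1 + v 2 = 0)
    (h : q (fun i => H L i z - H L i a - v i) ≤ 169 / 400) : ‖z - a - C7a_W v‖ ≤ 13 / 20 := by
  have h1 := normSq_eq_q L (z - a) (C7a_W v)
  have h2 : (fun i => H L i (z - a) - H L i (C7a_W v)) = (fun i => H L i z - H L i a - v i) := by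
    funext i
    have h1 := H_sub L i z a
    have h2 := C7a_W_H L v hv i
    linarith
  rw [h2] at h1
  by_contra hcon
  rw [not_le] at hcon
  nlinarith [norm_nonneg (z - a - C7a_W v)]

private lemma C7a_ineq {x y z : ℝ} (hs : x + y + z = 1) (hy : y ≤ x) (hz : z ≤ x)
    (hy0 : -3 / 100 ≤ y) (hz0 : -3 / 100 ≤ z) : y ^ 2 + z ^ 2 + y * z ≤ 169 / 400 := by
  have hx1 : x ≤ 53 / 50 := by linarith
  have hx2 : 1 / 3 ≤ x := by linarith
  nlinarith [mul_nonneg (sub_nonneg.2 hy) (sub_nonneg.2 hz),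
    mul_nonneg (sub_nonneg.2 hy) (by linarith : (0 : ℝ) ≤ y + 3 / 100),
    mul_nonneg (sub_nonneg.2 hz) (by linarith : (0 : ℝ) ≤ z + 3 / 100),
    mul_nonneg (by linarith : (0 : ℝ) ≤ y + 3 / 100) (by linarith : (0 : ℝ) ≤ z + 3 / 100)]

/-- rounding to a label -/
private lemma C7a_round (k : ℕ) (y : Fin 3 → ℝ) (hs : y 0 + y 1 + y 2 = k)
    (hy : ∀ i, -3 / 100 ≤ y i) :
    ∃ l ∈ Lam k, q (fun i => y i - l i) ≤ 169 / 400 := by
  set f : Fin 3 → ℕ := fun i => ⌊y i + 3 / 100⌋₊ with hf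
  set φ : Fin 3 → ℝ := fun i => y i - f i with hφ
  have h1 : ∀ i, -3 / 100 ≤ φ i := fun i => by
    have := Nat.floor_le (show 0 ≤ y i + 3 / 100 by linarith [hy i])
    simp only [hφ, hf]
    linarith
  have h2 : ∀ i, φ i < 97 / 100 := fun i => by
    have := Nat.lt_floor_add_one (y i + 3 / 100)
    simp only [hφ, hf]
    linarith
  have hsum : φ 0 + φ 1 + φ 2 = k - ((f 0 + f 1 + f 2 : ℕ) : ℝ) := by
    simp only [hφ]
    push_cast
    linarith
  have hlow : -9 / 100 ≤ (k : ℝ) - ((f 0 + f 1 + f 2 : ℕ) : ℝ) := by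
    rw [← hsum]; linarith [h1 0, h1 1, h1 2]
  have hup : (k : ℝ) - ((f 0 + f 1 + f 2 : ℕ) : ℝ) < 3 := by
    rw [← hsum]; linarith [h2 0, h2 1, h2 2]
  have hN1 : f 0 + f 1 + f 2 ≤ k := by
    have : ((f 0 + f 1 + f 2 : ℕ) : ℝ) < (k : ℝ) + 1 := by linarith
    have h3 : f 0 + f 1 + f 2 < k + 1 := by exact_mod_cast this
    omega
  have hN2 : k < f 0 + f 1 + f 2 + 3 := by
    have : (k : ℝ) < ((f 0 + f 1 + f 2 : ℕ) : ℝ) + 3 := by linarith
    exact_mod_cast this
  have hq : ∀ l : Fin 3 → ℕ, q (fun i => y i - l i) =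
      ((y 0 - l 0) ^ 2 + (y 1 - l 1) ^ 2 + (y 2 - l 2) ^ 2) / 2 := fun l => rfl
  have hy' : ∀ i, y i = φ i + f i := fun i => by simp only [hφ]; ring
  rcases (show f 0 + f 1 + f 2 = k ∨ f 0 + f 1 + f 2 + 1 = k ∨ f 0 + f 1 + f 2 + 2 = k by omega)
    with hN | hN | hN
  · refine ⟨f, mem_Lam.2 hN, ?_⟩
    have hN' : ((f 0 + f 1 + f 2 : ℕ) : ℝ) = k := by exact_mod_cast hN
    rw [hN', sub_self] at hsum
    rw [hq, hy' 0, hy' 1, hy' 2]
    have := h1 0
    have := h1 1
    have := h1 2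
    have e0 : φ 0 ≤ 6 / 100 := by linarith
    have e1 : φ 1 ≤ 6 / 100 := by linarith
    have e2 : φ 2 ≤ 6 / 100 := by linarith
    have s0 : φ 0 ^ 2 ≤ 36 / 10000 := by nlinarith
    have s1 : φ 1 ^ 2 ≤ 36 / 10000 := by nlinarith
    have s2 : φ 2 ^ 2 ≤ 36 / 10000 := by nlinarith
    rw [add_sub_cancel_right, add_sub_cancel_right, add_sub_cancel_right]
    linarith
  · have hN' : (k : ℝ) = ((f 0 + f 1 + f 2 : ℕ) : ℝ) + 1 := by
      rw [← hN]; push_cast; ring
    have hs1 : φ 0 + φ 1 + φ 2 = 1 := by rw [hsum, hN']; ring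
    obtain ⟨i, _, hi⟩ := Finset.exists_max_image (Finset.univ : Finset (Fin 3)) φ
      Finset.univ_nonempty
    have m0 := hi 0 (Finset.mem_univ _)
    have m1 := hi 1 (Finset.mem_univ _)
    have m2 := hi 2 (Finset.mem_univ _)
    refine ⟨fun j => f j + if j = i then 1 else 0, ?_, ?_⟩
    · rw [mem_Lam]
      fin_cases i <;> simp <;> omega
    · rw [hq, hy' 0, hy' 1, hy' 2]
      fin_cases i
      · have := C7a_ineq (x := φ 0) (y := φ 1) (z := φ 2) hs1 m1 m2 (h1 1) (h1 2)
        simp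
        nlinarith
      · have := C7a_ineq (x := φ 1) (y := φ 0) (z := φ 2) (by linarith) m0 m2 (h1 0) (h1 2)
        simp
        nlinarith
      · have := C7a_ineq (x := φ 2) (y := φ 0) (z := φ 1) (by linarith) m0 m1 (h1 0) (h1 1)
        simp
        nlinarith
  · have hN' : (k : ℝ) = ((f 0 + f 1 + f 2 : ℕ) : ℝ) + 2 := by
      rw [← hN]; push_cast; ring
    have hs1 : φ 0 + φ 1 + φ 2 = 2 := by rw [hsum, hN']; ring
    obtain ⟨i, _, hi⟩ := Finset.exists_min_image (Finset.univ : Finset (Fin 3)) φ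
      Finset.univ_nonempty
    have m0 := hi 0 (Finset.mem_univ _)
    have m1 := hi 1 (Finset.mem_univ _)
    have m2 := hi 2 (Finset.mem_univ _)
    refine ⟨fun j => f j + if j = i then 0 else 1, ?_, ?_⟩
    · rw [mem_Lam]
      fin_cases i <;> simp <;> omega
    · rw [hq, hy' 0, hy' 1, hy' 2]
      fin_cases i
      · have := C7a_ineq (x := 1 - φ 0) (y := 1 - φ 1) (z := 1 - φ 2) (by linarith)
          (sub_le_sub_left m1 1) (sub_le_sub_left m2 1) (by linarith [h2 1]) (by linarith [h2 2])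
        simp
        nlinarith
      · have := C7a_ineq (x := 1 - φ 1) (y := 1 - φ 0) (z := 1 - φ 2) (by linarith)
          (sub_le_sub_left m0 1) (sub_le_sub_left m2 1) (by linarith [h2 0]) (by linarith [h2 2])
        simp
        nlinarith
      · have := C7a_ineq (x := 1 - φ 2) (y := 1 - φ 0) (z := 1 - φ 1) (by linarith)
          (sub_le_sub_left m0 1) (sub_le_sub_left m1 1) (by linarith [h2 0]) (by linarith [h2 1])
        simp
        nlinarith

/-- a wall point near a point of `GG` -/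
private lemma C7a_wall (h : LData L E0 g1 R0 t D X err) {a : ℂ} (ha : GG L g1 t D X err a)
    (i : Fin 3) (hi : H L i a ≤ L / 2) :
    ∃ b, GG L g1 t D X err b ∧ GWall L g1 X err i b ∧ ‖a - b‖ ≤ H L i a + 15 * D := by
  have haX := (GG_int_or_wall h ha).1
  have h0 : ∀ l, 0 ≤ H L l a := h.S.inT a haX
  have hLD := h.LD
  have hD1 := h.D1
  have hsum : H L i a + H L (i + 1) a + H L (i + 2) a = L := by
    have := H_sum L a
    fin_cases i
    · simpa using this
    · simp only [Fin.mk_one, Fin.isValue, fin3_11, fin3_12]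
      linarith
    · simp only [Fin.reduceFinMk, Fin.isValue, fin3_21, fin3_22]
      linarith
  have hall : ∀ P : Fin 3 → Prop, P i → P (i + 1) → P (i + 2) → ∀ l, P l := by
    intro P p0 p1 p2 l
    fin_cases i <;> fin_cases l <;> simp_all [fin3_11, fin3_12, fin3_21, fin3_22]
  have hdir : ∀ (j : Fin 3) (x : ℝ) (l : Fin 3),
      H L l (a + x * dirv j) = H L l a + x * (H L l (dirv j) - H L l 0) := by
    intro j x l
    have e1 := H_add L l a (x * dirv j)
    have e2 := H_smul L l x (dirv j)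
    linarith
  have hkey : ∃ z : ℂ, H L i z = 0 ∧ (∀ l, 0 ≤ H L l z) ∧ (∀ l, H L l z ≤ L - 100000 * D) ∧
      ‖a - z‖ ≤ H L i a := by
    rcases le_total (H L (i + 1) a) (H L (i + 2) a) with hle | hle
    · -- raise H (i+1): direction - dirv (i+2)
      refine ⟨a + ((-(H L i a) : ℝ) : ℂ) * dirv (i + 2), ?_, ?_, ?_, ?_⟩
      · rw [hdir]
        have e := H_dir_add1 L (i + 2)
        have e3 : i + 2 + 1 = i := by fin_cases i <;> rfl
        rw [e3] at e
        rw [e]; ring
      · refine hall _ ?_ ?_ ?_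
        · rw [hdir]
          have e := H_dir_add1 L (i + 2)
          have e3 : i + 2 + 1 = i := by fin_cases i <;> rfl
          rw [e3] at e
          rw [e]; linarith
        · rw [hdir]
          have e := H_dir_add2 L (i + 2)
          have e3 : i + 2 + 2 = i + 1 := by fin_cases i <;> rfl
          rw [e3] at e
          rw [e]
          have := h0 i
          have := h0 (i + 1)
          linarith
        · rw [hdir, H_dir_self]
          have := h0 (i + 2)
          linarith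
      · refine hall _ ?_ ?_ ?_
        · rw [hdir]
          have e := H_dir_add1 L (i + 2)
          have e3 : i + 2 + 1 = i := by fin_cases i <;> rfl
          rw [e3] at e
          rw [e]; linarith
        · rw [hdir]
          have e := H_dir_add2 L (i + 2)
          have e3 : i + 2 + 2 = i + 1 := by fin_cases i <;> rfl
          rw [e3] at e
          rw [e]
          linarith
        · rw [hdir, H_dir_self]
          have := ha.2 (i + 2)
          linarith
      · have e : a - (a + ((-(H L i a) : ℝ) : ℂ) * dirv (i + 2)) =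
            ((H L i a : ℝ) : ℂ) * dirv (i + 2) := by push_cast; ring
        rw [e, norm_mul, dirv_norm, mul_one, Complex.norm_real, Real.norm_of_nonneg (h0 i)]
    · -- raise H (i+2): direction dirv (i+1)
      refine ⟨a + ((H L i a : ℝ) : ℂ) * dirv (i + 1), ?_, ?_, ?_, ?_⟩
      · rw [hdir]
        have e := H_dir_add2 L (i + 1)
        have e3 : i + 1 + 2 = i := by fin_cases i <;> rfl
        rw [e3] at e
        rw [e]; ring
      · refine hall _ ?_ ?_ ?_
        · rw [hdir]
          have e := H_dir_add2 L (i + 1)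
          have e3 : i + 1 + 2 = i := by fin_cases i <;> rfl
          rw [e3] at e
          rw [e]; linarith
        · rw [hdir, H_dir_self]
          have := h0 (i + 1)
          linarith
        · rw [hdir]
          have e := H_dir_add1 L (i + 1)
          have e3 : i + 1 + 1 = i + 2 := by fin_cases i <;> rfl
          rw [e3] at e
          rw [e]
          have := h0 i
          have := h0 (i + 2)
          linarith
      · refine hall _ ?_ ?_ ?_
        · rw [hdir]
          have e := H_dir_add2 L (i + 1)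
          have e3 : i + 1 + 2 = i := by fin_cases i <;> rfl
          rw [e3] at e
          rw [e]; linarith
        · rw [hdir, H_dir_self]
          have := ha.2 (i + 1)
          linarith
        · rw [hdir]
          have e := H_dir_add1 L (i + 1)
          have e3 : i + 1 + 1 = i + 2 := by fin_cases i <;> rfl
          rw [e3] at e
          rw [e]
          linarith
      · have e : a - (a + ((H L i a : ℝ) : ℂ) * dirv (i + 1)) =
            ((-(H L i a) : ℝ) : ℂ) * dirv (i + 1) := by push_cast; ring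
        rw [e, norm_mul, dirv_norm, mul_one, Complex.norm_real, norm_neg,
          Real.norm_of_nonneg (h0 i)]
  obtain ⟨z, hz0, hz1, hz2, hz3⟩ := hkey
  obtain ⟨b, hb1, hb2, hb3⟩ := wall_dense h hz0 hz1 hz2
  refine ⟨b, hb1, hb2, ?_⟩
  have : ‖a - b‖ ≤ ‖a - z‖ + ‖z - b‖ := by
    have := norm_add_le (a - z) (z - b)
    rwa [sub_add_sub_cancel] at this
  linarith

/-- the transported label of a point of the triangle has no very negative coordinate -/
private lemma C7a_lower (h : LData L E0 g1 R0 t D X err) (hl : LamData L g1 t D X err lam K)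
    {a z : ℂ} (ha : GG L g1 t D X err a) (hz : ∀ i, 0 ≤ H L i z) (haz : ‖z - a‖ ≤ 5 * D)
    (i : Fin 3) : -3 / 100 ≤ (lam a i : ℝ) + H L i z - H L i a := by
  have haX := (GG_int_or_wall h ha).1
  have h0 : ∀ l, 0 ≤ H L l a := h.S.inT a haX
  have hLD := h.LD
  have hD1 := h.D1
  have hlip := abs_le.1 (H_lip L i z a)
  have hlip' : 1.2 * ‖z - a‖ ≤ 6 * D := by linarith
  have hzi := hz i
  have hai := h0 i
  rcases le_or_gt (H L i a) (L / 2) with hi | hi
  · obtain ⟨b, hb, hbw, hab⟩ := C7a_wall h ha i hi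
    have hlb : lam b i = 0 := hl.wall i b hb hbw
    have hHb : H L i b ≤ 1 / 1000 := hbw.2.2.2.1.trans (hbw.2.1.trans h.S.g1le)
    have hHb0 : 0 ≤ H L i b := h.S.inT b hbw.1 i
    rcases le_or_gt (H L i z) (3 * D) with hz3 | hz3
    · have hab' : ‖a - b‖ ≤ 50 * D := by linarith
      have := abs_le.1 (hl.loc a b ha hb hab' i)
      rw [hlb] at this
      push_cast at this
      linarith
    · have := abs_le.1 (lam_glob h hl ha hb i)
      rw [hlb] at this
      push_cast at this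
      linarith
  · have := abs_le.1 (lam_near h hl ha i)
    linarith

/-- a point of `GG` with the label `l` is close to the predicted place -/
private lemma C7a_glob (h : LData L E0 g1 R0 t D X err) (hl : LamData L g1 t D X err lam K)
    {a b : ℂ} (ha : GG L g1 t D X err a) (hb : GG L g1 t D X err b) :
    ‖b - a - C7a_W (fun i => (lam b i : ℝ) - lam a i)‖ ≤ 1.3 * (‖a - b‖ / 10 + 1 / 100) := by
  refine C7a_close (L := L) ?_ fun i => lam_glob h hl ha hb i
  have h1 := hl.sum a ha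
  have h2 := hl.sum b hb
  have h3 : (lam a 0 : ℝ) + lam a 1 + lam a 2 = K := by exact_mod_cast h1
  have h4 : (lam b 0 : ℝ) + lam b 1 + lam b 2 = K := by exact_mod_cast h2
  linarith

private lemma C7a_loc (h : LData L E0 g1 R0 t D X err) (hl : LamData L g1 t D X err lam K)
    {a b : ℂ} (ha : GG L g1 t D X err a) (hb : GG L g1 t D X err b) (hab : ‖a - b‖ ≤ 50 * D) :
    ‖b - a - C7a_W (fun i => (lam b i : ℝ) - lam a i)‖ ≤ 1.3 * (1 / 100) := by
  refine C7a_close (L := L) ?_ fun i => hl.loc a b ha hb hab i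
  have h1 := hl.sum a ha
  have h2 := hl.sum b hb
  have h3 : (lam a 0 : ℝ) + lam a 1 + lam a 2 = K := by exact_mod_cast h1
  have h4 : (lam b 0 : ℝ) + lam b 1 + lam b 2 = K := by exact_mod_cast h2
  linarith

/-- the label of a point of `X` -/
private lemma C7a_label (h : LData L E0 g1 R0 t D X err) (k : ℕ)
    (hl : LamData L g1 t D X err lam k) {z : ℂ} (hz : z ∈ X)
    (hz' : ∀ i, H L i z ≤ L - 100000 * D) :
    ∃ a, ∃ l ∈ Lam k, GG L g1 t D X err a ∧ ‖z - a‖ ≤ 5 * D ∧
      ‖z - a - C7a_W (fun i => (l i : ℝ) - lam a i)‖ ≤ 13 / 20 := by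
  have hz0 := h.S.inT z hz
  obtain ⟨a, ha1, ha2, ha3⟩ := dense_G h hz0 hz' 0
  have ha : GG L g1 t D X err a := ⟨⟨0, ha1⟩, ha2⟩
  have hsl : (lam a 0 : ℝ) + lam a 1 + lam a 2 = k := by
    have := hl.sum a ha
    exact_mod_cast this
  obtain ⟨l, hlk, hq⟩ := C7a_round k (fun i => (lam a i : ℝ) + H L i z - H L i a) (by
    have h1 := H_sum L z
    have h2 := H_sum L a
    show (lam a 0 : ℝ) + H L 0 z - H L 0 a + ((lam a 1 : ℝ) + H L 1 z - H L 1 a) +
      ((lam a 2 : ℝ) + H L 2 z - H L 2 a) = k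
    linarith) (fun i => C7a_lower h hl ha hz0 ha3 i)
  refine ⟨a, l, hlk, ha, ha3, C7a_of_q (L := L) ?_ ?_⟩
  · have h1 : (l 0 : ℝ) + l 1 + l 2 = k := by exact_mod_cast mem_Lam.1 hlk
    linarith
  · have e : (fun i => H L i z - H L i a - ((l i : ℝ) - lam a i)) =
        (fun i => (lam a i : ℝ) + H L i z - H L i a - l i) := by
      funext i; ring
    rw [e]
    exact hq

private lemma C7a_norm_tri (a b c : ℂ) : ‖a - c‖ ≤ ‖a - b‖ + ‖b - c‖ := by
  have := norm_add_le (a - b) (b - c)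
  rwa [sub_add_sub_cancel] at this

/-- a point whose label is the label of a point of `GG` is this point -/
private lemma C7a_eq (h : LData L E0 g1 R0 t D X err) (hl : LamData L g1 t D X err lam K)
    {z a p : ℂ} (hz : z ∈ X) (ha : GG L g1 t D X err a) (hp : GG L g1 t D X err p)
    (h1 : ‖z - a‖ ≤ 5 * D) (h2 : ‖z - a - C7a_W (fun i => (lam p i : ℝ) - lam a i)‖ ≤ 13 / 20) :
    z = p := by
  have hD1 := h.D1
  set w := C7a_W (fun i => (lam p i : ℝ) - lam a i) with hw
  have g1' := C7a_glob h hl ha hp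
  rw [← hw] at g1'
  have t1 : ‖w‖ ≤ 13 / 20 + 5 * D := by
    have e1 := norm_sub_norm_le w (z - a)
    have e2 := norm_sub_rev w (z - a)
    linarith
  have t2 : ‖p - a‖ ≤ ‖p - a - w‖ + ‖w‖ := by
    have := norm_add_le (p - a - w) w
    rwa [sub_add_cancel] at this
  have t3 : ‖a - p‖ = ‖p - a‖ := norm_sub_rev a p
  have hap : ‖a - p‖ ≤ 50 * D := by
    rw [t3] at g1' ⊢
    nlinarith
  have g2' := C7a_loc h hl ha hp hap
  rw [← hw] at g2'
  refine eq_of_close h.S hz (GG_int_or_wall h hp).1 ?_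
  have e : z - p = (z - a - w) - (p - a - w) := by ring
  rw [e]
  have := norm_sub_le (z - a - w) (p - a - w)
  linarith

/-- two points with the same label are close -/
private lemma C7a_near (h : LData L E0 g1 R0 t D X err) (hl : LamData L g1 t D X err lam K)
    {z a z' a' : ℂ} {l : Fin 3 → ℕ} (ha : GG L g1 t D X err a) (ha' : GG L g1 t D X err a')
    (h1 : ‖z - a‖ ≤ 5 * D) (h2 : ‖z - a - C7a_W (fun i => (l i : ℝ) - lam a i)‖ ≤ 13 / 20)
    (h1' : ‖z' - a'‖ ≤ 5 * D)
    (h2' : ‖z' - a' - C7a_W (fun i => (l i : ℝ) - lam a' i)‖ ≤ 13 / 20) : ‖z' - z‖ ≤ 3 / 2 := by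
  have hD1 := h.D1
  have hW : C7a_W (fun i => (lam a' i : ℝ) - lam a i) =
      C7a_W (fun i => (l i : ℝ) - lam a i) - C7a_W (fun i => (l i : ℝ) - lam a' i) := by
    rw [← C7a_W_sub]
    congr 1
    funext i
    ring
  have e : z' - z = (z' - a' - C7a_W (fun i => (l i : ℝ) - lam a' i)) -
      (z - a - C7a_W (fun i => (l i : ℝ) - lam a i)) +
      (a' - a - C7a_W (fun i => (lam a' i : ℝ) - lam a i)) := by
    rw [hW]; ring
  have hb : ‖z' - z‖ ≤ 13 / 10 + ‖a' - a - C7a_W (fun i => (lam a' i : ℝ) - lam a i)‖ := by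
    rw [e]
    have n1 := norm_add_le ((z' - a' - C7a_W (fun i => (l i : ℝ) - lam a' i)) -
      (z - a - C7a_W (fun i => (l i : ℝ) - lam a i)))
      (a' - a - C7a_W (fun i => (lam a' i : ℝ) - lam a i))
    have n2 := norm_sub_le (z' - a' - C7a_W (fun i => (l i : ℝ) - lam a' i))
      (z - a - C7a_W (fun i => (l i : ℝ) - lam a i))
    linarith
  have g1' := C7a_glob h hl ha ha'
  have t1 : ‖a - a'‖ ≤ 10 * D + ‖z' - z‖ := by
    have n1 := C7a_norm_tri a z a'
    have n2 := C7a_norm_tri z z' a'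
    rw [norm_sub_rev a z] at n1
    rw [norm_sub_rev z z'] at n2
    linarith
  have haa : ‖a - a'‖ ≤ 50 * D := by nlinarith
  have g2' := C7a_loc h hl ha ha' haa
  linarith

private lemma C7a_ext {k : ℕ} {i j : Fin 3} (hij : i ≠ j) {l l' : Fin 3 → ℕ} (hl : l ∈ Lam k)
    (hl' : l' ∈ Lam k) (h1 : l i = l' i) (h2 : l j = l' j) : l = l' := by
  rw [mem_Lam] at hl hl'
  funext x
  fin_cases i <;> fin_cases j <;> fin_cases x <;> simp_all <;> omega

private lemma C7a_pairs (k m : ℕ) {i j : Fin 3} (hij : i ≠ j) :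
    ((Lam k).filter (fun l => l i ≤ m ∧ l j ≤ m)).card ≤ (m + 1) ^ 2 := by
  have h : ((Lam k).filter (fun l => l i ≤ m ∧ l j ≤ m)).card ≤
      (range (m + 1) ×ˢ range (m + 1)).card := by
    refine Finset.card_le_card_of_injOn (fun l => (l i, l j)) ?_ ?_
    · intro l hl
      have hl' := (Finset.mem_filter.1 (Finset.mem_coe.1 hl)).2
      rw [Finset.mem_coe, Finset.mem_product, Finset.mem_range, Finset.mem_range]
      exact ⟨by have := hl'.1; show l i < m + 1; omega, by have := hl'.2; show l j < m + 1; omega⟩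
    · intro l hl l' hl' hll
      have e1 := (Finset.mem_filter.1 (Finset.mem_coe.1 hl)).1
      have e2 := (Finset.mem_filter.1 (Finset.mem_coe.1 hl')).1
      exact C7a_ext hij e1 e2 (congrArg Prod.fst hll) (congrArg Prod.snd hll)
  refine h.trans (le_of_eq ?_)
  rw [Finset.card_product, Finset.card_range]
  ring

/-- `Z` = the labels `l ∈ Lam k` which are not the label of a point of `GG`; by `realise` each of them has two coordinates `≤ 4 Rc` or all its coordinates are unclean values `≤ K - 4 Rc`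
(`few_unclean`; the label is determined by two coordinates). -/
theorem exists_Z (h : LData L E0 g1 R0 t D X err) (k : ℕ) (hl : LamData L g1 t D X err lam k) :
    ∃ Z : Finset (Fin 3 → ℕ), Z ⊆ Lam k ∧ (Z.card : ℝ) ≤ (UU L E0 g1 X err t + 2) ^ 2 + 3 * (400000 * D + 1) ^ 2 ∧
      ∀ l ∈ Lam k, l ∉ Z → ∃ p, GG L g1 t D X err p ∧ ∀ j, lam p j = l j := by
  classical
  set Zf := (Lam k).filter (fun l => ¬ ∃ p, GG L g1 t D X err p ∧ ∀ j, lam p j = l j) with hZf
  refine ⟨Zf, Finset.filter_subset _ _, ?_, ?_⟩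
  swap
  · intro l hl1 hl2
    by_contra hcon
    exact hl2 (Finset.mem_filter.2 ⟨hl1, hcon⟩)
  have hD1 := h.D1
  set m : ℕ := ⌊400000 * D⌋₊ with hm
  have hmD : (m : ℝ) ≤ 400000 * D := Nat.floor_le (by positivity)
  set Z1 : Finset (Fin 3 → ℕ) := ((Lam k).filter (fun l => l 0 ≤ m ∧ l 1 ≤ m)) ∪
    (((Lam k).filter (fun l => l 1 ≤ m ∧ l 2 ≤ m)) ∪
      ((Lam k).filter (fun l => l 0 ≤ m ∧ l 2 ≤ m))) with hZ1
  have c1 : (Z1.card : ℝ) ≤ 3 * (400000 * D + 1) ^ 2 := by
    have e1 := Finset.card_union_le ((Lam k).filter (fun l => l 0 ≤ m ∧ l 1 ≤ m))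
      (((Lam k).filter (fun l => l 1 ≤ m ∧ l 2 ≤ m)) ∪
      ((Lam k).filter (fun l => l 0 ≤ m ∧ l 2 ≤ m)))
    have e2 := Finset.card_union_le ((Lam k).filter (fun l => l 1 ≤ m ∧ l 2 ≤ m))
      ((Lam k).filter (fun l => l 0 ≤ m ∧ l 2 ≤ m))
    have e3 := C7a_pairs k m (show (0 : Fin 3) ≠ 1 by decide)
    have e4 := C7a_pairs k m (show (1 : Fin 3) ≠ 2 by decide)
    have e5 := C7a_pairs k m (show (0 : Fin 3) ≠ 2 by decide)
    have e6 : Z1.card ≤ 3 * (m + 1) ^ 2 := by
      rw [hZ1]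
      omega
    have e7 : (Z1.card : ℝ) ≤ 3 * ((m : ℝ) + 1) ^ 2 := by exact_mod_cast e6
    refine e7.trans ?_
    have : ((m : ℝ) + 1) ^ 2 ≤ (400000 * D + 1) ^ 2 := by gcongr
    linarith
  set Z2 := Zf \ Z1 with hZ2
  have hbig : ∀ l ∈ Z2, ∀ i j : Fin 3, i ≠ j →
      400000 * D < (((l i : ℕ) : ℤ) : ℝ) ∨ 400000 * D < (((l j : ℕ) : ℤ) : ℝ) := by
    intro l hl2 i j hij
    rw [hZ2, Finset.mem_sdiff] at hl2
    obtain ⟨hlZ, hlZ1⟩ := hl2
    have hlk : l ∈ Lam k := (Finset.mem_filter.1 hlZ).1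
    rw [hZ1, Finset.mem_union, Finset.mem_union, Finset.mem_filter, Finset.mem_filter,
      Finset.mem_filter] at hlZ1
    have key : ∀ x : Fin 3, m < l x → 400000 * D < (((l x : ℕ) : ℤ) : ℝ) := by
      intro x hx
      rw [Int.cast_natCast]
      exact Nat.lt_of_floor_lt hx
    have hor : m < l i ∨ m < l j := by
      by_contra hcon
      rw [not_or, not_lt, not_lt] at hcon
      apply hlZ1
      fin_cases i <;> fin_cases j <;> simp_all
    rcases hor with h1 | h1
    · exact Or.inl (key i h1)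
    · exact Or.inr (key j h1)
  have hun : ∀ l ∈ Z2, ∀ i : Fin 3, 0 ≤ ((l i : ℕ) : ℤ) ∧
      (((l i : ℕ) : ℤ) : ℝ) ≤ ((k : ℤ) : ℝ) - 400000 * D ∧
      ¬ CleanVal L g1 t D X err lam i ((l i : ℕ) : ℤ) := by
    intro l hl2 i
    have hb := hbig l hl2
    rw [hZ2, Finset.mem_sdiff] at hl2
    have hlk : l ∈ Lam k := (Finset.mem_filter.1 hl2.1).1
    have hnot := (Finset.mem_filter.1 hl2.1).2
    have hs := mem_Lam.1 hlk
    have hs' : ((l 0 : ℕ) : ℤ) + ((l 1 : ℕ) : ℤ) + ((l 2 : ℕ) : ℤ) = (k : ℤ) := by exact_mod_cast hs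
    have hsR : (((l 0 : ℕ) : ℤ) : ℝ) + (((l 1 : ℕ) : ℤ) : ℝ) + (((l 2 : ℕ) : ℤ) : ℝ) =
        ((k : ℤ) : ℝ) := by exact_mod_cast hs'
    have nn : ∀ x : Fin 3, (0 : ℝ) ≤ (((l x : ℕ) : ℤ) : ℝ) := fun x => by positivity
    refine ⟨by positivity, ?_, ?_⟩
    · have n0 := nn 0
      have n1 := nn 1
      have n2 := nn 2
      fin_cases i
      · show (((l 0 : ℕ) : ℤ) : ℝ) ≤ _
        rcases hb 1 2 (by decide) with h1 | h1 <;> linarith
      · show (((l 1 : ℕ) : ℤ) : ℝ) ≤ _
        rcases hb 0 2 (by decide) with h1 | h1 <;> linarith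
      · show (((l 2 : ℕ) : ℤ) : ℝ) ≤ _
        rcases hb 0 1 (by decide) with h1 | h1 <;> linarith
    · intro hclean
      exact hnot (realise h hl (l := fun x => ((l x : ℕ) : ℤ)) (fun j => by positivity) hs' hb
        (i := i) hclean)
  have cc : ∀ i : Fin 3, ((Z2.image (fun l => ((l i : ℕ) : ℤ))).card : ℝ) ≤
      UU L E0 g1 X err t + 2 := by
    intro i
    refine few_unclean h hl i _ ?_
    intro x hx
    rw [Finset.mem_image] at hx
    obtain ⟨l, hl2, rfl⟩ := hx
    exact hun l hl2 i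
  have c2 : (Z2.card : ℝ) ≤ (UU L E0 g1 X err t + 2) ^ 2 := by
    have e1 : Z2.card ≤ ((Z2.image (fun l => ((l 0 : ℕ) : ℤ))) ×ˢ
        (Z2.image (fun l => ((l 1 : ℕ) : ℤ)))).card := by
      refine Finset.card_le_card_of_injOn (fun l => (((l 0 : ℕ) : ℤ), ((l 1 : ℕ) : ℤ))) ?_ ?_
      · intro l hl2
        rw [Finset.mem_coe, Finset.mem_product]
        exact ⟨Finset.mem_image_of_mem (fun l : Fin 3 → ℕ => ((l 0 : ℕ) : ℤ)) hl2,
          Finset.mem_image_of_mem (fun l : Fin 3 → ℕ => ((l 1 : ℕ) : ℤ)) hl2⟩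
      · intro l hl2 l' hl2' hll
        have k1 := (Finset.mem_filter.1 (Finset.mem_sdiff.1 (Finset.mem_coe.1 hl2)).1).1
        have k2 := (Finset.mem_filter.1 (Finset.mem_sdiff.1 (Finset.mem_coe.1 hl2')).1).1
        have q1 : ((l 0 : ℕ) : ℤ) = ((l' 0 : ℕ) : ℤ) := congrArg Prod.fst hll
        have q2 : ((l 1 : ℕ) : ℤ) = ((l' 1 : ℕ) : ℤ) := congrArg Prod.snd hll
        exact C7a_ext (show (0 : Fin 3) ≠ 1 by decide) k1 k2 (by exact_mod_cast q1)
          (by exact_mod_cast q2)
    rw [Finset.card_product] at e1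
    have e2 : (Z2.card : ℝ) ≤ ((Z2.image (fun l => ((l 0 : ℕ) : ℤ))).card : ℝ) *
        ((Z2.image (fun l => ((l 1 : ℕ) : ℤ))).card : ℝ) := by exact_mod_cast e1
    refine e2.trans ?_
    have e3 := cc 0
    have e4 := cc 1
    rw [sq]
    exact mul_le_mul e3 e4 (Nat.cast_nonneg _) (le_trans (Nat.cast_nonneg _) e3)
  have c3 : Zf.card ≤ Z1.card + Z2.card := by
    have e1 : Zf ⊆ Z1 ∪ Z2 := by
      intro l hl2
      rw [Finset.mem_union, hZ2, Finset.mem_sdiff]
      by_cases h1 : l ∈ Z1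
      · exact Or.inl h1
      · exact Or.inr ⟨hl2, h1⟩
    exact (Finset.card_le_card e1).trans (Finset.card_union_le _ _)
  have c4 : (Zf.card : ℝ) ≤ Z1.card + Z2.card := by exact_mod_cast c3
  linarith

open Classical in
/-- Upper bound of `|X|`. Points with some `H i > L - Rc`: `pack_corners`. A point `z ∈ X` with all `H i ≤ L - Rc` (`Rc = 100000 D`): `a ∈ GG` within `5 D` (`dense_G`); `y = lam a + H z - H a` has sum `k` and (`lam_pos`, `loc`, `H z ≥ 0`)
coordinates `≥ -0.03`; some `l ∈ Lam k` has `sqrt (q (y - l)) ≤ 0.65`. If `l` is the label of `p ∈ GG` then (`lam_glob`, then `loc`) `‖p - z‖ < 1`, `p = z`. So `X` minus the corner points minus `{p ∈ GG}` maps to `Z`, and at most `30` points have the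
same label `l` (they are within `1.4` of each other: `lam_glob`, `loc`; `pack`-like count). -/
theorem card_upper (h : LData L E0 g1 R0 t D X err) (k : ℕ) (hl : LamData L g1 t D X err lam k)
    (Z : Finset (Fin 3 → ℕ)) (hZ : Z ⊆ Lam k)
    (hY : ∀ l ∈ Lam k, l ∉ Z → ∃ p, GG L g1 t D X err p ∧ ∀ j, lam p j = l j) :
    (X.card : ℝ) ≤ (Lam k).card + 60 * Z.card + 72 * (100000 * D) ^ 2 := by
  have hD1 := h.D1
  set Xr := X.filter (fun z => ∀ i, H L i z ≤ L - 100000 * D) with hXr
  set Xc := X.filter (fun z => ∃ i, L - 100000 * D < H L i z) with hXc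
  have c1 : (Xc.card : ℝ) ≤ 72 * (100000 * D) ^ 2 := pack_corners h.S (by linarith)
  have c2 : X.card ≤ Xc.card + Xr.card := by
    have e1 : X ⊆ Xc ∪ Xr := by
      intro z hz
      rw [Finset.mem_union, hXc, hXr, Finset.mem_filter, Finset.mem_filter]
      by_cases h1 : ∃ i, L - 100000 * D < H L i z
      · exact Or.inl ⟨hz, h1⟩
      · push Not at h1
        exact Or.inr ⟨hz, h1⟩
    exact (Finset.card_le_card e1).trans (Finset.card_union_le _ _)
  have hlab : ∀ z ∈ Xr, ∃ x : ℂ × (Fin 3 → ℕ), x.2 ∈ Lam k ∧ GG L g1 t D X err x.1 ∧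
      ‖z - x.1‖ ≤ 5 * D ∧ ‖z - x.1 - C7a_W (fun i => (x.2 i : ℝ) - lam x.1 i)‖ ≤ 13 / 20 := by
    intro z hz
    rw [hXr, Finset.mem_filter] at hz
    obtain ⟨a, l, h1, h2, h3, h4⟩ := C7a_label h k hl hz.1 hz.2
    exact ⟨(a, l), h1, h2, h3, h4⟩
  choose! f hf using hlab
  have c3 : (Xr.filter (fun z => (f z).2 ∉ Z)).card ≤ (Lam k).card := by
    refine Finset.card_le_card_of_injOn (fun z => (f z).2) ?_ ?_
    · intro z hz
      exact (hf z (Finset.mem_filter.1 (Finset.mem_coe.1 hz)).1).1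
    · intro z hz z' hz' hzz
      obtain ⟨m1, m2⟩ := Finset.mem_filter.1 (Finset.mem_coe.1 hz)
      obtain ⟨m1', m2'⟩ := Finset.mem_filter.1 (Finset.mem_coe.1 hz')
      obtain ⟨h1, h2, h3, h4⟩ := hf z m1
      obtain ⟨h1', h2', h3', h4'⟩ := hf z' m1'
      have hzz' : (f z).2 = (f z').2 := hzz
      obtain ⟨p, hp, hpl⟩ := hY (f z).2 h1 m2
      have hc : ∀ i, ((lam p i : ℤ) : ℝ) = ((f z).2 i : ℝ) := fun i => by
        rw [hpl i, Int.cast_natCast]
      have r1 : z = p := by
        refine C7a_eq h hl (Finset.mem_filter.1 m1).1 h2 hp h3 ?_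
        simp only [hc]
        exact h4
      have r2 : z' = p := by
        refine C7a_eq h hl (Finset.mem_filter.1 m1').1 h2' hp h3' ?_
        simp only [hc]
        rw [hzz']
        exact h4'
      rw [r1, r2]
  have c4 : (Xr.filter (fun z => (f z).2 ∈ Z)).card ≤ 60 * Z.card := by
    refine Finset.card_le_mul_card_image_of_maps_to (f := fun z => (f z).2) ?_ 60 ?_
    · intro z hz
      exact (Finset.mem_filter.1 hz).2
    · intro l _
      rcases ((Xr.filter (fun z => (f z).2 ∈ Z)).filter (fun z => (f z).2 = l)).eq_empty_or_nonempty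
        with he | ⟨z0, hz0⟩
      · rw [he]; simp
      · have n1 := (Finset.mem_filter.1 hz0).1
        have n2 := (Finset.mem_filter.1 hz0).2
        obtain ⟨h1, h2, h3, h4⟩ := hf z0 (Finset.mem_filter.1 n1).1
        have e1 : ((Xr.filter (fun z => (f z).2 ∈ Z)).filter (fun z => (f z).2 = l)).card ≤
            (X.filter (fun z => ‖z - z0‖ ≤ 3 / 2)).card := by
          refine Finset.card_le_card fun z hz => ?_
          have k1 := (Finset.mem_filter.1 hz).1
          have k2 := (Finset.mem_filter.1 hz).2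
          have k3 := (Finset.mem_filter.1 k1).1
          obtain ⟨h1', h2', h3', h4'⟩ := hf z k3
          rw [Finset.mem_filter]
          refine ⟨(Finset.mem_filter.1 k3).1, ?_⟩
          rw [k2] at h4'
          rw [n2] at h4
          exact C7a_near h hl h2 h2' h3 h4 h3' h4'
        have e2 := pack h.S.sep z0 (R := 3 / 2) (by norm_num)
        have e3 : ((X.filter (fun z => ‖z - z0‖ ≤ 3 / 2)).card : ℝ) ≤ 54 := by
          refine e2.trans ?_
          norm_num
        have e4 : (X.filter (fun z => ‖z - z0‖ ≤ 3 / 2)).card ≤ 54 := by exact_mod_cast e3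
        omega
  have c5 : Xr.card ≤ (Xr.filter (fun z => (f z).2 ∈ Z)).card +
      (Xr.filter (fun z => (f z).2 ∉ Z)).card := by
    rw [Finset.card_filter_add_card_filter_not]
  have c6 : X.card ≤ Xc.card + ((Lam k).card + 60 * Z.card) := by omega
  have c7 : (X.card : ℝ) ≤ Xc.card + ((Lam k).card + 60 * Z.card) := by exact_mod_cast c6
  linarith

/-- `|Lam k| = (k+1)(k+2)/2` -/
theorem card_Lam (k : ℕ) : 2 * (Lam k).card = (k + 1) * (k + 2) := by
  have h1 : (Lam k).card = ((range (k + 1)).sigma (fun a => range (k + 1 - a))).card := by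
    refine Finset.card_bij' (fun l _ => (⟨l 0, l 1⟩ : Σ _ : ℕ, ℕ))
      (fun x _ => lab k 0 x.1 x.2) ?_ ?_ ?_ ?_
    · intro l hl
      rw [mem_Lam] at hl
      rw [Finset.mem_sigma, Finset.mem_range, Finset.mem_range]
      exact ⟨by show l 0 < k + 1; omega, by show l 1 < k + 1 - l 0; omega⟩
    · intro x hx
      rw [Finset.mem_sigma, Finset.mem_range, Finset.mem_range] at hx
      rw [mem_Lam]
      simp [lab]
      omega
    · intro l hl
      rw [mem_Lam] at hl
      funext i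
      fin_cases i
      · simp [lab]
      · simp [lab]
      · simp [lab]
        omega
    · intro x hx
      simp [lab]
  rw [h1, Finset.card_sigma]
  simp only [Finset.card_range]
  have h2 : ∀ k : ℕ, 2 * ∑ a ∈ range (k + 1), (k + 1 - a) = (k + 1) * (k + 2) := by
    intro k
    induction k with
    | zero => simp
    | succ k ih =>
      rw [Finset.sum_range_succ']
      have e : ∑ a ∈ range (k + 1), (k + 1 + 1 - (a + 1)) = ∑ a ∈ range (k + 1), (k + 1 - a) :=
        Finset.sum_congr rfl fun a _ => by omega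
      rw [e, mul_add, ih]
      simp only [Nat.sub_zero]
      ring
  exact h2 k

end H24
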