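import Pool.Agent.Lib_MP_27c196_co.S.C1
import Pool.Agent.Lib_MP_27c196_co.S.C7a

/-! H24 S, piece C7: the set `Z`, the map `Y`, `K = k` (blueprint S11, S12) -/

set_option linter.unusedVariables false

noncomputable section

namespace H24

open Finset

variable {L E0 g1 R0 t D : ℝ} {X : Finset ℂ} {err : ℂ → ℝ} {lam : ℂ → Fin 3 → ℤ} {K : ℤ}

/-! ### auxiliary lemmas of C7 -/

private lemma C7_abs_bounds {x y z : ℝ} (h : |x - y| ≤ z) : y - z ≤ x ∧ x ≤ y + z := by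
  have := abs_le.mp h
  constructor <;> linarith [this.1, this.2]

private lemma C7_card_lower (h : LData L E0 g1 R0 t D X err) {k : ℕ} {Z : Finset (Fin 3 → ℕ)} (hZ : Z ⊆ Lam k)
    (hY : ∀ l ∈ Lam k, l ∉ Z → ∃ p, GG L g1 t D X err p ∧ ∀ j, lam p j = l j) :
    (Lam k).card ≤ X.card + Z.card := by
  classical
  choose! Y hYG hYl using hY
  have h1 : (Lam k \ Z).card ≤ X.card := by
    apply Finset.card_le_card_of_injOn Y
    · intro l hl
      have hl' := Finset.mem_sdiff.mp hl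
      exact (GG_int_or_wall h (hYG l hl'.1 hl'.2)).1
    · intro l hl l' hl1 hYY
      have a1 := Finset.mem_sdiff.mp (Finset.mem_coe.mp hl)
      have a2 := Finset.mem_sdiff.mp (Finset.mem_coe.mp hl1)
      funext j
      have b1 := hYl l a1.1 a1.2 j
      have b2 := hYl l' a2.1 a2.2 j
      rw [hYY] at b1
      have b3 : (l j : ℤ) = l' j := by rw [← b1, ← b2]
      exact_mod_cast b3
  have h2 := Finset.card_sdiff_add_card_eq_card hZ
  omega

private lemma C7_lab_mem (n : ℕ) (i : Fin 3) : lab (n + 2) i (n + 2) 0 ∈ Lam (n + 2) := by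
  rw [mem_Lam]
  fin_cases i <;> simp [lab, fin3_11, fin3_21]

private lemma C7_add_s_mem {n : ℕ} {c : Fin 3 → ℕ} (hc : c ∈ Lam (n + 1)) (i : Fin 3) : c + s i ∈ Lam (n + 2) := by
  rw [mem_Lam] at hc ⊢
  fin_cases i <;> simp [s, Pi.add_apply] <;> omega

private lemma C7_UU_nonneg (hE : 0 ≤ E0) : 0 ≤ UU L E0 g1 X err t := by
  unfold UU
  positivity

/-- the heights of `dirv i` are the coordinates of `s (i+1) - s (i+2)` -/
private lemma C7_dir (L : ℝ) (i j : Fin 3) : H L j (dirv i) - H L j 0 = (s (i + 1) j : ℝ) - s (i + 2) j := by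
  have h0 := H_dir_self L i
  have h1 := H_dir_add1 L i
  have h2 := H_dir_add2 L i
  fin_cases i <;> fin_cases j <;> simp [s, fin3_11, fin3_12, fin3_21, fin3_22] at h0 h1 h2 ⊢ <;> linarith

/-- length of the segment from a good point to a neighbour -/
private lemma C7_len (h : LData L E0 g1 R0 t D X err) {p r : ℂ} (hp : GG L g1 t D X err p) (hr : r ∈ X) (hne : r ≠ p)
    (hd : ‖r - p‖ ≤ 11 / 10) : ‖p - r‖ ≤ 1 + err p := by
  have hS := h.S
  have key : ∀ v : ℂ, ‖v‖ = 1 → ‖r - p - v‖ ≤ err p → ‖p - r‖ ≤ 1 + err p := by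
    intro v hv h1
    have h2 : ‖r - p‖ ≤ ‖v‖ + ‖r - p - v‖ := by
      have := norm_add_le v (r - p - v)
      simpa using this
    rw [norm_sub_rev]
    linarith
  rcases (GG_int_or_wall h hp).2 with hi | ⟨i, hw⟩
  · obtain ⟨h1, h2, h3, h4, F, hF, hn⟩ := hi
    obtain ⟨j, -, hj⟩ := near_int hS ⟨h1, h2, h3, h4, F, hF, hn⟩ hr hne hd hF hn
    apply key _ _ hj
    rw [norm_mul, norm_pow, w6_norm, hF]
    simp
  · rcases near_wall hS hw hr hne hd with h1 | h1 | h1 | h1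
    · exact key _ (dirv_norm _) h1
    · exact key (-(dirv i)) (by rw [norm_neg, dirv_norm]) (by rw [sub_neg_eq_add]; exact h1)
    · exact key (-(dirv (i + 1))) (by rw [norm_neg, dirv_norm]) (by rw [sub_neg_eq_add]; exact h1)
    · exact key _ (dirv_norm _) h1

private lemma C7_edge (h : LData L E0 g1 R0 t D X err) (hl : LamData L g1 t D X err lam K) (i : Fin 3) (c : Fin 3 → ℕ)
    {p r : ℂ} (hp : GG L g1 t D X err p) (hr : GG L g1 t D X err r)
    (hlp : ∀ j, lam p j = ((c + s (i + 1)) j : ℕ)) (hlr : ∀ j, lam r j = ((c + s (i + 2)) j : ℕ)) :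
    ‖p - r - dirv i‖ ≤ 1 / 20 ∧ ‖p - r‖ ≤ 1 + err p := by
  have hcast : ∀ j, ((lam p j : ℝ) - lam r j) = (s (i + 1) j : ℝ) - s (i + 2) j := by
    intro j
    rw [hlp j, hlr j]
    push_cast [Pi.add_apply]
    ring
  have hH : ∀ j, H L j p - H L j (r + dirv i) = H L j p - H L j r - ((lam p j : ℝ) - lam r j) := by
    intro j
    rw [H_add, C7_dir, hcast j]
    ring
  have hkey : ∀ e, (∀ j, |H L j p - H L j r - ((lam p j : ℝ) - lam r j)| ≤ e) → ‖p - r - dirv i‖ ≤ 1.3 * e := by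
    intro e he
    have := norm_le_of_H L p (r + dirv i) e (fun j => by rw [hH j]; exact he j)
    rwa [← sub_sub] at this
  have h1 := hkey _ (fun j => lam_glob h hl hr hp j)
  have htri : ‖p - r‖ ≤ 1 + ‖p - r - dirv i‖ := by
    have := norm_add_le (dirv i) (p - r - dirv i)
    rw [dirv_norm] at this
    simpa using this
  have hsym : ‖r - p‖ = ‖p - r‖ := norm_sub_rev _ _
  rw [hsym] at h1
  have hd : ‖p - r‖ ≤ 1.2 := by linarith
  have h2 := hkey _ (fun j => hl.loc r p hr hp (by rw [hsym]; linarith [h.D1]) j)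
  have htri2 : 1 ≤ ‖p - r‖ + ‖p - r - dirv i‖ := by
    have := norm_sub_le (p - r) (p - r - dirv i)
    rw [sub_sub_cancel, dirv_norm] at this
    exact this
  refine ⟨by linarith, ?_⟩
  apply C7_len h hp (GG_int_or_wall h hr).1
  · intro hcon
    rw [hcon] at htri2 h2
    simp only [sub_self, norm_zero] at htri2 h2
    linarith
  · rw [hsym]; linarith

/-- `K = n + 2`: `K > 0` by `K_near`, put `k = K.toNat`; `|Lam k| - |Z| ≤ |X| ≤ |Lam k| + 60 |Z| + 72 Rc^2` and `|X| = |Lam (n+2)| - m`; if `k ≠ n + 2` the two cardinalities `|Lam k|`, `|Lam (n+2)|` differ by at least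
`min k (n+2)  ≥ 0.8 L`. `B` is an upper bound for all the constants. -/
theorem K_eq (h : LData L E0 g1 R0 t D X err) (hl : LamData L g1 t D X err lam K) (n m : ℕ)
    (hL1 : (n : ℝ) + 1 ≤ L) (hL2 : L ≤ n + 2) (hX : X.card + m = (n + 3) * (n + 4) / 2)
    (hbig : 100 * ((UU L E0 g1 X err t + 2) ^ 2 + 3 * (400000 * D + 1) ^ 2) + 72 * (100000 * D) ^ 2 + m + 10 ≤ n / 2) :
    K = n + 2 := by
  have hK := C7_abs_bounds (K_near h hl)
  have hD1 := h.D1
  have hLD := h.LD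
  have hL20 := h.S.L20
  have hKpos : (0 : ℝ) < K := by linarith [hK.1]
  have hKpos' : 0 < K := by exact_mod_cast hKpos
  obtain ⟨k, rfl⟩ : ∃ k : ℕ, K = (k : ℤ) := ⟨K.toNat, by omega⟩
  obtain ⟨Z, hZ, hZc, hY⟩ := exists_Z h k hl
  have hup := card_upper h k hl Z hZ hY
  have hlow : (Lam k).card ≤ X.card + Z.card := C7_card_lower h hZ hY
  have hL := card_Lam k
  have hLr : 2 * ((Lam k).card : ℝ) = (k + 1) * (k + 2) := by exact_mod_cast hL
  have hlowr : ((Lam k).card : ℝ) ≤ X.card + Z.card := by exact_mod_cast hlow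
  have hX2 : 2 * ((X.card : ℝ) + m) = (n + 3) * (n + 4) := by
    have h2 : 2 * (X.card + m) = (n + 3) * (n + 4) := by
      rw [hX]
      apply Nat.mul_div_cancel'
      have := Nat.even_mul_succ_self (n + 3)
      exact this.two_dvd
    exact_mod_cast h2
  have hB0 : (0 : ℝ) ≤ Z.card := by positivity
  have hm0 : (0 : ℝ) ≤ m := by positivity
  have hn0 : (0 : ℝ) ≤ n := by positivity
  have hD2 : 0 ≤ 72 * (100000 * D) ^ 2 := by positivity
  rcases lt_trichotomy k (n + 2) with hk | hk | hk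
  · exfalso
    have hk' : (k : ℝ) ≤ n + 1 := by
      have : k ≤ n + 1 := by omega
      exact_mod_cast this
    have hk0 : (0 : ℝ) ≤ k := by positivity
    have h1 : ((k : ℝ) + 1) * (k + 2) ≤ (n + 2) * (n + 3) := by nlinarith
    nlinarith
  · subst hk
    push_cast
    ring
  · exfalso
    have hk' : (n : ℝ) + 3 ≤ k := by
      have : n + 3 ≤ k := by omega
      exact_mod_cast this
    have h1 : ((n : ℝ) + 4) * (n + 5) ≤ (k + 1) * (k + 2) := by nlinarith
    nlinarith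

/-- the labelled configuration -/
structure Lab (L : ℝ) (X : Finset ℂ) (err : ℂ → ℝ) (n : ℕ) (Z : Finset (Fin 3 → ℕ)) (Y : (Fin 3 → ℕ) → ℂ) : Prop where
  sub : Z ⊆ Lam (n + 2)
  corner : ∀ i, lab (n + 2) i (n + 2) 0 ∈ Z
  mem : ∀ l ∈ Lam (n + 2), l ∉ Z → Y l ∈ X
  inj : ∀ l ∈ Lam (n + 2), ∀ l' ∈ Lam (n + 2), l ∉ Z → l' ∉ Z → Y l = Y l' → l = l'
  edge : ∀ i, ∀ c ∈ Lam (n + 1), c + s (i + 1) ∉ Z → c + s (i + 2) ∉ Z →
    ‖Y (c + s (i + 1)) - Y (c + s (i + 2)) - dirv i‖ ≤ 1 / 20 ∧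
      ‖Y (c + s (i + 1)) - Y (c + s (i + 2))‖ ≤ 1 + err (Y (c + s (i + 1)))
  wall : ∀ i, ∀ l ∈ Lam (n + 2), l ∉ Z → l i = 0 → H L i (Y l) ≤ err (Y l)

/-- `Y l` = the point of `GG` with label `l` (`exists_Z`), `Z` enlarged by the three corners. Edges: the labels of the two ends differ by the unit vector `e_i`; `lam_glob` gives distance `≤ 1.2`, then `loc` gives height differences within
`1/100` of `e_i` and `‖.. - dirv i‖ ≤ 1.3/100`; `near_int` / `near_wall` at `Y (c + s (i+1))` give length `≤ 1 + err`. Wall: `lam_pos` gives `GWall i`. -/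
theorem exists_lab (h : LData L E0 g1 R0 t D X err) (n : ℕ) (hl : LamData L g1 t D X err lam (n + 2)) :
    ∃ (Z : Finset (Fin 3 → ℕ)) (Y : (Fin 3 → ℕ) → ℂ), Lab L X err n Z Y ∧
      (Z.card : ℝ) ≤ (UU L E0 g1 X err t + 2) ^ 2 + 3 * (400000 * D + 1) ^ 2 + 3 := by
  classical
  have hl' : LamData L g1 t D X err lam ((n + 2 : ℕ) : ℤ) := by
    have e : (((n + 2 : ℕ) : ℤ)) = (n : ℤ) + 2 := by push_cast; ring
    rw [e]; exact hl
  obtain ⟨Z, hZ, hZc, hY⟩ := exists_Z h (n + 2) hl'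
  choose! Y hYG hYl using hY
  set Z' : Finset (Fin 3 → ℕ) := Z ∪ Finset.univ.image (fun i => lab (n + 2) i (n + 2) 0) with hZ'
  have hnot : ∀ l, l ∉ Z' → l ∉ Z := fun l h1 h2 => h1 (Finset.mem_union_left _ h2)
  refine ⟨Z', Y, ⟨?_, ?_, ?_, ?_, ?_, ?_⟩, ?_⟩
  · intro l hl1
    rcases Finset.mem_union.mp hl1 with h1 | h1
    · exact hZ h1
    · obtain ⟨i, -, rfl⟩ := Finset.mem_image.mp h1
      exact C7_lab_mem n i
  · intro i
    exact Finset.mem_union_right _ (Finset.mem_image.mpr ⟨i, Finset.mem_univ _, rfl⟩)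
  · intro l hl1 hl2
    exact (GG_int_or_wall h (hYG l hl1 (hnot l hl2))).1
  · intro l hl1 l' hl1' hl2 hl2' hYY
    funext j
    have h1 := hYl l hl1 (hnot l hl2) j
    have h2 := hYl l' hl1' (hnot l' hl2') j
    rw [hYY] at h1
    have h3 : (l j : ℤ) = l' j := by rw [← h1, ← h2]
    exact_mod_cast h3
  · intro i c hc h1 h2
    have m1 : c + s (i + 1) ∈ Lam (n + 2) := C7_add_s_mem hc (i + 1)
    have m2 : c + s (i + 2) ∈ Lam (n + 2) := C7_add_s_mem hc (i + 2)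
    exact C7_edge h hl i c (hYG _ m1 (hnot _ h1)) (hYG _ m2 (hnot _ h2)) (hYl _ m1 (hnot _ h1)) (hYl _ m2 (hnot _ h2))
  · intro i l hl1 hl2 hl0
    have hG := hYG l hl1 (hnot l hl2)
    have hp := (lam_pos h hl hG i).2
    have hw : GWall L g1 X err i (Y l) := by
      by_contra hcon
      have h1 := hp hcon
      rw [hYl l hl1 (hnot l hl2) i, hl0] at h1
      norm_num at h1
    exact hw.2.2.2.1
  · have h1 : Z'.card ≤ Z.card + 3 := by
      refine le_trans (Finset.card_union_le _ _) ?_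
      have h2 : (Finset.univ.image (fun i : Fin 3 => lab (n + 2) i (n + 2) 0)).card ≤ 3 := by
        refine le_trans Finset.card_image_le ?_
        simp
      omega
    have h2 : (Z'.card : ℝ) ≤ Z.card + 3 := by exact_mod_cast h1
    linarith

/-- THEOREM S: `dense_lines` gives `C`; `choose_t` with `κ = 1/(10^7 C)` gives `t ≥ tmin`; `D = C (UU + 10)` is bounded (`t (UU + 10) ≤ κ`, `t ≥ tmin`) and `t D ≤ 1/10^7`; `exists_lam`, `K_eq`, `exists_lab`. -/
theorem theoremS (E0 g1 R0 : ℝ) (hE : 0 ≤ E0) (hg : 0 < g1) (hR : 1 ≤ R0) (m : ℕ) :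
    ∃ Z0 n0 : ℕ, ∀ n ≥ n0, ∀ (L : ℝ) (X : Finset ℂ) (err : ℂ → ℝ), SData L E0 g1 R0 X err →
      (n : ℝ) + 1 ≤ L → L ≤ n + 2 → X.card + m = (n + 3) * (n + 4) / 2 →
      ∃ (Z : Finset (Fin 3 → ℕ)) (Y : (Fin 3 → ℕ) → ℂ), Z.card ≤ Z0 ∧ Lab L X err n Z Y := by
  obtain ⟨C, hC1, hC⟩ := dense_lines E0 g1 R0 hE hg hR
  have hC0 : 0 < C := by linarith
  set κ : ℝ := 1 / (10000000 * C) with hκ
  have hκ0 : 0 < κ := by positivity
  obtain ⟨tmin, htm, ht⟩ := choose_t E0 g1 κ hE hg hκ0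
  set U0 : ℝ := κ / tmin with hU0
  have hU00 : 0 < U0 := by positivity
  set D0 : ℝ := C * U0 with hD0
  have hD00 : 0 < D0 := by positivity
  set Bb : ℝ := (U0 + 2) ^ 2 + 3 * (400000 * D0 + 1) ^ 2 with hBb
  refine ⟨⌈Bb + 3⌉₊, ⌈2 * (100 * Bb + 72 * (100000 * D0) ^ 2 + m + 10) + 10000000 * D0⌉₊, ?_⟩
  intro n hn L X err hS hL1 hL2 hX
  have hn' : 2 * (100 * Bb + 72 * (100000 * D0) ^ 2 + m + 10) + 10000000 * D0 ≤ n :=
    le_trans (Nat.le_ceil _) (by exact_mod_cast hn)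
  obtain ⟨t, h1, h2, h3, h4⟩ := ht L R0 X err hS
  have ht0 : 0 < t := lt_of_lt_of_le htm h1
  have hUU : 0 ≤ UU L E0 g1 X err t := C7_UU_nonneg hE
  have hUU10 : UU L E0 g1 X err t + 10 ≤ U0 := by
    rw [hU0, le_div_iff₀ htm]
    have : (UU L E0 g1 X err t + 10) * tmin ≤ (UU L E0 g1 X err t + 10) * t :=
      mul_le_mul_of_nonneg_left h1 (by linarith)
    linarith
  set D : ℝ := C * (UU L E0 g1 X err t + 10) with hD
  have hDD : D ≤ D0 := mul_le_mul_of_nonneg_left hUU10 hC0.le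
  have hD1 : 1 ≤ D := by nlinarith
  have hBb0 : 0 ≤ Bb := by positivity
  have hLD : 10000000 * D ≤ L := by
    have : (0 : ℝ) ≤ m := by positivity
    have : 0 ≤ (100000 * D0) ^ 2 := by positivity
    linarith
  have hdata : LData L E0 g1 R0 t D X err := by
    refine ⟨hS, ht0, hD1, ?_, hLD, ?_⟩
    · have : t * D = C * (t * (UU L E0 g1 X err t + 10)) := by rw [hD]; ring
      rw [this]
      have h5 : C * (t * (UU L E0 g1 X err t + 10)) ≤ C * κ := mul_le_mul_of_nonneg_left h4 hC0.le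
      have h6 : C * κ = 1 / 10000000 := by rw [hκ]; field_simp
      linarith
    · intro z hz i
      exact hC L X err t hS ht0 h3 (by rw [← hD]; linarith) z hz i
  obtain ⟨lam, K, hl⟩ := exists_lam hdata
  have hmono : (UU L E0 g1 X err t + 2) ^ 2 + 3 * (400000 * D + 1) ^ 2 ≤ Bb := by
    have h5 : (UU L E0 g1 X err t + 2) ^ 2 ≤ (U0 + 2) ^ 2 :=
      pow_le_pow_left₀ (by linarith) (by linarith) 2
    have h6 : (400000 * D + 1) ^ 2 ≤ (400000 * D0 + 1) ^ 2 :=
      pow_le_pow_left₀ (by linarith) (by linarith) 2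
    linarith
  have hmono2 : (100000 * D) ^ 2 ≤ (100000 * D0) ^ 2 :=
    pow_le_pow_left₀ (by linarith) (by linarith) 2
  have hK : K = n + 2 := by
    apply K_eq hdata hl n m hL1 hL2 hX
    have : (0 : ℝ) ≤ m := by positivity
    linarith
  subst hK
  obtain ⟨Z, Y, hZY, hZc⟩ := exists_lab hdata n hl
  refine ⟨Z, Y, ?_, hZY⟩
  have : (Z.card : ℝ) ≤ (⌈Bb + 3⌉₊ : ℝ) := by
    refine le_trans hZc (le_trans ?_ (Nat.le_ceil _))
    linarith
  exact_mod_cast this

end H24
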